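import Pool.Agent.H23.D2.Gen

/-!
# The affine frame of the time and two coordinates

`AfN`: the numbers of the frame. `afc`: the coordinates; `afp`, `afs`: the inverse, as a point and as
polynomials; `pul`: a polynomial in the coordinates of the frame; `psh`: the converse; `vlc`: the
direction.
-/

set_option autoImplicit false

namespace Pool.AFF82

open Finset Real MvPolynomial
open Pool.KA Pool.KSAT Pool.PB Pool.GEN Pool.D2R Pool.ISO Pool.CHT Pool.CHX

/-- **The numbers of an affine frame.** -/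
structure AfN where
  t : ℝ
  x0 : ℝ
  a0 : ℝ
  x1 : ℝ
  a1 : ℝ
  a2 : ℝ

/-- The values of a composition. -/
theorem eval_bd {σ τ : Type} (f : σ → MvPolynomial τ ℝ) (Q : MvPolynomial σ ℝ) (z : τ → ℝ) :
    eval z (bind₁ f Q) = eval (fun k => eval z (f k)) Q := by
  rw [eval, eval₂Hom_bind₁]
  rfl

/-- The chain rule. -/
theorem pd_bd {σ τ : Type} [Fintype σ] (f : σ → MvPolynomial τ ℝ) (Q : MvPolynomial σ ℝ) (l : τ)
    (z : τ → ℝ) : eval z (pderiv l (bind₁ f Q)) =
      ∑ k, eval (fun k => eval z (f k)) (pderiv k Q) * eval z (pderiv l (f k)) := by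
  classical
  induction Q using MvPolynomial.induction_on with
  | C a => simp
  | add P Q hP hQ =>
    rw [map_add, map_add, map_add, hP, hQ, ← Finset.sum_add_distrib]
    refine Finset.sum_congr rfl fun k _ => ?_
    rw [map_add, map_add, add_mul]
  | mul_X P j hP =>
    rw [map_mul, bind₁_X_right, pderiv_mul, map_add, map_mul, map_mul, hP, eval_bd]
    have e1 : ∀ k, eval (fun k => eval z (f k)) (pderiv k (P * X j)) * eval z (pderiv l (f k)) =
        eval (fun k => eval z (f k)) (pderiv k P) * eval z (pderiv l (f k)) * eval z (f j) +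
        (if k = j then eval (fun k => eval z (f k)) P * eval z (pderiv l (f j)) else 0) := by
      intro k
      rw [pderiv_mul, map_add, map_mul, map_mul, eval_X]
      by_cases h : k = j
      · subst h
        rw [if_pos rfl, pderiv_X_self, map_one]
        ring
      · rw [if_neg h, pderiv_X_of_ne (Ne.symm h), map_zero]
        ring
    simp only [e1]
    rw [Finset.sum_add_distrib, Finset.sum_ite_eq' Finset.univ j, if_pos (Finset.mem_univ _),
      ← Finset.sum_mul]

/-- The degree of a composition. -/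
theorem deg_bd {σ τ : Type} (f : σ → MvPolynomial τ ℝ) {K : ℕ} (hf : ∀ i, (f i).totalDegree ≤ K)
    (Q : MvPolynomial σ ℝ) : (bind₁ f Q).totalDegree ≤ Q.totalDegree * K := by
  classical
  rw [← aeval_eq_bind₁, aeval_def, eval₂_eq]
  refine (totalDegree_finsetSum _ _).trans (Finset.sup_le fun s hs => ?_)
  refine (totalDegree_mul _ _).trans ?_
  have h1 : (algebraMap ℝ (MvPolynomial τ ℝ) (coeff s Q)).totalDegree = 0 := totalDegree_C _
  rw [h1, zero_add]
  refine (totalDegree_finsetProd _ _).trans ?_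
  refine le_trans ?_ (Nat.mul_le_mul_right K (le_totalDegree hs))
  rw [Finsupp.sum, Finset.sum_mul]
  refine Finset.sum_le_sum fun i _ => ?_
  exact (totalDegree_pow _ _).trans (Nat.mul_le_mul_left _ (hf i))

section frame

variable {m : ℕ} (c : ℕ → Fin m) (N : AfN) (o s0 s1 : ℕ)

/-- **The coordinates of the frame.** -/
noncomputable def afc (b : Option (Fin m) → ℝ) : Fin 3 → ℝ :=
  ![2 ^ o * (b none - N.t), 2 ^ s0 * (b (some (c 0)) - N.x0 - N.a0 * (b none - N.t)),
    2 ^ s1 * (b (some (c 1)) - N.x1 - N.a1 * (b none - N.t) -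
      N.a2 * (b (some (c 0)) - N.x0 - N.a0 * (b none - N.t)))]

/-- **The point with the coordinates `z`**, and `c 2 = u`. -/
noncomputable def afp (u : ℝ) (z : Fin 3 → ℝ) : Option (Fin m) → ℝ := fun k =>
  if k = none then N.t + z 0 / 2 ^ o else
  if k = some (c 0) then N.x0 + N.a0 * (z 0 / 2 ^ o) + z 1 / 2 ^ s0 else
  if k = some (c 1) then N.x1 + N.a1 * (z 0 / 2 ^ o) + N.a2 * (z 1 / 2 ^ s0) + z 2 / 2 ^ s1 else
  if k = some (c 2) then u else 0

/-- The same as polynomials. -/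
noncomputable def afs (U : MvPolynomial (Fin 3) ℝ) : Option (Fin m) → MvPolynomial (Fin 3) ℝ :=
  fun k =>
  if k = none then C N.t + C (1 / 2 ^ o) * X 0 else
  if k = some (c 0) then C N.x0 + C (N.a0 / 2 ^ o) * X 0 + C (1 / 2 ^ s0) * X 1 else
  if k = some (c 1) then C N.x1 + C (N.a1 / 2 ^ o) * X 0 + C (N.a2 / 2 ^ s0) * X 1 +
    C (1 / 2 ^ s1) * X 2 else
  if k = some (c 2) then U else 0

/-- **A polynomial in the coordinates of the frame.** -/
noncomputable def pul (U : MvPolynomial (Fin 3) ℝ) (Q : MvPolynomial (Option (Fin m)) ℝ) :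
    MvPolynomial (Fin 3) ℝ := bind₁ (afs c N o s0 s1 U) Q

/-- The coordinates as polynomials. -/
noncomputable def afo : Fin 3 → MvPolynomial (Option (Fin m)) ℝ :=
  ![C (2 ^ o) * (X none - C N.t),
    C (2 ^ s0) * (X (some (c 0)) - C N.x0 - C N.a0 * (X none - C N.t)),
    C (2 ^ s1) * (X (some (c 1)) - C N.x1 - C N.a1 * (X none - C N.t) -
      C N.a2 * (X (some (c 0)) - C N.x0 - C N.a0 * (X none - C N.t)))]

/-- **A polynomial of the coordinates**, as a polynomial of the point. -/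
noncomputable def psh (P : MvPolynomial (Fin 3) ℝ) : MvPolynomial (Option (Fin m)) ℝ :=
  bind₁ (afo c N o s0 s1) P

/-- **The direction.** -/
noncomputable def vlc (V : Option (Fin m) → ℝ) : Fin 3 → ℝ :=
  ![V none, 2 ^ s0 / 2 ^ o * (V (some (c 0)) - N.a0 * V none),
    2 ^ s1 / 2 ^ o * (V (some (c 1)) - N.a1 * V none - N.a2 * (V (some (c 0)) - N.a0 * V none))]

/-- The vectors of the frame. -/
noncomputable def afv (l : Fin 3) (v : ℝ) : Option (Fin m) → ℝ := fun k =>
  if k = none then (![1 / 2 ^ o, 0, 0] : Fin 3 → ℝ) l else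
  if k = some (c 0) then (![N.a0 / 2 ^ o, 1 / 2 ^ s0, 0] : Fin 3 → ℝ) l else
  if k = some (c 1) then (![N.a1 / 2 ^ o, N.a2 / 2 ^ s0, 1 / 2 ^ s1] : Fin 3 → ℝ) l else
  if k = some (c 2) then v else 0

variable {c N o s0 s1}

theorem eval_afs (U : MvPolynomial (Fin 3) ℝ) (z : Fin 3 → ℝ) (k : Option (Fin m)) :
    eval z (afs c N o s0 s1 U k) = afp c N o s0 s1 (eval z U) z k := by
  unfold afs afp
  split_ifs
  · rw [map_add, map_mul, eval_C, eval_C, eval_X]
    ring
  · rw [map_add, map_add, map_mul, map_mul, eval_C, eval_C, eval_C, eval_X, eval_X]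
    ring
  · simp only [map_add, map_mul, eval_C, eval_X]
    ring
  · rfl
  · rw [map_zero]

theorem eval_pul (U : MvPolynomial (Fin 3) ℝ) (Q : MvPolynomial (Option (Fin m)) ℝ)
    (z : Fin 3 → ℝ) :
    eval z (pul c N o s0 s1 U Q) = eval (afp c N o s0 s1 (eval z U) z) Q := by
  unfold pul
  rw [eval_bd]
  congr 1
  congr 1
  funext k
  exact eval_afs U z k

theorem afs_deg {U : MvPolynomial (Fin 3) ℝ} {K : ℕ} (hU : U.totalDegree ≤ K) (hK : 1 ≤ K)
    (k : Option (Fin m)) : (afs c N o s0 s1 U k).totalDegree ≤ K := by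
  have hC : ∀ x : ℝ, (C x : MvPolynomial (Fin 3) ℝ).totalDegree ≤ K := fun x => by
    rw [totalDegree_C]
    exact Nat.zero_le _
  have hX : ∀ (x : ℝ) (i : Fin 3), (C x * X i : MvPolynomial (Fin 3) ℝ).totalDegree ≤ K := by
    intro x i
    refine (totalDegree_mul _ _).trans ?_
    rw [totalDegree_C, totalDegree_X, zero_add]
    exact hK
  have hA : ∀ {P Q : MvPolynomial (Fin 3) ℝ}, P.totalDegree ≤ K → Q.totalDegree ≤ K →
      (P + Q).totalDegree ≤ K := fun h h' => (totalDegree_add _ _).trans (max_le h h')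
  unfold afs
  split_ifs
  · exact hA (hC _) (hX _ _)
  · exact hA (hA (hC _) (hX _ _)) (hX _ _)
  · exact hA (hA (hA (hC _) (hX _ _)) (hX _ _)) (hX _ _)
  · exact hU
  · rw [totalDegree_zero]
    exact Nat.zero_le _

theorem pul_deg {U : MvPolynomial (Fin 3) ℝ} {Q : MvPolynomial (Option (Fin m)) ℝ} {D K : ℕ}
    (hU : U.totalDegree ≤ K) (hK : 1 ≤ K) (hQ : Q.totalDegree ≤ D) :
    (pul c N o s0 s1 U Q).totalDegree ≤ D * K :=
  (deg_bd _ (afs_deg hU hK) Q).trans (Nat.mul_le_mul_right K hQ)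

theorem eval_afo (b : Option (Fin m) → ℝ) (i : Fin 3) :
    eval b (afo c N o s0 s1 i) = afc c N o s0 s1 b i := by
  unfold afo afc
  fin_cases i
  · show eval b (C (2 ^ o) * (X none - C N.t)) = _
    simp only [map_sub, map_mul, eval_C, eval_X]
    rfl
  · show eval b (C (2 ^ s0) * (X (some (c 0)) - C N.x0 - C N.a0 * (X none - C N.t))) = _
    simp only [map_sub, map_mul, eval_C, eval_X]
    rfl
  · show eval b (C (2 ^ s1) * (X (some (c 1)) - C N.x1 - C N.a1 * (X none - C N.t) -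
      C N.a2 * (X (some (c 0)) - C N.x0 - C N.a0 * (X none - C N.t)))) = _
    simp only [map_sub, map_mul, eval_C, eval_X]
    rfl

theorem eval_psh (P : MvPolynomial (Fin 3) ℝ) (b : Option (Fin m) → ℝ) :
    eval b (psh c N o s0 s1 P) = eval (afc c N o s0 s1 b) P := by
  unfold psh
  rw [eval_bd]
  congr 1
  congr 1
  funext i
  exact eval_afo b i

theorem afo_deg (i : Fin 3) : (afo c N o s0 s1 i).totalDegree ≤ 1 := by
  have hC : ∀ x : ℝ, (C x : MvPolynomial (Option (Fin m)) ℝ).totalDegree ≤ 1 := fun x => by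
    rw [totalDegree_C]
    exact Nat.zero_le _
  have hX : ∀ i : Option (Fin m), (X i : MvPolynomial (Option (Fin m)) ℝ).totalDegree ≤ 1 :=
    fun i => by rw [totalDegree_X]
  have hM : ∀ {x : ℝ} {P : MvPolynomial (Option (Fin m)) ℝ}, P.totalDegree ≤ 1 →
      (C x * P).totalDegree ≤ 1 := fun h => (totalDegree_mul _ _).trans (by
        rw [totalDegree_C, zero_add]
        exact h)
  have hS : ∀ {P Q : MvPolynomial (Option (Fin m)) ℝ}, P.totalDegree ≤ 1 → Q.totalDegree ≤ 1 →
      (P - Q).totalDegree ≤ 1 := fun h h' => (totalDegree_sub _ _).trans (max_le h h')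
  unfold afo
  fin_cases i
  · exact hM (hS (hX _) (hC _))
  · exact hM (hS (hS (hX _) (hC _)) (hM (hS (hX _) (hC _))))
  · exact hM (hS (hS (hS (hX _) (hC _)) (hM (hS (hX _) (hC _))))
      (hM (hS (hS (hX _) (hC _)) (hM (hS (hX _) (hC _))))))

theorem psh_deg {P : MvPolynomial (Fin 3) ℝ} {D : ℕ} (hP : P.totalDegree ≤ D) :
    (psh c N o s0 s1 P).totalDegree ≤ D :=
  (deg_bd _ afo_deg P).trans (by rw [mul_one]; exact hP)

theorem psh_dep (P : MvPolynomial (Fin 3) ℝ) : DepC c 2 (psh c N o s0 s1 P) := by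
  intro b b' h0 h
  rw [eval_psh, eval_psh]
  have e : afc c N o s0 s1 b = afc c N o s0 s1 b' := by
    unfold afc
    rw [h0, h 0 (by norm_num), h 1 (by norm_num)]
  rw [e]

theorem afc_afp (hc : Set.InjOn c (Set.Iio 2)) (u : ℝ) (z : Fin 3 → ℝ) :
    afc c N o s0 s1 (afp c N o s0 s1 u z) = z := by
  have h10 : c 1 ≠ c 0 := fun h => by
    have := hc (show 1 < 2 by norm_num) (show 0 < 2 by norm_num) h
    omega
  have e0 : afp c N o s0 s1 u z none = N.t + z 0 / 2 ^ o := if_pos rfl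
  have e1 : afp c N o s0 s1 u z (some (c 0)) = N.x0 + N.a0 * (z 0 / 2 ^ o) + z 1 / 2 ^ s0 := by
    unfold afp
    rw [if_neg (by simp), if_pos rfl]
  have e2 : afp c N o s0 s1 u z (some (c 1)) = N.x1 + N.a1 * (z 0 / 2 ^ o) +
      N.a2 * (z 1 / 2 ^ s0) + z 2 / 2 ^ s1 := by
    unfold afp
    rw [if_neg (by simp), if_neg (by
      intro h
      exact h10 (Option.some_injective _ h)), if_pos rfl]
  funext i
  unfold afc
  rw [e0, e1, e2]
  fin_cases i
  · show 2 ^ o * (N.t + z 0 / 2 ^ o - N.t) = z 0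
    field_simp
    ring
  · show 2 ^ s0 * (N.x0 + N.a0 * (z 0 / 2 ^ o) + z 1 / 2 ^ s0 - N.x0 -
      N.a0 * (N.t + z 0 / 2 ^ o - N.t)) = z 1
    field_simp
    ring
  · show 2 ^ s1 * (N.x1 + N.a1 * (z 0 / 2 ^ o) + N.a2 * (z 1 / 2 ^ s0) + z 2 / 2 ^ s1 - N.x1 -
      N.a1 * (N.t + z 0 / 2 ^ o - N.t) - N.a2 * (N.x0 + N.a0 * (z 0 / 2 ^ o) + z 1 / 2 ^ s0 - N.x0 -
      N.a0 * (N.t + z 0 / 2 ^ o - N.t))) = z 2
    field_simp
    ring

/-- The point of the coordinates of `b`. -/
theorem afp_afc (hc : Set.InjOn c (Set.Iio 2)) (u : ℝ) (b : Option (Fin m) → ℝ) :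
    afp c N o s0 s1 u (afc c N o s0 s1 b) none = b none ∧
    afp c N o s0 s1 u (afc c N o s0 s1 b) (some (c 0)) = b (some (c 0)) ∧
    afp c N o s0 s1 u (afc c N o s0 s1 b) (some (c 1)) = b (some (c 1)) := by
  have h10 : c 1 ≠ c 0 := fun h => by
    have := hc (show 1 < 2 by norm_num) (show 0 < 2 by norm_num) h
    omega
  refine ⟨?_, ?_, ?_⟩
  · unfold afp
    rw [if_pos rfl]
    show N.t + 2 ^ o * (b none - N.t) / 2 ^ o = _
    field_simp
    ring
  · unfold afp
    rw [if_neg (by simp), if_pos rfl]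
    show N.x0 + N.a0 * (2 ^ o * (b none - N.t) / 2 ^ o) +
      2 ^ s0 * (b (some (c 0)) - N.x0 - N.a0 * (b none - N.t)) / 2 ^ s0 = _
    field_simp
    ring
  · unfold afp
    rw [if_neg (by simp), if_neg (by
      intro h
      exact h10 (Option.some_injective _ h)), if_pos rfl]
    show N.x1 + N.a1 * (2 ^ o * (b none - N.t) / 2 ^ o) +
      N.a2 * (2 ^ s0 * (b (some (c 0)) - N.x0 - N.a0 * (b none - N.t)) / 2 ^ s0) +
      2 ^ s1 * (b (some (c 1)) - N.x1 - N.a1 * (b none - N.t) -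
      N.a2 * (b (some (c 0)) - N.x0 - N.a0 * (b none - N.t))) / 2 ^ s1 = _
    field_simp
    ring

/-- **The values of a chart over the plane** in the coordinates of the frame. -/
theorem pul_afc (hc : Set.InjOn c (Set.Iio 2)) {Q : MvPolynomial (Option (Fin m)) ℝ}
    (hQ : DepC c 2 Q) (U : MvPolynomial (Fin 3) ℝ) (b : Option (Fin m) → ℝ) :
    eval (afc c N o s0 s1 b) (pul c N o s0 s1 U Q) = eval b Q := by
  rw [eval_pul]
  obtain ⟨h0, h1, h2⟩ := afp_afc (c := c) (N := N) (o := o) (s0 := s0) (s1 := s1) hc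
    (eval (afc c N o s0 s1 b) U) b
  refine hQ _ _ h0 fun l hl => ?_
  rcases l with _ | _ | l
  · exact h1
  · exact h2
  · omega

/-- The coordinates along a line. -/
theorem afc_add (b V : Option (Fin m) → ℝ) (δ : ℝ) (i : Fin 3) :
    afc c N o s0 s1 (fun k => b k + δ * V k) i =
      afc c N o s0 s1 b i + 2 ^ o * δ * vlc c N o s0 s1 V i := by
  unfold afc vlc
  fin_cases i
  · show 2 ^ o * (b none + δ * V none - N.t) = 2 ^ o * (b none - N.t) + 2 ^ o * δ * V none
    ring
  · show 2 ^ s0 * (b (some (c 0)) + δ * V (some (c 0)) - N.x0 - N.a0 * (b none + δ * V none - N.t)) =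
      2 ^ s0 * (b (some (c 0)) - N.x0 - N.a0 * (b none - N.t)) +
        2 ^ o * δ * (2 ^ s0 / 2 ^ o * (V (some (c 0)) - N.a0 * V none))
    field_simp
    ring
  · show 2 ^ s1 * (b (some (c 1)) + δ * V (some (c 1)) - N.x1 - N.a1 * (b none + δ * V none - N.t) -
      N.a2 * (b (some (c 0)) + δ * V (some (c 0)) - N.x0 - N.a0 * (b none + δ * V none - N.t))) =
      2 ^ s1 * (b (some (c 1)) - N.x1 - N.a1 * (b none - N.t) -
      N.a2 * (b (some (c 0)) - N.x0 - N.a0 * (b none - N.t))) +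
      2 ^ o * δ * (2 ^ s1 / 2 ^ o * (V (some (c 1)) - N.a1 * V none -
        N.a2 * (V (some (c 0)) - N.a0 * V none)))
    field_simp
    ring

/-- **The derivatives in the coordinates of the frame.** -/
theorem pd_pul (U : MvPolynomial (Fin 3) ℝ) (Q : MvPolynomial (Option (Fin m)) ℝ) (l : Fin 3)
    (z : Fin 3 → ℝ) : eval z (pderiv l (pul c N o s0 s1 U Q)) =
      dd Q (afp c N o s0 s1 (eval z U) z) (afv c N o s0 s1 l (eval z (pderiv l U))) := by
  unfold pul dd
  rw [pd_bd]
  have e0 : (fun k => eval z (afs c N o s0 s1 U k)) = afp c N o s0 s1 (eval z U) z :=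
    funext fun k => eval_afs U z k
  rw [e0]
  refine Finset.sum_congr rfl fun k _ => ?_
  congr 1
  have hX : ∀ (x : ℝ) (i : Fin 3), eval z (pderiv l (C x * X i : MvPolynomial (Fin 3) ℝ)) =
      if i = l then x else 0 := by
    intro x i
    rw [pderiv_mul, pderiv_C, zero_mul, zero_add, map_mul, eval_C]
    by_cases h : i = l
    · subst h
      rw [if_pos rfl, pderiv_X_self, map_one, mul_one]
    · rw [if_neg h, pderiv_X_of_ne h, map_zero, mul_zero]
  have hA : ∀ P P' : MvPolynomial (Fin 3) ℝ, eval z (pderiv l (P + P')) =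
      eval z (pderiv l P) + eval z (pderiv l P') := fun P P' => by rw [map_add, map_add]
  have hC : ∀ x : ℝ, eval z (pderiv l (C x : MvPolynomial (Fin 3) ℝ)) = 0 := fun x => by
    rw [pderiv_C, map_zero]
  unfold afs afv
  split_ifs
  · rw [hA, hC, zero_add, hX]
    fin_cases l <;> simp
  · rw [hA, hA, hC, zero_add, hX, hX]
    fin_cases l <;> simp
  · rw [hA, hA, hA, hC, zero_add, hX, hX, hX]
    fin_cases l <;> simp
  · rfl
  · rw [map_zero, map_zero]

end frame

end Pool.AFF82
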