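import Pool.Agent.H82.CNC.Gec

/-!
# The ball of one window in the affine frame

`afb_bll`: `Bll` of the conic chain, from the boxes, the absence of relations and of hyperplanes.
-/

set_option autoImplicit false

namespace Pool.AFF82

open Finset Real MvPolynomial
open Pool.Agent.H49.Ent Pool.Agent.H32.Dense Pool.STK
open Pool.KA Pool.KSAT Pool.K2S Pool.PB Pool.S6C Pool.GEN Pool.D2R Pool.ISO Pool.CHT Pool.CHX
open Pool.PB.Trl (rt rt_mem t_rt)
open Pool.CNC76 (Clo Bll dil unt Bx)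
open Pool.D2Con (NoHyp)

variable {m J : ℕ}

/-- **The radius of the cube** of the window `k`. -/
noncomputable def rk (a : ℕ) (w : ℕ → ℕ) (k : ℕ) : ℝ := 2 ^ (8 * a) * ru w k

theorem rk_pos (a : ℕ) (w : ℕ → ℕ) (k : ℕ) : 0 < rk a w k := mul_pos (by positivity) (ru_pos w k)

theorem eval_dil (a : Fin 3 → ℝ) (ρ : ℝ) (P : MvPolynomial (Fin 3) ℝ) (z : Fin 3 → ℝ) :
    eval z (dil a ρ P) = eval (fun i => a i + ρ * z i) P := by
  unfold dil
  rw [aeval_eq_bind₁, eval_bd]
  congr 2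
  funext i
  rw [map_add, map_mul, eval_C, eval_C, eval_X]

theorem dil_deg (a : Fin 3 → ℝ) (ρ : ℝ) {P : MvPolynomial (Fin 3) ℝ} {D : ℕ}
    (h : P.totalDegree ≤ D) : (dil a ρ P).totalDegree ≤ D := by
  unfold dil
  rw [aeval_eq_bind₁]
  refine (deg_bd _ (K := 1) (fun i => ?_) P).trans (by rw [mul_one]; exact h)
  refine (totalDegree_add _ _).trans (max_le ?_ ?_)
  · rw [totalDegree_C]
    exact Nat.zero_le _
  · refine (totalDegree_mul _ _).trans ?_
    rw [totalDegree_C, totalDegree_X, zero_add]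

/-- **Growth from a small concentric cube.** -/
theorem gro_cub (D : ℕ) : ∃ C : ℝ, 1 ≤ C ∧ ∀ {P : MvPolynomial (Fin 3) ℝ} {M : ℝ} (n : ℕ),
    P.totalDegree ≤ D → (∀ z : Fin 3 → ℝ, (∀ i, |z i| ≤ 1 / 2 ^ n) → |eval z P| ≤ M) →
    ∀ z, Bx z → |eval z P| ≤ C * 2 ^ (n * D) * M := by
  obtain ⟨C, hC, h⟩ := grow_one D
  refine ⟨C, hC, ?_⟩
  intro P M n hP hM z hz
  obtain ⟨v, hv⟩ : ∃ v : Fin 3 → Polynomial ℝ, v = fun i =>
    Polynomial.C (z i) * Polynomial.X := ⟨_, rfl⟩
  have hvd : ∀ i, (v i).natDegree ≤ 1 := fun i => by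
    rw [hv]
    exact (Polynomial.natDegree_C_mul_le _ _).trans Polynomial.natDegree_X_le
  have hve : ∀ u i, (v i).eval u = z i * u := fun u i => by
    rw [hv]
    simp only [Polynomial.eval_mul, Polynomial.eval_C, Polynomial.eval_X]
  have h1 := h (MvPolynomial.aeval v P) M n D
    ((Pool.KBX.natDegree_aeval_le P v hvd hP).trans (le_of_eq (by ring))) le_rfl (fun τ hτ => by
      rw [Pool.KBX.eval_aeval_poly]
      refine hM _ fun i => ?_
      rw [hve, abs_mul, abs_of_nonneg (div_nonneg hτ.1 (by positivity))]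
      calc |z i| * (τ / 2 ^ n) ≤ 1 * (1 / 2 ^ n) :=
            mul_le_mul (hz i) (div_le_div_of_nonneg_right hτ.2 (by positivity))
              (div_nonneg hτ.1 (by positivity)) (by norm_num)
        _ = _ := one_mul _)
  rw [Pool.KBX.eval_aeval_poly] at h1
  have e1 : (fun i => (v i).eval 1) = z := by
    funext i
    rw [hve, mul_one]
  rwa [e1] at h1

section clo

variable {F : Fam m J} {c : ℕ → Fin m} {D n f x y : ℕ} {w s gf : ℕ → ℕ} {g : ℕ → ℕ → ℕ} {gx : ℕ}
  {θ : ℝ} {B : F.Ω → Prop} {P : PtT F → ℕ → MvPolynomial (Option (Fin m)) ℝ}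
  {PH : LnT F → ℕ → MvPolynomial (Option (Fin m)) ℝ}
  {G : ℕ → PtT F → ℕ → MvPolynomial (Option (Fin m)) ℝ}
  {H : ℕ → LnT F → ℕ → MvPolynomial (Option (Fin m)) ℝ} {k : ℕ}

/-- The numbers of the frame are closed. -/
theorem AfD.fr_clo (W : AfD F c D n f x y w s gf g gx θ B P PH G H) :
    Clo B (fun ω => ptr F J ω) (slam F (w 0)) (afr F c w P G) := by
  have hwJ := W.wJ 0 (Nat.zero_le _)
  refine ⟨fun ω ω' _ _ hh => ?_, fun ω ω' hω hω' hh => ?_⟩
  · beta_reduce at hh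
    have h1 : (slam F (w 0) ω).2.2 = (slam F (w 0) ω').2.2 := by
      rw [slam_T1, slam_T1, (bt_near hh).1]
    unfold afr
    rw [hh, h1]
  · have h1 : slam F f ω = slam F f ω' := by
      rw [slam_coarse F W.fo hwJ ω, slam_coarse F W.fo hwJ ω', hh]
    unfold afr
    rw [W.clP ω hω 0 (by norm_num), W.clP ω' hω' 0 (by norm_num), W.clP ω hω 1 (by norm_num),
      W.clP ω' hω' 1 (by norm_num), W.clG 0 (Nat.zero_le _) ω hω 0 (by norm_num),
      W.clG 0 (Nat.zero_le _) ω' hω' 0 (by norm_num), W.clG 0 (Nat.zero_le _) ω hω 1 (by norm_num),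
      W.clG 0 (Nat.zero_le _) ω' hω' 1 (by norm_num), h1, hh]

theorem AfD.fr_clk (W : AfD F c D n f x y w s gf g gx θ B P PH G H) (hk : k ≤ n) :
    Clo B (fun ω => ptr F J ω) (slam F (w k)) (afr F c w P G) :=
  W.fr_clo.fine fun ω ω' _ _ hh => by
    rw [slam_coarse F (W.ow k hk) (W.wJ k hk) ω, slam_coarse F (W.ow k hk) (W.wJ k hk) ω', hh]

/-- The centre of the window `k` is closed. -/
theorem AfD.ctr_clo (W : AfD F c D n f x y w s gf g gx θ B P PH G H) (hk : k ≤ n) :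
    Clo B (fun ω => ptr F J ω) (slam F (w k)) (aC F c w s P G k) := by
  have h1 : Clo B (fun ω => ptr F J ω) (slam F (w k)) (cpk F c w G k) := by
    refine ⟨fun ω ω' _ _ hh => ?_, fun ω ω' hω hω' hh => ?_⟩
    · beta_reduce at hh
      have h1 : (slam F (w k) ω).2.2 = (slam F (w k) ω').2.2 := by
        rw [slam_T1, slam_T1, (bt_near hh).1]
      unfold cpk tmk
      rw [hh, h1]
    · unfold cpk tmk
      rw [W.clG k hk ω hω 0 (by norm_num), W.clG k hk ω' hω' 0 (by norm_num),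
        W.clG k hk ω hω 1 (by norm_num), W.clG k hk ω' hω' 1 (by norm_num), hh]
  exact (W.fr_clk hk).map2 h1 fun N b => afc c N (w 0) (s 0) (s 1) b

end clo

/-- **The ball of one window.** -/
theorem afb_bll (D : ℕ) : ∃ c₁ : ℕ, ∀ {m J : ℕ} {F : Fam m J} {c : ℕ → Fin m}
    {D₀ n f x y : ℕ} {w s gf : ℕ → ℕ} {g : ℕ → ℕ → ℕ} {gx : ℕ} {θ : ℝ} {B : F.Ω → Prop}
    {P : PtT F → ℕ → MvPolynomial (Option (Fin m)) ℝ}
    {PH : LnT F → ℕ → MvPolynomial (Option (Fin m)) ℝ}
    {G : ℕ → PtT F → ℕ → MvPolynomial (Option (Fin m)) ℝ}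
    {H : ℕ → LnT F → ℕ → MvPolynomial (Option (Fin m)) ℝ} {a y' k d : ℕ} {D' h : ℕ} {κ η c' : ℝ},
    AfD F c D₀ n f x y w s gf g gx θ B P PH G H →
    (∀ ω, B ω → AfE F c n a y' w s g P G ω) → (∀ k ≤ n, ∀ ω, B ω → AfB F c a w s g P G k ω) →
    k ≤ n → d ≤ n → w k ≤ w d → 0 ≤ κ → 0 < Pe F.p B →
    RelvF F c 2 (w k) (w k) (g k) D' h κ B (G k) → D ≤ D' →
    (∀ B' : F.Ω → Prop, (∀ ω, B' ω → B ω) → κ * Pe F.p B ≤ Pe F.p B' → ∀ {ζ : Type} (Z : F.Ω → ζ),
      Clo B' (fun ω => ptr F J ω) (slam F (w d)) Z →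
        NoHyp (Pool.Agent.H49.Ent.cond F.p B' True) (aX F c w s P G) Z η c') →
    Bll F.p B (fun ω => ptr F J ω) (slam F (w k)) (slam F (w d))
      (unt (aY F c w s P G) (aC F c w s P G k) (rk a w k))
      (unt (aC F c w s P G d) (aC F c w s P G k) (rk a w k)) (aX F c w s P G) D
      (h + 20 * a * D + c₁) (w d - w k) κ η c' (2 ^ (3 * a)) := by
  obtain ⟨C, hC, hgro⟩ := gro_cub D
  obtain ⟨c₁, hc₁⟩ := pow_unbounded_of_one_lt C (one_lt_two (α := ℝ))
  refine ⟨c₁, ?_⟩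
  intro m J F c D₀ n f x y w s gf g gx θ B P PH G H a y' k d D' h κ η c' W hE hB hk hd hkd hκ hPB
    hrel hDD hnh
  have hru := ru_pos w k
  have hrk := rk_pos a w k
  have hrud : ru w d ≤ ru w k := by
    unfold ru
    exact div_le_div_of_nonneg_left (by positivity) (by positivity)
      (pow_le_pow_right₀ (by norm_num) hkd)
  have hpow : ∀ {i j : ℕ}, i ≤ j → (2 : ℝ) ^ i ≤ 2 ^ j := fun h => pow_le_pow_right₀ (by norm_num) h
  have hwJ := W.wJ d hd
  have hsl : ∀ ω ω', B ω → B ω' → slam F (w d) ω = slam F (w d) ω' →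
      slam F (w k) ω = slam F (w k) ω' := fun ω ω' _ _ hh => by
    rw [slam_coarse F hkd hwJ ω, slam_coarse F hkd hwJ ω', hh]
  have h2a : ∀ ω, B ω → 2 * (2 ^ (5 * a) * ru w k) ≤ rk a w k := fun ω hω => by
    have ha := (hE ω hω).a4
    unfold rk
    rw [← mul_assoc]
    refine mul_le_mul_of_nonneg_right ?_ hru.le
    have e1 : (2 : ℝ) * 2 ^ (5 * a) = 2 ^ (5 * a + 1) := by rw [pow_succ]; ring
    rw [e1]
    exact hpow (by omega)
  refine ⟨F.isLaw, hκ, hPB, hsl, fun ω hω i => ?_, fun ω hω i => ?_, ?_, fun ω hω i => ?_,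
    fun ω hω i => ?_, ?_, hnh⟩
  · show |(aY F c w s P G ω i - aC F c w s P G k ω i) / rk a w k| ≤ 1 / 2
    rw [abs_div, abs_of_pos hrk, div_le_iff₀ hrk]
    have h1 := (hB k hk ω hω).own i
    have h2 := h2a ω hω
    linarith
  · show |(aC F c w s P G d ω i - aC F c w s P G k ω i) / rk a w k| ≤ 1
    rw [abs_div, abs_of_pos hrk, div_le_iff₀ hrk, one_mul]
    have h1 := (hB k hk ω hω).own i
    have h2 := (hB d hd ω hω).own i
    rw [abs_sub_comm] at h2
    have h3 := abs_sub_le (aC F c w s P G d ω i) (aY F c w s P G ω i) (aC F c w s P G k ω i)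
    have h4 := h2a ω hω
    have h5 : (2 : ℝ) ^ (5 * a) * ru w d ≤ 2 ^ (5 * a) * ru w k :=
      mul_le_mul_of_nonneg_left hrud (by positivity)
    linarith
  · exact (W.ctr_clo hd).map2 ((W.ctr_clo hk).fine hsl) fun u v i => (u i - v i) / rk a w k
  · show |(aY F c w s P G ω i - aC F c w s P G k ω i) / rk a w k -
      (aC F c w s P G d ω i - aC F c w s P G k ω i) / rk a w k| ≤ 1 / 2 ^ (w d - w k)
    have e1 : (aY F c w s P G ω i - aC F c w s P G k ω i) / rk a w k -
      (aC F c w s P G d ω i - aC F c w s P G k ω i) / rk a w k =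
      (aY F c w s P G ω i - aC F c w s P G d ω i) / rk a w k := by ring
    rw [e1, abs_div, abs_of_pos hrk, div_le_iff₀ hrk]
    refine ((hB d hd ω hω).own i).trans ?_
    have e2 : (1 : ℝ) / 2 ^ (w d - w k) * rk a w k = 2 ^ (8 * a) * ru w d := by
      unfold rk ru
      have e3 : (2 : ℝ) ^ w d = 2 ^ w k * 2 ^ (w d - w k) := by
        rw [← pow_add]
        congr 1
        omega
      rw [e3]
      field_simp
    rw [e2]
    exact mul_le_mul_of_nonneg_right (hpow (by omega)) (ru_pos w d).le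
  · have hEω := hE ω hω
    have ha := hEω.a4
    fin_cases i
    · show |(1 : ℝ)| ≤ _
      rw [abs_one]
      exact one_le_pow₀ (by norm_num)
    · exact hEω.X1.trans (hpow (by omega))
    · exact hEω.X2
  · intro B' hB' hPB' R hR hRd M hM hRM
    obtain ⟨Q, hQ⟩ : ∃ Q : F.Ω → MvPolynomial (Option (Fin m)) ℝ, Q = fun ω =>
      psh c (afr F c w P G ω) (w 0) (s 0) (s 1)
        (dil (fun i => -aC F c w s P G k ω i / rk a w k) (1 / rk a w k) (R ω)) := ⟨_, rfl⟩
    have hQe : ∀ ω b, eval b (Q ω) = eval (fun i => (afc c (afr F c w P G ω) (w 0) (s 0) (s 1) b i -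
        aC F c w s P G k ω i) / rk a w k) (R ω) := by
      intro ω b
      rw [hQ]
      beta_reduce
      rw [eval_psh, eval_dil]
      congr 2
      funext i
      ring
    have hQc : Clo B' (fun ω => ptr F J ω) (slam F (w k)) Q := by
      rw [hQ]
      exact ((W.fr_clk hk).sub hB').map2 (((W.ctr_clo hk).sub hB').map2 hR fun u v => (u, v))
        fun N p => psh c N (w 0) (s 0) (s 1)
          (dil (fun i => -p.1 i / rk a w k) (1 / rk a w k) p.2)
    obtain ⟨B'', k1, k2, k3⟩ := relvF_clo hrel hB' hPB' hQc (fun ω hω => by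
      rw [hQ]
      exact (psh_deg (dil_deg _ _ (hRd ω hω))).trans hDD) (fun ω _ => by
      rw [hQ]
      exact psh_dep _) hM (fun ω hω => by
      rw [hQe]
      exact hRM ω hω)
    refine ⟨B'', k1, by linarith, fun ω hω z hz => ?_⟩
    have hωB := hB' ω (k1 ω hω)
    have h1 := hgro (20 * a) (hRd ω (k1 ω hω)) (M := 2 ^ h * M) (fun z hz => by
      obtain ⟨b, hb⟩ : ∃ b : Option (Fin m) → ℝ, b = afp c (afr F c w P G ω) (w 0) (s 0) (s 1) 0
        (fun i => aC F c w s P G k ω i + rk a w k * z i) := ⟨_, rfl⟩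
      have hbe : ∀ i, afc c (afr F c w P G ω) (w 0) (s 0) (s 1) b i =
          aC F c w s P G k ω i + rk a w k * z i := fun i => by
        rw [hb, afc_afp W.hc]
      have hbx := (hB k hk ω hωB).inn b fun i => by
        rw [hbe, add_sub_cancel_left, abs_mul, abs_of_pos hrk]
        refine (mul_le_mul_of_nonneg_left (hz i) hrk.le).trans (le_of_eq ?_)
        unfold rk
        have e1 : (2 : ℝ) ^ (20 * a) = 2 ^ (8 * a) * 2 ^ (12 * a) := by
          rw [← pow_add]
          congr 1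
          ring
        rw [e1]
        field_simp
      have h2 := k3 ω hω b hbx
      rw [hQe] at h2
      have e2 : (fun i => (afc c (afr F c w P G ω) (w 0) (s 0) (s 1) b i -
          aC F c w s P G k ω i) / rk a w k) = z := by
        funext i
        rw [hbe]
        field_simp
        ring
      rwa [e2] at h2) z hz
    refine h1.trans ?_
    have e1 : (2 : ℝ) ^ (h + 20 * a * D + c₁) * M = 2 ^ c₁ * 2 ^ (20 * a * D) * (2 ^ h * M) := by
      rw [pow_add, pow_add]
      ring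
    rw [e1]
    exact mul_le_mul_of_nonneg_right (mul_le_mul_of_nonneg_right hc₁.le (by positivity))
      (by positivity)

end Pool.AFF82
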