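import Pool.Agent.H82.CNC.Xev
import Pool.Agent.H73.D2.Tme
import Pool.Agent.H87.GEN.Nod
import Pool.Agent.H42.D2.Nho

/-!
# The affine frame on the windows `WG`

`wg_frn`: the data of the frame. `wg_afd`: the data of the affine frame.
-/

set_option autoImplicit false

namespace Pool.AFF82

open Finset Real MvPolynomial
open Pool.Agent.H49.Ent Pool.Agent.H32.Dense Pool.STK
open Pool.KA Pool.KSAT Pool.K2S Pool.PB Pool.S6C Pool.GEN Pool.D2R Pool.ISO Pool.CHT Pool.CHX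
open Pool.V1E Pool.NHN Pool.D2G30 Pool.CNC76
open Pool.CR99 (dv_ptw)
open Pool.SHR (relvF_low)
open Pool.PB.Trl (rt rt_mem t_rt)
open Pool.D2Con (NoHyp law_mono')

/-- The three windows of the frame. -/
def fi3 (iF iB iQ k : ℕ) : ℕ := if k = 0 then iF else if k = 1 then iB else iQ

section wg

variable {m J : ℕ} {c : ℕ → Fin m} {r D Dr N N₂ : ℕ} {R : ℕ → Prop} {C a Eb ε₀ η₀ : ℝ}
  {Pt : ℝ → ℝ → ℝ} {o : ℕ → ℝ} {lv be : ℕ → ℕ → ℝ} {F : Fam m J} {b : ℕ → ℕ → ℝ} {κ : ℝ}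
  {z : ℕ → ℕ → ℕ} {B : F.Ω → Prop} {gc gT g₀ : ℕ → ℕ → ℕ}
  {G : ℕ → PtT F → ℕ → MvPolynomial (Option (Fin m)) ℝ}
  {H : ℕ → LnT F → ℕ → MvPolynomial (Option (Fin m)) ℝ}
  {T : ℕ → PtT F → ℕ → MvPolynomial (Option (Fin m)) ℝ}
  {TH : ℕ → LnT F → ℕ → MvPolynomial (Option (Fin m)) ℝ}
  {Gt : ℕ → PtT F → MvPolynomial (Option (Fin m)) ℝ}
  {Ht : ℕ → LnT F → MvPolynomial (Option (Fin m)) ℝ}

/-- **The data of the frame.** -/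
theorem wg_frn (W : WG c r D Dr N N₂ R C a Eb ε₀ η₀ Pt o lv be F b κ z B gc gT g₀ G H T TH Gt Ht)
    (hr : 2 ≤ r) (hc : Set.InjOn c (Set.Iio (r + 1))) {iF iB iQ x MB q₀ Q e : ℕ} (hF : iF ≤ N₂)
    (hB : iB ≤ N₂) (hQ : iQ ≤ N₂) (hFQ : o iF + η₀ ≤ o iQ)
    (h1 : ⌊o iB * J⌋₊ = ⌊o iF * J⌋₊ + q₀) (h2 : ⌊o iQ * J⌋₊ = ⌊o iB * J⌋₊ + Q)
    (hJ : ⌊o iQ * J⌋₊ ≤ J) (hx : ⌊C * (η₀ * J)⌋₊ + 1 ≤ x) (he : e = ⌊(Eb + η₀ + η₀) * J⌋₊)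
    (n0 : ∀ j < 2, g₀ iB j ≤ g₀ iF j + q₀ + x) (n2b : ∀ j < 2, g₀ iB j + Q ≤ g₀ iQ j + x)
    (n2c : ∀ j < 2, g₀ iQ j ≤ ⌊b iF j * J⌋₊ + (q₀ + Q) + x)
    (n2d : ∀ j < 2, ⌊b iF j * J⌋₊ + (q₀ + Q) ≤ g₀ iB j + Q + x) (hM : MB + Q ≤ q₀) :
    FrN F c 2 D MB q₀ Q x x e (g₀ iB) (fun _ => MB + Q) (fun k => ⌊o (fi3 iF iB iQ k) * J⌋₊)
      (fun k l => ⌊b (fi3 iF iB iQ k) l * J⌋₊) (fun k => g₀ (fi3 iF iB iQ k)) B
      (fun k => G (fi3 iF iB iQ k)) (fun k => H (fi3 iF iB iQ k)) := by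
  have hfi : ∀ k, fi3 iF iB iQ k ≤ N₂ := by
    intro k
    unfold fi3
    split_ifs <;> assumption
  have hb := fun k => (W.wb.ev (fi3 iF iB iQ k) (hfi k)).ball
  have hz := W.zz iF hF iQ hQ hFQ
  have hrad := (W.wb.ev iF hF).rad iQ hQ
  have hsub : ⌊o iQ * J⌋₊ - ⌊o iF * J⌋₊ = q₀ + Q := by omega
  exact
    { hc := hc.mono (Set.Iio_subset_Iio (by omega))
      o1 := h1
      o2 := h2
      o3 := le_rfl
      oJ := hJ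
      dG := fun k => (hb k).degG
      pG := fun k => (hb k).depG
      dH := fun k => (hb k).degH
      cl0 := fun ω hω l hl => (W.wb.ev iF hF).cls ω hω l (by omega)
      own0 := fun ω hω l hl τ hτ => (W.own iF hF ω hω l (by omega) τ hτ).trans
        (div_le_div_of_nonneg_right (pow_le_pow_right₀ (by norm_num) hx) (by positivity))
      n0 := n0
      n2b := n2b
      n2c := fun j hj => by
        show g₀ iQ j ≤ ⌊b iF j * J⌋₊ + (⌊o iQ * J⌋₊ - ⌊o iF * J⌋₊) + x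
        rw [hsub]
        exact n2c j hj
      n2d := fun j hj => by
        show ⌊b iF j * J⌋₊ + (⌊o iQ * J⌋₊ - ⌊o iF * J⌋₊) ≤ g₀ iB j + Q + x
        rw [hsub]
        exact n2d j hj
      q0M := hM
      qeM := fun _ => le_rfl
      rad0 := by
        have h4 : ⌊o iF * J⌋₊ + z iF iQ = ⌊o iQ * J⌋₊ := by
          rw [hz]
          omega
        rw [h4, hz, ← he] at hrad
        exact ⟨hrad.degG, hrad.degH, hrad.depG, hrad.depH, fun ω hω l hl => hrad.pos ω hω l (by omega),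
          fun ω hω l hl => hrad.agr ω hω l (by omega), fun ω hω l hl => hrad.lip ω hω l (by omega)⟩ }

/-- **The data of the affine frame.** -/
theorem wg_afd (W : WG c r D Dr N N₂ R C a Eb ε₀ η₀ Pt o lv be F b κ z B gc gT g₀ G H T TH Gt Ht)
    (hr : 2 ≤ r) (hc : Set.InjOn c (Set.Iio (r + 1))) {iF n x y gx : ℕ} {ix : ℕ → ℕ} {θ : ℝ}
    {B' : F.Ω → Prop} (hB : Sub B' B) (hF : iF ≤ N₂) (hix : ∀ k ≤ n, ix k ≤ N₂)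
    (hFo : ∀ k ≤ n, o iF + η₀ ≤ o (ix k)) (hFJ : ⌊o iF * J⌋₊ ≤ ⌊o (ix 0) * J⌋₊)
    (how : ∀ k ≤ n, ⌊o (ix 0) * J⌋₊ ≤ ⌊o (ix k) * J⌋₊ ∧ ⌊o (ix k) * J⌋₊ ≤ J)
    (hx : ⌊C * (η₀ * J)⌋₊ + 1 ≤ x)
    (lv1 : ∀ k ≤ n, ∀ l < 2, g₀ (ix 0) l + (⌊o (ix k) * J⌋₊ - ⌊o (ix 0) * J⌋₊) ≤ g₀ (ix k) l + x)
    (lv2 : ∀ k ≤ n, ∀ l < 2, g₀ (ix k) l ≤ g₀ (ix 0) l + (⌊o (ix k) * J⌋₊ - ⌊o (ix 0) * J⌋₊) + x)
    (lf : ∀ l < 2, g₀ (ix 0) l + ⌊o iF * J⌋₊ ≤ g₀ iF l + ⌊o (ix 0) * J⌋₊ + x)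
    (hbal : ∀ k ≤ n, g₀ (ix k) 1 + ⌊C * (η₀ * J)⌋₊ ≤
      ⌊b iF 1 * J⌋₊ + (⌊o (ix k) * J⌋₊ - ⌊o iF * J⌋₊) + x)
    (gx1 : gx + x + 2 ≤ g₀ (ix 0) 0) (th0 : 0 ≤ θ) (th : 2 ^ g₀ (ix 0) 1 * θ ≤ 1 / 2 ^ y)
    (hflat : ∀ ω, B' ω → flW F c ⌊o (ix 0) * J⌋₊ (g₀ (ix 0) 0) gx (G iF) (G (ix 0)) ω ≤ θ) :
    AfD F c D n ⌊o iF * J⌋₊ x y (fun k => ⌊o (ix k) * J⌋₊) (g₀ (ix 0)) (g₀ iF)
      (fun k => g₀ (ix k)) gx θ B' (G iF) (H iF) (fun k => G (ix k)) (fun k => H (ix k)) := by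
  have hown : ∀ i ≤ N₂, ⌊o i * J⌋₊ ≤ J → ∀ ω, B' ω → ∀ l < 2, ∀ τ ∈ Set.Icc (0 : ℝ) 1,
      |ptw F ⌊o i * J⌋₊ ω τ (some (c l)) - eval (ptw F ⌊o i * J⌋₊ ω τ) (G i (ptr F J ω) l)| ≤
        2 ^ x / 2 ^ g₀ i l := by
    intro i hi _ ω hω l hl τ hτ
    have h1 := W.own i hi ω (hB ω hω) l (by omega) τ hτ
    rw [dv_ptw ω (fun s => H i s l), ← (W.wb.ev i hi).cls ω (hB ω hω) l (by omega)] at h1
    exact h1.trans (div_le_div_of_nonneg_right (pow_le_pow_right₀ (by norm_num) hx) (by positivity))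
  exact
    { hc := hc.mono (Set.Iio_subset_Iio (by omega))
      fo := hFJ
      ow := fun k hk => (how k hk).1
      wJ := fun k hk => (how k hk).2
      dP := (W.wb.ev iF hF).ball.degG
      dG := fun k hk => (W.wb.ev (ix k) (hix k hk)).ball.degG
      pP := (W.wb.ev iF hF).ball.depG
      pG := fun k hk => (W.wb.ev (ix k) (hix k hk)).ball.depG
      clP := fun ω hω l hl => (W.wb.ev iF hF).cls ω (hB ω hω) l (by omega)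
      clG := fun k hk ω hω l hl => (W.wb.ev (ix k) (hix k hk)).cls ω (hB ω hω) l (by omega)
      ownP := hown iF hF (hFJ.trans (how 0 (Nat.zero_le _)).2)
      ownG := fun k hk => hown (ix k) (hix k hk) (how k hk).2
      pos := fun k hk ω hω l hl =>
        (W.wb.ev (ix k) (hix k hk)).ball.pos ω (hB ω hω) l (by omega)
      bal := fun k hk ω hω b' hb' => by
        have h1 := W.wb.bal iF hF (ix k) (hix k hk) (ix k) (hix k hk)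
          (hFJ.trans (how k hk).1) (W.zz iF hF (ix k) (hix k hk) (hFo k hk)) ω (hB ω hω) 1
          (by omega) b' hb'
        refine h1.trans ?_
        rw [div_le_div_iff₀ (by positivity) (by positivity), ← pow_add, ← pow_add]
        refine pow_le_pow_right₀ (by norm_num) ?_
        have h2 := hbal k hk
        rw [Nat.add_comm x]
        rcases min_cases (⌊b iF 1 * J⌋₊ + (⌊o (ix k) * J⌋₊ - ⌊o iF * J⌋₊)) (g₀ (ix k) 1) with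
          ⟨h3, -⟩ | ⟨h3, -⟩
        · rw [h3]
          show ⌊C * (η₀ * J)⌋₊ + g₀ (ix k) 1 ≤ _
          omega
        · rw [h3]
          show ⌊C * (η₀ * J)⌋₊ + g₀ (ix k) 1 ≤ _
          omega
      lv1 := lv1
      lv2 := lv2
      lf := lf
      gx1 := gx1
      th0 := th0
      th := th
      flat := hflat }

end wg

/-- **The direction is the code of the velocity.** -/
theorem ax_near {m J : ℕ} {F : Fam m J} {c : ℕ → Fin m} {D MB q₀ Q x u e n y' a : ℕ}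
    {s : ℕ → ℕ} {qe : Fin 2 → ℕ} {o : ℕ → ℕ} {g g₀ : ℕ → ℕ → ℕ} {B B' : F.Ω → Prop}
    {G : ℕ → PtT F → ℕ → MvPolynomial (Option (Fin m)) ℝ}
    {H : ℕ → LnT F → ℕ → MvPolynomial (Option (Fin m)) ℝ} {w : ℕ → ℕ} {gk : ℕ → ℕ → ℕ}
    {P : PtT F → ℕ → MvPolynomial (Option (Fin m)) ℝ}
    {Gk : ℕ → PtT F → ℕ → MvPolynomial (Option (Fin m)) ℝ}
    (W : FrN F c 2 D MB q₀ Q x u e s qe o g g₀ B G H) (hP : P = G 0) (hw : w 0 = o 1)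
    (E : ∀ ω, B' ω → AfE F c n a y' w s gk P Gk ω) (hB : Sub B' B) {ω : F.Ω} (hω : B' ω)
    (i : Fin 3) : |aX F c w s P Gk ω i - XE F c s qe q₀ (o 1) (H 0) ω i| ≤
      1 / 2 ^ y' + 1 / 2 ^ (MB + Q) := by
  obtain ⟨x0, x1, x2⟩ := xe_near W (hB ω hω)
  have hE := E ω hω
  have hqe : ∀ i, (1 : ℝ) / 2 ^ qe i ≤ 1 / 2 ^ (MB + Q) := fun i =>
    one_div_le_one_div_of_le (by positivity) (pow_le_pow_right₀ (by norm_num) (W.qeM i))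
  have hy0 : (0 : ℝ) ≤ 1 / 2 ^ y' := by positivity
  have hM0 : (0 : ℝ) ≤ 1 / 2 ^ (MB + Q) := by positivity
  fin_cases i
  · show |aX F c w s P Gk ω 0 - XE F c s qe q₀ (o 1) (H 0) ω 0| ≤ _
    have e1 : aX F c w s P Gk ω 0 = bd F ω none := rfl
    have e2 : bd F ω none = 1 := rfl
    rw [x0, e1, e2, sub_self, abs_zero]
    positivity
  · show |aX F c w s P Gk ω 1 - XE F c s qe q₀ (o 1) (H 0) ω 1| ≤ _
    have e1 : (afr F c w P Gk ω).a0 = dd (G 0 (ptr F J ω) 0)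
        (oln F ω (tmc (o 1) (slam F (o 1) ω).2.2)) (bd F ω) := by
      rw [dd_alp (W.pG 0 _ 0), ← hP, ← hw]
      rfl
    rw [aX1_eq, e1, hw, abs_sub_comm]
    refine x1.trans ((hqe 0).trans (by linarith))
  · show |aX F c w s P Gk ω 2 - XE F c s qe q₀ (o 1) (H 0) ω 2| ≤ _
    have h1 := hE.Xv
    rw [hw, hP] at h1
    rw [hP]
    refine (abs_sub_le _ _ _).trans (add_le_add h1 ?_)
    rw [abs_sub_comm]
    exact x2.trans (hqe 1)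

/-- **The affine frame on the windows `WG`**, from the record of the base. -/
theorem wg_box (D Dr : ℕ) (hDr : D ≤ Dr) : ∃ C₀ c₀ D₁ : ℕ, 4 ≤ c₀ ∧
    ∀ {m J : ℕ} {c : ℕ → Fin m} {r N N₂ : ℕ} {R : ℕ → Prop} {C a Eb ε₀ η₀ : ℝ}
    {Pt : ℝ → ℝ → ℝ} {o : ℕ → ℝ} {lv be : ℕ → ℕ → ℝ} {F : Fam m J} {b : ℕ → ℕ → ℝ} {κ : ℝ}
    {z : ℕ → ℕ → ℕ} {B : F.Ω → Prop} {gc gT g₀ : ℕ → ℕ → ℕ}
    {G : ℕ → PtT F → ℕ → MvPolynomial (Option (Fin m)) ℝ}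
    {H : ℕ → LnT F → ℕ → MvPolynomial (Option (Fin m)) ℝ}
    {T : ℕ → PtT F → ℕ → MvPolynomial (Option (Fin m)) ℝ}
    {TH : ℕ → LnT F → ℕ → MvPolynomial (Option (Fin m)) ℝ}
    {Gt : ℕ → PtT F → MvPolynomial (Option (Fin m)) ℝ}
    {Ht : ℕ → LnT F → MvPolynomial (Option (Fin m)) ℝ},
    WG c r D Dr N N₂ R C a Eb ε₀ η₀ Pt o lv be F b κ z B gc gT g₀ G H T TH Gt Ht →
    2 ≤ r → Set.InjOn c (Set.Iio (r + 1)) → 0 < Pe F.p B → κ ≤ 1 / 16 →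
    ∀ {iF iQ n x MB q₀ Q e Λ Z y y' a' : ℕ} {ix : ℕ → ℕ} {c' : ℝ},
    FrN F c 2 D MB q₀ Q x x e (g₀ (ix 0)) (fun _ => MB + Q)
      (fun k => ⌊o (fi3 iF (ix 0) iQ k) * J⌋₊) (fun k l => ⌊b (fi3 iF (ix 0) iQ k) l * J⌋₊)
      (fun k => g₀ (fi3 iF (ix 0) iQ k)) B (fun k => G (fi3 iF (ix 0) iQ k))
      (fun k => H (fi3 iF (ix 0) iQ k)) →
    iF ≤ N₂ → (∀ k ≤ n, ix k ≤ N₂) → (∀ k ≤ n, o iF + η₀ ≤ o (ix k)) →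
    ⌊o (ix 0) * J⌋₊ = ⌊o iF * J⌋₊ + q₀ →
    (∀ k ≤ n, ⌊o (ix 0) * J⌋₊ ≤ ⌊o (ix k) * J⌋₊ ∧ ⌊o (ix k) * J⌋₊ ≤ J) →
    ⌊C * (η₀ * J)⌋₊ + 1 ≤ x →
    (∀ k ≤ n, ∀ l < 2, g₀ (ix 0) l + (⌊o (ix k) * J⌋₊ - ⌊o (ix 0) * J⌋₊) ≤ g₀ (ix k) l + x) →
    (∀ k ≤ n, ∀ l < 2, g₀ (ix k) l ≤ g₀ (ix 0) l + (⌊o (ix k) * J⌋₊ - ⌊o (ix 0) * J⌋₊) + x) →
    (∀ k ≤ n, g₀ (ix k) 1 + ⌊C * (η₀ * J)⌋₊ ≤
      ⌊b iF 1 * J⌋₊ + (⌊o (ix k) * J⌋₊ - ⌊o iF * J⌋₊) + x) →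
    x + 2 ≤ g₀ (ix 0) 0 →
    NoHyp (Pool.Agent.H49.Ent.cond F.p B True)
      (XE F c (g₀ (ix 0)) (fun _ => MB + Q) q₀ ⌊o (ix 0) * J⌋₊ (H iF))
      (flz F c (g₀ (ix 0) 0) Q (G iF) (G (ix 0))) (1 / 2 ^ Λ) c' → c' ≤ 1 / 8 →
    Z = C₀ * (x + x + 1) + (⌊η₀ * J⌋₊ + (c₀ + (x + 2) * D₁)) + 2 * Λ → Z ≤ Q →
    y + x + Z ≤ q₀ → a' = c₀ + x → (4 * D + 8) * a' + y' ≤ y →
    ∃ (B' : F.Ω → Prop) (θ : ℝ), Sub B' B ∧ Pe F.p B / 2 ≤ Pe F.p B' ∧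
      AfD F c D n ⌊o iF * J⌋₊ x y (fun k => ⌊o (ix k) * J⌋₊) (g₀ (ix 0)) (g₀ iF)
        (fun k => g₀ (ix k)) (g₀ (ix 0) 0 - (x + 2)) θ B' (G iF) (H iF) (fun k => G (ix k))
        (fun k => H (ix k)) ∧
      ∀ ω, B' ω → AfE F c n a' y' (fun k => ⌊o (ix k) * J⌋₊) (g₀ (ix 0)) (fun k => g₀ (ix k))
        (G iF) (fun k => G (ix k)) ω ∧ ∀ k ≤ n, AfB F c a' (fun k => ⌊o (ix k) * J⌋₊)
          (g₀ (ix 0)) (fun k => g₀ (ix k)) (G iF) (fun k => G (ix k)) k ω := by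
  obtain ⟨C₀, hflt⟩ := flt_frn D
  obtain ⟨c₁, hc₁, hbox⟩ := afd_box D
  obtain ⟨c₂, D₁, hdil⟩ := relvF_dil 1 Dr
  refine ⟨C₀, c₁ + c₂, D₁, by omega, ?_⟩
  intro m J c r N N₂ R C a Eb ε₀ η₀ Pt o lv be F b κ z B gc gT g₀ G H T TH Gt Ht W hr hc hPB hκ iF
    iQ n x MB q₀ Q e Λ Z y y' a' ix c' FN hF hix hFo h1 how hx lv1 lv2 hbal hx2 hnh hc' hZ hZQ hyZ
    ha hy'
  have h0 := hix 0 (Nat.zero_le _)
  have Wb := W.wb.ev (ix 0) h0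
  have hc1 : Set.InjOn c (Set.Iio 1) := hc.mono (Set.Iio_subset_Iio (by omega))
  obtain ⟨gx, hgx⟩ : ∃ gx, gx = g₀ (ix 0) 0 - (x + 2) := ⟨_, rfl⟩
  have hrel : RelvF F c 1 ⌊o (ix 0) * J⌋₊ ⌊o (ix 0) * J⌋₊ (fun _ => gx) D
      (⌊η₀ * J⌋₊ + (c₁ + c₂ + (x + 2) * D₁)) κ B (G (ix 0)) := by
    have k1 := relvF_low Wb.relb (by omega : 1 ≤ r) (hc.mono (Set.Iio_subset_Iio (by omega)))
      Wb.ball.depG
    have k2 := hdil (g' := fun _ => gx) (n := x + 2) k1 hc1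
      (fun y l => (Wb.ball.degG y l).trans hDr) Wb.ball.depG (fun l hl => by
        have : l = 0 := by omega
        subst this
        show gx ≤ g₀ (ix 0) 0 ∧ g₀ (ix 0) 0 ≤ gx + (x + 2)
        omega)
    exact relvF_exp (k2.mono hDr le_rfl) (by omega)
  obtain ⟨B', hB', hPB', hfl⟩ := hflt (Gb := G (ix 0)) (GbH := H (ix 0)) (gx := gx)
    (h := ⌊η₀ * J⌋₊ + (c₁ + c₂ + (x + 2) * D₁)) (Λ := Λ) (Z := Z) (κ := κ) (c₀ := c') FN hPB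
    (fun y => Wb.ball.depG y 0) (fun ω hω => Wb.cls ω hω 0 (by omega)) (fun ω hω =>
      (Wb.ball.pos ω hω 0 (by omega)).trans (one_div_le_one_div_of_le (by positivity)
        (pow_le_pow_right₀ (by norm_num) (by omega)))) hrel hκ hc' hnh (by omega) hZ hZQ
  obtain ⟨θ, hθ⟩ : ∃ θ : ℝ, θ = 2 ^ Z / 2 ^ (g₀ iF 1 + 2 * (⌊o (ix 0) * J⌋₊ - ⌊o iF * J⌋₊)) :=
    ⟨_, rfl⟩
  have hn0 := FN.n0
  have hn01 : ∀ l < 2, g₀ (ix 0) l ≤ g₀ iF l + q₀ + x := hn0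
  have hD := wg_afd W hr hc (iF := iF) (n := n) (x := x) (y := y) (gx := gx) (ix := ix) (θ := θ)
    (B' := B') hB' hF hix hFo (by omega) how hx lv1 lv2 (fun l hl => by
      have := hn01 l hl
      omega) hbal (by omega) (by
      rw [hθ]
      positivity) (by
      rw [hθ, ← mul_div_assoc, ← pow_add, div_le_div_iff₀ (by positivity) (by positivity),
        one_mul, ← pow_add]
      refine pow_le_pow_right₀ (by norm_num) ?_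
      have := hn01 1 (by norm_num)
      omega) (fun ω hω => by
      rw [hθ]
      exact hfl ω hω)
  refine ⟨B', θ, hB', hPB', ?_, fun ω hω => hbox (a := a') (y' := y') hD (by omega) hy' ω hω⟩
  rw [← hgx]
  exact hD

/-- **The balls of the windows**, from `NoHyp` of the code of the velocity. -/
theorem wg_bll (DB Dr : ℕ) (hDB : DB ≤ Dr) : ∃ c₁ : ℕ,
    ∀ {m J : ℕ} {c : ℕ → Fin m} {r D N N₂ : ℕ} {R : ℕ → Prop} {C a Eb ε₀ η₀ : ℝ}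
    {Pt : ℝ → ℝ → ℝ} {o : ℕ → ℝ} {lv be : ℕ → ℕ → ℝ} {F : Fam m J} {b : ℕ → ℕ → ℝ} {κ : ℝ}
    {z : ℕ → ℕ → ℕ} {B : F.Ω → Prop} {gc gT g₀ : ℕ → ℕ → ℕ}
    {G : ℕ → PtT F → ℕ → MvPolynomial (Option (Fin m)) ℝ}
    {H : ℕ → LnT F → ℕ → MvPolynomial (Option (Fin m)) ℝ}
    {T : ℕ → PtT F → ℕ → MvPolynomial (Option (Fin m)) ℝ}
    {TH : ℕ → LnT F → ℕ → MvPolynomial (Option (Fin m)) ℝ}
    {Gt : ℕ → PtT F → MvPolynomial (Option (Fin m)) ℝ}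
    {Ht : ℕ → LnT F → MvPolynomial (Option (Fin m)) ℝ},
    WG c r D Dr N N₂ R C a Eb ε₀ η₀ Pt o lv be F b κ z B gc gT g₀ G H T TH Gt Ht →
    2 ≤ r → Set.InjOn c (Set.Iio (r + 1)) → 0 < Pe F.p B →
    ∀ {iF iQ n x y MB q₀ Q e y' a' N₀ gx : ℕ} {ix : ℕ → ℕ} {θ κ' c'' : ℝ} {B' : F.Ω → Prop},
    FrN F c 2 D MB q₀ Q x x e (g₀ (ix 0)) (fun _ => MB + Q)
      (fun k => ⌊o (fi3 iF (ix 0) iQ k) * J⌋₊) (fun k l => ⌊b (fi3 iF (ix 0) iQ k) l * J⌋₊)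
      (fun k => g₀ (fi3 iF (ix 0) iQ k)) B (fun k => G (fi3 iF (ix 0) iQ k))
      (fun k => H (fi3 iF (ix 0) iQ k)) →
    (∀ k ≤ n, ix k ≤ N₂) → Sub B' B → Pe F.p B / 2 ≤ Pe F.p B' →
    AfD F c D n ⌊o iF * J⌋₊ x y (fun k => ⌊o (ix k) * J⌋₊) (g₀ (ix 0)) (g₀ iF)
      (fun k => g₀ (ix k)) gx θ B' (G iF) (H iF) (fun k => G (ix k)) (fun k => H (ix k)) →
    (∀ ω, B' ω → AfE F c n a' y' (fun k => ⌊o (ix k) * J⌋₊) (g₀ (ix 0)) (fun k => g₀ (ix k))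
      (G iF) (fun k => G (ix k)) ω ∧ ∀ k ≤ n, AfB F c a' (fun k => ⌊o (ix k) * J⌋₊)
        (g₀ (ix 0)) (fun k => g₀ (ix k)) (G iF) (fun k => G (ix k)) k ω) →
    0 ≤ κ' → 2 * κ ≤ κ' → N₀ + 3 ≤ y' → N₀ + 3 ≤ MB + Q →
    (∀ B'' : F.Ω → Prop, (∀ ω, B'' ω → B' ω) → κ' * Pe F.p B' ≤ Pe F.p B'' →
      ∀ {ζ : Type} (Z : F.Ω → ζ), Clo B'' (fun ω => ptr F J ω) (slam F ⌊o (ix n) * J⌋₊) Z →
      NoHyp (Pool.Agent.H49.Ent.cond F.p B'' True)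
        (XE F c (g₀ (ix 0)) (fun _ => MB + Q) q₀ ⌊o (ix 0) * J⌋₊ (H iF)) Z (1 / 2 ^ N₀) c'') →
    ∀ k ≤ n, ⌊o (ix k) * J⌋₊ ≤ ⌊o (ix n) * J⌋₊ →
      Bll F.p B' (fun ω => ptr F J ω) (slam F ⌊o (ix k) * J⌋₊) (slam F ⌊o (ix n) * J⌋₊)
        (unt (aY F c (fun k => ⌊o (ix k) * J⌋₊) (g₀ (ix 0)) (G iF) (fun k => G (ix k)))
          (aC F c (fun k => ⌊o (ix k) * J⌋₊) (g₀ (ix 0)) (G iF) (fun k => G (ix k)) k)
          (rk a' (fun k => ⌊o (ix k) * J⌋₊) k))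
        (unt (aC F c (fun k => ⌊o (ix k) * J⌋₊) (g₀ (ix 0)) (G iF) (fun k => G (ix k)) n)
          (aC F c (fun k => ⌊o (ix k) * J⌋₊) (g₀ (ix 0)) (G iF) (fun k => G (ix k)) k)
          (rk a' (fun k => ⌊o (ix k) * J⌋₊) k))
        (aX F c (fun k => ⌊o (ix k) * J⌋₊) (g₀ (ix 0)) (G iF) (fun k => G (ix k))) DB
        (⌊η₀ * J⌋₊ + 20 * a' * DB + c₁) (⌊o (ix n) * J⌋₊ - ⌊o (ix k) * J⌋₊) κ'
        (1 / 2 ^ (N₀ + 2)) c'' (2 ^ (3 * a')) := by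
  obtain ⟨c₁, hbll⟩ := afb_bll DB
  refine ⟨c₁, ?_⟩
  intro m J c r D N N₂ R C a Eb ε₀ η₀ Pt o lv be F b κ z B gc gT g₀ G H T TH Gt Ht W hr hc hPB iF
    iQ n x y MB q₀ Q e y' a' N₀ gx ix θ κ' c'' B' FN hix hB' hPB' hD hEB hκ0 hκ hy' hMQ hnh k hk
    hkn
  have Wb := W.wb.ev (ix k) (hix k hk)
  have hPB'0 : 0 < Pe F.p B' := by linarith
  have hrel : RelvF F c 2 ⌊o (ix k) * J⌋₊ ⌊o (ix k) * J⌋₊ (g₀ (ix k)) Dr ⌊η₀ * J⌋₊ κ' B'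
      (G (ix k)) := by
    have k1 := relvF_low Wb.relb hr (hc.mono (Set.Iio_subset_Iio (by omega))) Wb.ball.depG
    exact k1.sub hB' (κ₁ := 1 / 2) (by linarith) hκ0 (by linarith)
  refine hbll hD (fun ω hω => (hEB ω hω).1) (fun k hk ω hω => (hEB ω hω).2 k hk) hk le_rfl hkn hκ0
    hPB'0 hrel hDB fun B'' hB'' hP'' ζ Z hZ => ?_
  refine nohyp_near (fun ω => (cond_nonneg F.isLaw.nonneg B'' True ω))
    (hnh B'' hB'' hP'' Z hZ) (δ := 1 / 2 ^ y' + 1 / 2 ^ (MB + Q)) (fun ω hω i => ?_) ?_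
  · have h1 : B'' ω := of_eq_true ((cond_pos_iff F.isLaw.nonneg B'' True ω).1 hω).2
    exact ax_near FN rfl rfl (fun ω hω => (hEB ω hω).1) hB' (hB'' ω h1) i
  · have h1 : (1 : ℝ) / 2 ^ y' ≤ 1 / 2 ^ (N₀ + 3) :=
      one_div_le_one_div_of_le (by positivity) (pow_le_pow_right₀ (by norm_num) hy')
    have h2 : (1 : ℝ) / 2 ^ (MB + Q) ≤ 1 / 2 ^ (N₀ + 3) :=
      one_div_le_one_div_of_le (by positivity) (pow_le_pow_right₀ (by norm_num) hMQ)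
    have e1 : (1 : ℝ) / 2 ^ (N₀ + 3) = 1 / 2 ^ N₀ / 8 := by
      rw [pow_add]
      field_simp
      norm_num
    have e2 : (1 : ℝ) / 2 ^ (N₀ + 2) = 1 / 2 ^ N₀ / 4 := by
      rw [pow_add]
      field_simp
      norm_num
    rw [e1] at h1 h2
    rw [e2]
    linarith

end Pool.AFF82
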