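import Pool.Agent.H23.D2.Gen

/-!
# Affine frames

`aft P p`: the affine part of the polynomial `P` at the point `p`. `aft_tay`: Taylor. `dpl V Q`: the
derivative of `Q` in the constant direction `V`, as a polynomial. `own_der`: the derivatives of the
own path.
-/

set_option autoImplicit false

namespace Pool.AFF82

open Finset Real MvPolynomial
open Pool.KA Pool.KSAT Pool.PB Pool.GEN Pool.D2R Pool.ISO Pool.CHT Pool.CHX
open Pool.PB.Trl (rt rt_mem t_rt)

variable {m : ℕ}

/-- **The affine part** of `P` at `p`. -/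
noncomputable def aft (P : MvPolynomial (Option (Fin m)) ℝ) (p : Option (Fin m) → ℝ) :
    MvPolynomial (Option (Fin m)) ℝ :=
  C (eval p P) + ∑ o, C (eval p (pderiv o P)) * (X o - C (p o))

theorem eval_aft (P : MvPolynomial (Option (Fin m)) ℝ) (p b : Option (Fin m) → ℝ) :
    eval b (aft P p) = eval p P + dd P p (fun o => b o - p o) := by
  unfold aft dd
  rw [map_add, map_sum, eval_C]
  congr 1
  refine Finset.sum_congr rfl fun o _ => ?_
  rw [map_mul, map_sub, eval_C, eval_C, eval_X]

theorem aft_deg (P : MvPolynomial (Option (Fin m)) ℝ) (p : Option (Fin m) → ℝ) :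
    (aft P p).totalDegree ≤ 1 := by
  unfold aft
  refine (totalDegree_add _ _).trans (max_le (by rw [totalDegree_C]; exact Nat.zero_le _) ?_)
  refine totalDegree_finsetSum_le fun o _ => ?_
  refine (totalDegree_mul _ _).trans ?_
  rw [totalDegree_C, zero_add]
  refine (totalDegree_sub _ _).trans (max_le (by rw [totalDegree_X]) ?_)
  rw [totalDegree_C]
  exact Nat.zero_le _

theorem aft_dep {c : ℕ → Fin m} {i : ℕ} {P : MvPolynomial (Option (Fin m)) ℝ}
    (hP : DepC c i P) (p : Option (Fin m) → ℝ) : DepC c i (aft P p) := by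
  intro b b' hn hb
  rw [eval_aft, eval_aft]
  congr 1
  refine dd_congr hP p ?_ fun l hl => ?_
  · show b none - p none = b' none - p none
    rw [hn]
  · show b (some (c l)) - p (some (c l)) = b' (some (c l)) - p (some (c l))
    rw [hb l hl]

/-- The derivative of the affine part. -/
theorem dd_aft (P : MvPolynomial (Option (Fin m)) ℝ) (p x V : Option (Fin m) → ℝ) :
    dd (aft P p) x V = dd P p V := by
  classical
  unfold dd
  refine Finset.sum_congr rfl fun o _ => ?_
  congr 1
  unfold aft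
  rw [map_add, pderiv_C, zero_add, map_sum, map_sum, Finset.sum_eq_single o]
  · rw [pderiv_mul, pderiv_C, zero_mul, zero_add, map_sub, pderiv_C, sub_zero, pderiv_X_self,
      mul_one, eval_C]
  · intro o' _ ho'
    rw [pderiv_mul, pderiv_C, zero_mul, zero_add, map_sub, pderiv_C, sub_zero,
      pderiv_X_of_ne ho', mul_zero, map_zero]
  · intro h
    exact absurd (Finset.mem_univ _) h

/-- The second derivative of the affine part. -/
theorem hs_aft (P : MvPolynomial (Option (Fin m)) ℝ) (p x V W : Option (Fin m) → ℝ) :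
    hs (aft P p) x V W = 0 := by
  have h1 : ∀ o, ∀ y : Option (Fin m) → ℝ, eval y (pderiv o (aft P p)) =
      eval x (pderiv o (aft P p)) := by
    classical
    intro o y
    have e1 : ∀ y : Option (Fin m) → ℝ, eval y (pderiv o (aft P p)) =
        dd (aft P p) y (fun o' => if o' = o then 1 else 0) := fun y => by
      unfold dd
      rw [Finset.sum_eq_single o]
      · show _ = _ * (if o = o then (1 : ℝ) else 0)
        rw [if_pos rfl, mul_one]
      · intro o' _ ho'
        show _ * (if o' = o then (1 : ℝ) else 0) = 0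
        rw [if_neg ho', mul_zero]
      · intro h
        exact absurd (Finset.mem_univ _) h
    rw [e1, e1, dd_aft, dd_aft]
  unfold hs
  refine Finset.sum_eq_zero fun o _ => ?_
  have h2 : pderiv o (aft P p) = C (eval x (pderiv o (aft P p))) := by
    refine MvPolynomial.funext fun y => ?_
    rw [h1 o y, eval_C]
  rw [h2]
  unfold dd
  rw [Finset.sum_eq_zero fun o' _ => by rw [pderiv_C, map_zero, zero_mul], zero_mul]

/-- **Taylor.** -/
theorem aft_tay (P : MvPolynomial (Option (Fin m)) ℝ) (p b : Option (Fin m) → ℝ) {M : ℝ}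
    (hM : ∀ u ∈ Set.Icc (0 : ℝ) 1, |hs P (fun o => p o + u * (b o - p o)) (fun o => b o - p o)
      (fun o => b o - p o)| ≤ M) : |eval b P - eval b (aft P p)| ≤ M := by
  obtain ⟨δ, hδ⟩ : ∃ δ : Option (Fin m) → ℝ, δ = fun o => b o - p o := ⟨_, rfl⟩
  rw [← hδ] at hM
  have hM' : ∀ u ∈ Set.Icc (0 : ℝ) 1, |hs P (fun o => p o + u * δ o) δ δ| ≤ M := fun u hu => by
    have := hM u hu
    rw [hδ] at this ⊢
    exact this
  -- the derivative along the segment
  have h1 : ∀ u ∈ Set.Icc (0 : ℝ) 1, |dd (P - aft P p) (fun o => p o + u * δ o) δ| ≤ M := by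
    intro u hu
    -- the derivative of the derivative
    obtain ⟨Q, hQ⟩ : ∃ Q : MvPolynomial (Option (Fin m)) ℝ, Q = ∑ o, C (δ o) * pderiv o P :=
      ⟨_, rfl⟩
    have hQe : ∀ x, eval x Q = dd P x δ := fun x => by
      rw [hQ, map_sum]
      unfold dd
      refine Finset.sum_congr rfl fun o _ => ?_
      rw [map_mul, eval_C]
      ring
    have hQd : ∀ x, dd Q x δ = hs P x δ δ := fun x => by
      unfold hs dd
      rw [hQ]
      have e1 : ∀ o, eval x (pderiv o (∑ o', C (δ o') * pderiv o' P)) =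
          ∑ o', δ o' * eval x (pderiv o (pderiv o' P)) := fun o => by
        rw [map_sum, map_sum]
        refine Finset.sum_congr rfl fun o' _ => ?_
        rw [pderiv_mul, pderiv_C, zero_mul, zero_add, map_mul, eval_C]
      simp only [e1, Finset.sum_mul]
      rw [Finset.sum_comm]
      refine Finset.sum_congr rfl fun o _ => Finset.sum_congr rfl fun o' _ => by ring
    have h2 := mv_seg Q p δ (M := M) (fun u hu => by rw [hQd]; exact hM' u hu) u hu
    rw [hQe, hQe] at h2
    rw [dd_sub, dd_aft]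
    exact h2
  have h2 := mv_seg (P - aft P p) p δ h1 1 ⟨zero_le_one, le_rfl⟩
  have e1 : (fun o => p o + 1 * δ o) = b := by
    funext o
    rw [hδ]
    ring
  have e2 : eval p (P - aft P p) = 0 := by
    rw [map_sub, eval_aft]
    have : dd P p (fun o => p o - p o) = 0 := by
      unfold dd
      exact Finset.sum_eq_zero fun o _ => by
        show _ * (p o - p o) = 0
        rw [sub_self, mul_zero]
    rw [this]
    ring
  rw [e1, e2, sub_zero, map_sub] at h2
  exact h2

/-- **The derivative in a constant direction**, as a polynomial. -/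
noncomputable def dpl (V : Option (Fin m) → ℝ) (Q : MvPolynomial (Option (Fin m)) ℝ) :
    MvPolynomial (Option (Fin m)) ℝ := ∑ o, C (V o) * pderiv o Q

theorem eval_dpl (V : Option (Fin m) → ℝ) (Q : MvPolynomial (Option (Fin m)) ℝ)
    (b : Option (Fin m) → ℝ) : eval b (dpl V Q) = dd Q b V := by
  unfold dpl dd
  rw [map_sum]
  refine Finset.sum_congr rfl fun o _ => ?_
  rw [map_mul, eval_C]
  ring

theorem dpl_deg (V : Option (Fin m) → ℝ) {Q : MvPolynomial (Option (Fin m)) ℝ} {D : ℕ}
    (h : Q.totalDegree ≤ D) : (dpl V Q).totalDegree ≤ D := by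
  unfold dpl
  refine totalDegree_finsetSum_le fun o _ => ?_
  refine (totalDegree_mul _ _).trans ?_
  rw [totalDegree_C, zero_add]
  exact totalDegree_pdσ h _

theorem dpl_dep {c : ℕ → Fin m} {i : ℕ} {Q : MvPolynomial (Option (Fin m)) ℝ}
    (h : DepC c i Q) (V : Option (Fin m) → ℝ) : DepC c i (dpl V Q) := by
  intro b b' hn hb
  rw [eval_dpl, eval_dpl]
  unfold dd
  exact Finset.sum_congr rfl fun o _ => by rw [depC_pderiv h o b b' hn hb]

theorem dd_dpl (V : Option (Fin m) → ℝ) (Q : MvPolynomial (Option (Fin m)) ℝ)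
    (b W : Option (Fin m) → ℝ) : dd (dpl V Q) b W = hs Q b V W := by
  rw [hs_comm]
  unfold hs dd dpl
  have e1 : ∀ o, eval b (pderiv o (∑ o', C (V o') * pderiv o' Q)) =
      ∑ o', V o' * eval b (pderiv o (pderiv o' Q)) := fun o => by
    rw [map_sum, map_sum]
    refine Finset.sum_congr rfl fun o' _ => ?_
    rw [pderiv_mul, pderiv_C, zero_mul, zero_add, map_mul, eval_C]
  simp only [e1, Finset.sum_mul]
  rw [Finset.sum_comm]
  refine Finset.sum_congr rfl fun o _ => Finset.sum_congr rfl fun o' _ => by ring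

variable {J : ℕ}

/-- **The derivatives of the own path.** -/
theorem own_der (D : ℕ) : ∃ C : ℝ, 1 ≤ C ∧ ∀ {m J : ℕ} {F : Fam m J} {f : ℕ} {ω : F.Ω}
    {P : MvPolynomial (Option (Fin m)) ℝ} {k : Fin m} {M : ℝ}, P.totalDegree ≤ D →
    (∀ τ ∈ Set.Icc (0 : ℝ) 1, |ptw F f ω τ (some k) - eval (ptw F f ω τ) P| ≤ M) →
    ∀ τ ∈ Set.Icc (0 : ℝ) 1, |bd F ω (some k) - dd P (ptw F f ω τ) (bd F ω)| ≤ C * M * 2 ^ f ∧
      |hs P (ptw F f ω τ) (bd F ω) (bd F ω)| ≤ C * M * (2 ^ f) ^ 2 := by
  obtain ⟨C, hC, hder⟩ := der_one (D + 1)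
  refine ⟨C * C, by nlinarith, ?_⟩
  intro m J F f ω P k M hP hM τ hτ
  have hM0 : 0 ≤ M := (abs_nonneg _).trans (hM 0 ⟨le_rfl, zero_le_one⟩)
  obtain ⟨q, hq⟩ : ∃ q : Polynomial ℝ, q = lc f (slam F f ω) (some k) -
      MvPolynomial.aeval (lc f (slam F f ω)) P := ⟨_, rfl⟩
  have hlc : ∀ o, (lc f (slam F f ω) o).natDegree ≤ 1 := by
    intro o
    exact natDegree_lc f _ o
  have hqd : q.natDegree ≤ D + 1 := by
    rw [hq]
    exact (Polynomial.natDegree_sub_le _ _).trans (max_le ((hlc _).trans (by omega))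
      ((Pool.KBX.natDegree_aeval_le P _ hlc hP).trans (by omega)))
  have hqM : ∀ t ∈ Set.Icc (0 : ℝ) 1, |q.eval t| ≤ M := by
    intro t ht
    rw [hq, Polynomial.eval_sub, aeval_lc]
    exact hM t ht
  have h1 : ∀ x : ℝ, |x| ≤ 1 → |q.derivative.eval x| ≤ C * M := hder q M hqd hqM
  have hqd' : q.derivative.natDegree ≤ D + 1 :=
    (Polynomial.natDegree_derivative_le q).trans ((Nat.sub_le _ _).trans hqd)
  have hab : ∀ t ∈ Set.Icc (0 : ℝ) 1, |t| ≤ 1 := fun t ht => by
    rw [abs_of_nonneg ht.1]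
    exact ht.2
  have h2 : |q.derivative.derivative.eval τ| ≤ C * (C * M) :=
    hder q.derivative (C * M) hqd' (fun t ht => h1 t (hab t ht)) τ (hab τ hτ)
  have h3 := h1 τ (hab τ hτ)
  have hc := der_curve (lc f (slam F f ω)) (x := ptw F f ω τ) (V := (1 / 2 ^ f : ℝ) • bd F ω)
    (Z := 0) (s := τ) (fun o => rfl) (fun o => by rw [der_lc, Polynomial.eval_C]; rfl)
    (fun o => by rw [der_lc, Polynomial.derivative_C, Polynomial.eval_zero]; rfl) P
  have e1 : q.derivative.eval τ = 1 / 2 ^ f * (bd F ω (some k) -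
      dd P (ptw F f ω τ) (bd F ω)) := by
    rw [hq, Polynomial.derivative_sub, Polynomial.eval_sub, hc.1, dd_smul, der_lc,
      Polynomial.eval_C]
    show 1 / 2 ^ f * bd F ω (some k) - _ = _
    ring
  have e2 : q.derivative.derivative.eval τ = -((1 / 2 ^ f) ^ 2 *
      hs P (ptw F f ω τ) (bd F ω) (bd F ω)) := by
    rw [hq, Polynomial.derivative_sub, Polynomial.derivative_sub, Polynomial.eval_sub, hc.2, der_lc,
      Polynomial.derivative_C, Polynomial.eval_zero, hs_smul_left, hs_smul_right]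
    have : dd P (ptw F f ω τ) (0 : Option (Fin m) → ℝ) = 0 := by
      unfold dd
      exact Finset.sum_eq_zero fun o _ => by rw [Pi.zero_apply, mul_zero]
    rw [this]
    ring
  have hf : (0 : ℝ) < 2 ^ f := by positivity
  rw [e1, abs_mul, abs_of_pos (by positivity : (0 : ℝ) < 1 / 2 ^ f)] at h3
  rw [e2, abs_neg, abs_mul, abs_of_pos (by positivity : (0 : ℝ) < (1 / 2 ^ f) ^ 2)] at h2
  have hCM : 0 ≤ C * M := by positivity
  constructor
  · rw [one_div, inv_mul_le_iff₀ hf] at h3
    refine h3.trans ?_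
    have : C * M ≤ C * C * M := by nlinarith
    nlinarith
  · rw [one_div, inv_pow, inv_mul_le_iff₀ (by positivity)] at h2
    refine h2.trans (le_of_eq (by ring))

end Pool.AFF82
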