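import Pool.Agent.H73.D2.Tlm
import Pool.Agent.H92.D2.Him
import Pool.Agent.H73.D2.Tme

/-!
# The numbers of the affine frame

`AfNN`: the numbers, `AfJ`: the numbers for one `J`, `afnn_nat`.
-/

set_option autoImplicit false

namespace Pool.AFF82

open Finset Real MvPolynomial
open Pool.Agent.H49.Ent Pool.Agent.H32.Dense Pool.STK
open Pool.KA Pool.KSAT Pool.K2S Pool.PB Pool.S6C Pool.GEN Pool.D2R Pool.ISO Pool.CHT Pool.CHX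
open Pool.V1E Pool.D2G30

/-- The windows of the affine frame. -/
def IsW (n iF iQ : ℕ) (ix : ℕ → ℕ) (i : ℕ) : Prop := i = iF ∨ i = iQ ∨ ∃ k ≤ n, i = ix k

/-- **The numbers.** `iF`: the frame, `ix 0`: the base, `iQ`: the window of the record, `ix n`: the
closed window. -/
structure AfNN {m : ℕ} (P : List (Fin m) × Fin m → ℝ → ℝ → ℝ) (c : ℕ → Fin m) (n iF iQ : ℕ)
    (ix : ℕ → ℕ) (θ C Eb η₀ ζ χ : ℝ) (K : ℕ) (o : ℕ → ℝ) (lv : ℕ → ℕ → ℝ) (aq : ℚ)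
    (e h gn : ℝ) : Prop where
  C1 : 1 ≤ C
  η0 : 0 ≤ η₀
  ζ0 : 0 ≤ ζ
  χ0 : 2 * ζ + (C + 1) * η₀ < χ
  E0 : 0 ≤ Eb
  gn0 : 0 ≤ gn
  oF : 0 ≤ o iF
  oFk : ∀ k ≤ n, o iF + η₀ ≤ o (ix k)
  oFQ : o iF + η₀ ≤ o iQ
  oBk : ∀ k ≤ n, o (ix 0) ≤ o (ix k)
  okn : ∀ k ≤ n, o (ix k) ≤ o (ix n)
  oQn : ζ + (C + 1) * η₀ < o (ix n) - o iQ
  onq : o (ix n) ≤ aq
  a1 : (aq : ℝ) ≤ 1
  ea : e < θ * aq
  h0 : 0 < h
  b1 : ∀ l < 2, bet P c l aq aq + h ≤ 1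
  gain : ∀ l < 2, bet P c l aq aq + h + o (ix n) + η₀ <
    lv (ix 0) l + (o iQ - o (ix 0)) + gn + aq
  lvz : ∀ i, IsW n iF iQ ix i → ∀ l < 2, |lv i l - o i - (lv (ix 0) l - o (ix 0))| ≤ ζ
  lv0 : χ + η₀ < lv (ix 0) 0
  sQ : K * (χ + gn) < o iQ - o (ix 0)
  sM : K * (χ + gn) < o (ix 0) - o iF - (o iQ - o (ix 0))
  e2 : Eb + 2 * η₀ + K * (χ + gn) < e
  top : ∀ l < 2, Eb + 2 * η₀ + lv (ix 0) l + (o iQ - o (ix 0)) + K * (χ + gn) < 1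

/-- **The numbers for one `J`.** -/
structure AfJ (J n iF iQ : ℕ) (ix w : ℕ → ℕ) (bb g : ℕ → ℕ → ℕ) (x Gn q₀ Q uB e₀ eJ wa K : ℕ)
    (be : ℕ → ℕ) : Prop where
  f1 : w (ix 0) = w iF + q₀
  f2 : w iQ = w (ix 0) + Q
  f3 : w iQ ≤ w (ix n)
  f4 : w (ix n) ≤ wa
  f5 : wa ≤ J
  f6 : ∀ k ≤ n, w (ix 0) ≤ w (ix k) ∧ w (ix k) ≤ w (ix n)
  hx : uB + 1 ≤ x
  n0 : ∀ j < 2, g (ix 0) j ≤ g iF j + q₀ + x
  n2b : ∀ j < 2, g (ix 0) j + Q ≤ g iQ j + x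
  n2c : ∀ j < 2, g iQ j ≤ bb iF j + (q₀ + Q) + x
  n2d : ∀ j < 2, bb iF j + (q₀ + Q) ≤ g (ix 0) j + Q + x
  lv1 : ∀ k ≤ n, ∀ l < 2, g (ix 0) l + (w (ix k) - w (ix 0)) ≤ g (ix k) l + x
  lv2 : ∀ k ≤ n, ∀ l < 2, g (ix k) l ≤ g (ix 0) l + (w (ix k) - w (ix 0)) + x
  bal : ∀ k ≤ n, g (ix k) 1 + uB ≤ bb iF 1 + (w (ix k) - w iF) + x
  x2 : x + 2 ≤ g (ix 0) 0
  r1 : ∀ l < 2, g (ix 0) l + Q + 2 + uB ≤ g (ix n) l
  r2 : ∀ l < 2, g (ix 0) l + Q + 2 + uB ≤ bb iF l + (w (ix n) - w iF)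
  kQ : K * (x + Gn + 1) + K ≤ Q
  kM : K * (x + Gn + 1) + K + Q ≤ q₀
  ke : e₀ + (K * (x + Gn + 1) + K) ≤ eJ
  kt : ∀ l < 2, e₀ + g (ix 0) l + Q + (K * (x + Gn + 1) + K) ≤ J
  kb : ∀ l < 2, be l + w (ix n) ≤ g (ix 0) l + Q + Gn + wa

/-- **The numbers for large `J`.** -/
theorem afnn_nat {m : ℕ} {P : List (Fin m) × Fin m → ℝ → ℝ → ℝ} {c : ℕ → Fin m} {n iF iQ : ℕ}
    {ix : ℕ → ℕ} {θ C Eb η₀ ζ χ : ℝ} {K : ℕ} {o : ℕ → ℝ} {lv : ℕ → ℕ → ℝ} {aq : ℚ} {e h gn : ℝ}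
    (Nn : AfNN P c n iF iQ ix θ C Eb η₀ ζ χ K o lv aq e h gn) :
    ∃ J₀ : ℕ, ∀ J : ℕ, J₀ ≤ J → ∀ {bb g : ℕ → ℕ → ℕ}, (∀ i, IsW n iF iQ ix i → ∀ l < 2,
      (lv i l * J - η₀ * J - 1 ≤ (bb i l : ℝ)) ∧ ((bb i l : ℝ) ≤ lv i l * J) ∧
      (lv i l * J - η₀ * J ≤ (g i l : ℝ)) ∧ ((g i l : ℝ) ≤ lv i l * J)) →
      AfJ J n iF iQ ix (fun i => ⌊o i * J⌋₊) bb g ⌊χ * J⌋₊ ⌊gn * J⌋₊
        (⌊o (ix 0) * J⌋₊ - ⌊o iF * J⌋₊) (⌊o iQ * J⌋₊ - ⌊o (ix 0) * J⌋₊) ⌊C * (η₀ * J)⌋₊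
        ⌊(Eb + 2 * η₀) * J⌋₊ ⌊e * J⌋₊ ⌊(aq : ℝ) * J⌋₊ K
        (fun l => ⌊(bet P c l aq aq + h) * J⌋₊) := by
  have hC := Nn.C1
  have hη := Nn.η0
  have hζ := Nn.ζ0
  have hχ := Nn.χ0
  have hgn := Nn.gn0
  have hE := Nn.E0
  have hCη : 0 ≤ (C + 1) * η₀ := mul_nonneg (by linarith) hη
  have hη2 : η₀ ≤ C * η₀ := le_mul_of_one_le_left hη hC
  have hχ0 : 0 < χ := by linarith
  have hK0 : (0 : ℝ) ≤ K := Nat.cast_nonneg K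
  have hKχ : 0 ≤ K * (χ + gn) := mul_nonneg hK0 (by linarith)
  have oF := Nn.oF
  have o0 : 0 ≤ o (ix 0) := by linarith [Nn.oFk 0 (Nat.zero_le _)]
  have oFB : o iF ≤ o (ix 0) := by linarith [Nn.oFk 0 (Nat.zero_le _)]
  have hsQ := Nn.sQ
  have hsM := Nn.sM
  have oBQ : o (ix 0) ≤ o iQ := by linarith
  have oQ : 0 ≤ o iQ := by linarith
  have hoQn := Nn.oQn
  have oQn : o iQ ≤ o (ix n) := by linarith
  have ok0 : ∀ k ≤ n, 0 ≤ o (ix k) := fun k hk => o0.trans (Nn.oBk k hk)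
  have haq0 : (0 : ℝ) ≤ aq := by linarith [Nn.onq]
  obtain ⟨k₀, hk₀⟩ : ∃ k₀ : ℝ, k₀ = 4 * K + 60 := ⟨_, rfl⟩
  obtain ⟨J₁, hJ₁⟩ := lin_lt hχ k₀
  obtain ⟨J₂, hJ₂⟩ := lin_lt hoQn k₀
  obtain ⟨J₃, hJ₃⟩ := lin_lt hsQ k₀
  obtain ⟨J₄, hJ₄⟩ := lin_lt hsM k₀
  obtain ⟨J₅, hJ₅⟩ := lin_lt Nn.e2 k₀
  obtain ⟨J₆, hJ₆⟩ := lin_lt Nn.lv0 k₀
  obtain ⟨J₇, hJ₇⟩ := lin_fam (n := 2) Nn.gain k₀
  obtain ⟨J₈, hJ₈⟩ := lin_fam (n := 2) (A := fun l => Eb + 2 * η₀ + lv (ix 0) l +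
    (o iQ - o (ix 0)) + K * (χ + gn)) (B := fun _ => 1) Nn.top k₀
  refine ⟨max (max (max J₁ J₂) (max J₃ J₄)) (max (max J₅ J₆) (max J₇ J₈)), ?_⟩
  intro J hJ bb g hbg
  have j1 := hJ₁ J (by omega)
  have j2 := hJ₂ J (by omega)
  have j3 := hJ₃ J (by omega)
  have j4 := hJ₄ J (by omega)
  have j5 := hJ₅ J (by omega)
  have j6 := hJ₆ J (by omega)
  have j7 := hJ₇ J (by omega)
  have j8 := hJ₈ J (by omega)
  clear hJ₁ hJ₂ hJ₃ hJ₄ hJ₅ hJ₆ hJ₇ hJ₈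
  have hJ0 : (0 : ℝ) ≤ J := Nat.cast_nonneg J
  have mulJ : ∀ {x y : ℝ}, x ≤ y → x * J ≤ y * J := fun h => mul_le_mul_of_nonneg_right h hJ0
  have iF' : IsW n iF iQ ix iF := Or.inl rfl
  have iQ' : IsW n iF iQ ix iQ := Or.inr (Or.inl rfl)
  have ik' : ∀ k ≤ n, IsW n iF iQ ix (ix k) := fun k hk => Or.inr (Or.inr ⟨k, hk, rfl⟩)
  have i0' := ik' 0 (Nat.zero_le _)
  -- the levels
  have slp : ∀ i, IsW n iF iQ ix i → ∀ l < 2,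
      lv i l * J - o i * J ≤ lv (ix 0) l * J - o (ix 0) * J + ζ * J ∧
      lv (ix 0) l * J - o (ix 0) * J ≤ lv i l * J - o i * J + ζ * J := by
    intro i hi l hl
    have h1 := abs_le.1 (Nn.lvz i hi l hl)
    have h2 := mulJ h1.1
    have h3 := mulJ h1.2
    constructor <;> linarith
  have fF := flo (mul_nonneg oF hJ0)
  have f0 := flo (mul_nonneg o0 hJ0)
  have fQ := flo (mul_nonneg oQ hJ0)
  have fk := fun k (hk : k ≤ n) => flo (mul_nonneg (ok0 k hk) hJ0)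
  have fa := flo (mul_nonneg haq0 hJ0)
  have fg := flo (mul_nonneg hgn hJ0)
  have fx := flo (mul_nonneg hχ0.le hJ0)
  have fc := flo (mul_nonneg (by linarith : (0 : ℝ) ≤ C) (mul_nonneg hη hJ0))
  have fe := flo (mul_nonneg (by linarith : (0 : ℝ) ≤ Eb + 2 * η₀) hJ0)
  have lF0 : ⌊o iF * J⌋₊ ≤ ⌊o (ix 0) * J⌋₊ := Nat.floor_le_floor (mulJ oFB)
  have l0Q : ⌊o (ix 0) * J⌋₊ ≤ ⌊o iQ * J⌋₊ := Nat.floor_le_floor (mulJ oBQ)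
  have lQn : ⌊o iQ * J⌋₊ ≤ ⌊o (ix n) * J⌋₊ := Nat.floor_le_floor (mulJ oQn)
  have lna : ⌊o (ix n) * J⌋₊ ≤ ⌊(aq : ℝ) * J⌋₊ := Nat.floor_le_floor (mulJ Nn.onq)
  have laJ : ⌊(aq : ℝ) * J⌋₊ ≤ J := Nat.floor_le_of_le (by
    have h3 := mulJ Nn.a1
    linarith)
  have lk : ∀ k ≤ n, ⌊o (ix 0) * J⌋₊ ≤ ⌊o (ix k) * J⌋₊ ∧ ⌊o (ix k) * J⌋₊ ≤ ⌊o (ix n) * J⌋₊ :=
    fun k hk => ⟨Nat.floor_le_floor (mulJ (Nn.oBk k hk)), Nat.floor_le_floor (mulJ (Nn.okn k hk))⟩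
  obtain ⟨q₀, hq₀⟩ : ∃ q₀, q₀ = ⌊o (ix 0) * J⌋₊ - ⌊o iF * J⌋₊ := ⟨_, rfl⟩
  obtain ⟨Q, hQ⟩ : ∃ Q, Q = ⌊o iQ * J⌋₊ - ⌊o (ix 0) * J⌋₊ := ⟨_, rfl⟩
  obtain ⟨x, hx⟩ : ∃ x, x = ⌊χ * J⌋₊ := ⟨_, rfl⟩
  obtain ⟨Gn, hGn⟩ : ∃ Gn, Gn = ⌊gn * J⌋₊ := ⟨_, rfl⟩
  obtain ⟨uB, huB⟩ : ∃ uB, uB = ⌊C * (η₀ * J)⌋₊ := ⟨_, rfl⟩
  obtain ⟨e₀, he₀⟩ : ∃ e₀, e₀ = ⌊(Eb + 2 * η₀) * J⌋₊ := ⟨_, rfl⟩
  rw [← hq₀, ← hQ, ← hx, ← hGn, ← huB, ← he₀]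
  rw [← hx] at fx
  rw [← hGn] at fg
  rw [← huB] at fc
  rw [← he₀] at fe
  have hqr : (q₀ : ℝ) = ⌊o (ix 0) * J⌋₊ - ⌊o iF * J⌋₊ := by rw [hq₀, Nat.cast_sub lF0]
  have hQr : (Q : ℝ) = ⌊o iQ * J⌋₊ - ⌊o (ix 0) * J⌋₊ := by rw [hQ, Nat.cast_sub l0Q]
  have hwk : ∀ k ≤ n, ((⌊o (ix k) * J⌋₊ - ⌊o (ix 0) * J⌋₊ : ℕ) : ℝ) =
      ⌊o (ix k) * J⌋₊ - ⌊o (ix 0) * J⌋₊ := fun k hk => by rw [Nat.cast_sub (lk k hk).1]
  have hwF : ∀ k ≤ n, ((⌊o (ix k) * J⌋₊ - ⌊o iF * J⌋₊ : ℕ) : ℝ) =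
      ⌊o (ix k) * J⌋₊ - ⌊o iF * J⌋₊ := fun k hk => by rw [Nat.cast_sub (lF0.trans (lk k hk).1)]
  have hη1 : 0 ≤ η₀ * J := mul_nonneg hη hJ0
  have hζ1 : 0 ≤ ζ * J := mul_nonneg hζ hJ0
  have hCη1 : η₀ * J ≤ C * (η₀ * J) := by
    have := mulJ hη2
    linarith
  have j1' : 2 * (ζ * J) + C * (η₀ * J) + η₀ * J + k₀ ≤ χ * J := by
    have e1 : (2 * ζ + (C + 1) * η₀) * J = 2 * (ζ * J) + C * (η₀ * J) + η₀ * J := by ring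
    rw [e1] at j1
    exact j1
  have j2' : ζ * J + C * (η₀ * J) + η₀ * J + k₀ ≤ o (ix n) * J - o iQ * J := by
    have e1 : (ζ + (C + 1) * η₀) * J = ζ * J + C * (η₀ * J) + η₀ * J := by ring
    have e2 : (o (ix n) - o iQ) * J = o (ix n) * J - o iQ * J := by ring
    rw [e1, e2] at j2
    exact j2
  have j3' : K * (χ + gn) * J + k₀ ≤ o iQ * J - o (ix 0) * J := by
    have e2 : (o iQ - o (ix 0)) * J = o iQ * J - o (ix 0) * J := by ring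
    rw [e2] at j3
    exact j3
  have j4' : K * (χ + gn) * J + k₀ ≤
      o (ix 0) * J - o iF * J - (o iQ * J - o (ix 0) * J) := by
    have e2 : (o (ix 0) - o iF - (o iQ - o (ix 0))) * J =
      o (ix 0) * J - o iF * J - (o iQ * J - o (ix 0) * J) := by ring
    rw [e2] at j4
    exact j4
  have hKx : ((K * (x + Gn + 1) + K : ℕ) : ℝ) ≤ K * (χ + gn) * J + 2 * K := by
    push_cast
    have h1 : (x : ℝ) + Gn + 1 ≤ χ * J + gn * J + 1 := by linarith [fx.1, fg.1]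
    have h2 := mul_le_mul_of_nonneg_left h1 hK0
    have e1 : (K : ℝ) * (χ + gn) * J + 2 * K = K * (χ * J + gn * J + 1) + K := by ring
    rw [e1]
    linarith
  have hk60 : (60 : ℝ) ≤ k₀ := by rw [hk₀]; linarith
  have hkK : 2 * (K : ℝ) + 60 ≤ k₀ := by rw [hk₀]; linarith
  refine
    { f1 := by show ⌊o (ix 0) * J⌋₊ = ⌊o iF * J⌋₊ + q₀; omega
      f2 := by show ⌊o iQ * J⌋₊ = ⌊o (ix 0) * J⌋₊ + Q; omega
      f3 := lQn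
      f4 := lna
      f5 := laJ
      f6 := lk
      hx := ?_, n0 := ?_, n2b := ?_, n2c := ?_, n2d := ?_, lv1 := ?_, lv2 := ?_, bal := ?_
      x2 := ?_, r1 := ?_, r2 := ?_, kQ := ?_, kM := ?_, ke := ?_, kt := ?_, kb := ?_ }
  · have h1 : ((uB + 1 : ℕ) : ℝ) ≤ x := by
      push_cast
      linarith [fc.1, fx.2]
    exact_mod_cast h1
  · intro j hj
    have h1 : (g (ix 0) j : ℝ) ≤ ((g iF j + q₀ + x : ℕ) : ℝ) := by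
      push_cast
      have h2 := (slp iF iF' j hj).2
      have h3 := (hbg iF iF' j hj).2.2.1
      have h4 := (hbg (ix 0) i0' j hj).2.2.2
      linarith [fx.2, fF.1, f0.2]
    exact_mod_cast h1
  · intro j hj
    have h1 : ((g (ix 0) j + Q : ℕ) : ℝ) ≤ ((g iQ j + x : ℕ) : ℝ) := by
      push_cast
      have h2 := (slp iQ iQ' j hj).2
      have h3 := (hbg iQ iQ' j hj).2.2.1
      have h4 := (hbg (ix 0) i0' j hj).2.2.2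
      linarith [fx.2, fQ.1, f0.2]
    exact_mod_cast h1
  · intro j hj
    have h1 : (g iQ j : ℝ) ≤ ((bb iF j + (q₀ + Q) + x : ℕ) : ℝ) := by
      push_cast
      have h2 := (slp iF iF' j hj).2
      have h5 := (slp iQ iQ' j hj).1
      have h3 := (hbg iF iF' j hj).1
      have h4 := (hbg iQ iQ' j hj).2.2.2
      linarith [fx.2, fQ.2, fF.1]
    exact_mod_cast h1
  · intro j hj
    have h1 : ((bb iF j + (q₀ + Q) : ℕ) : ℝ) ≤ ((g (ix 0) j + Q + x : ℕ) : ℝ) := by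
      push_cast
      have h2 := (slp iF iF' j hj).1
      have h3 := (hbg iF iF' j hj).2.1
      have h4 := (hbg (ix 0) i0' j hj).2.2.1
      linarith [fx.2, f0.1, fF.2]
    exact_mod_cast h1
  · intro k hk l hl
    have h1 : ((g (ix 0) l + (⌊o (ix k) * J⌋₊ - ⌊o (ix 0) * J⌋₊) : ℕ) : ℝ) ≤
        ((g (ix k) l + x : ℕ) : ℝ) := by
      rw [Nat.cast_add, hwk k hk]
      push_cast
      have h2 := (slp (ix k) (ik' k hk) l hl).2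
      have h3 := (hbg (ix k) (ik' k hk) l hl).2.2.1
      have h4 := (hbg (ix 0) i0' l hl).2.2.2
      linarith [fx.2, f0.2, (fk k hk).1]
    exact_mod_cast h1
  · intro k hk l hl
    have h1 : (g (ix k) l : ℝ) ≤
        ((g (ix 0) l + (⌊o (ix k) * J⌋₊ - ⌊o (ix 0) * J⌋₊) + x : ℕ) : ℝ) := by
      rw [Nat.cast_add, Nat.cast_add, hwk k hk]
      have h2 := (slp (ix k) (ik' k hk) l hl).1
      have h3 := (hbg (ix k) (ik' k hk) l hl).2.2.2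
      have h4 := (hbg (ix 0) i0' l hl).2.2.1
      linarith [fx.2, f0.1, (fk k hk).2]
    exact_mod_cast h1
  · intro k hk
    have h1 : ((g (ix k) 1 + uB : ℕ) : ℝ) ≤
        ((bb iF 1 + (⌊o (ix k) * J⌋₊ - ⌊o iF * J⌋₊) + x : ℕ) : ℝ) := by
      rw [Nat.cast_add, Nat.cast_add, Nat.cast_add, hwF k hk]
      have h2 := (slp (ix k) (ik' k hk) 1 (by norm_num)).1
      have h5 := (slp iF iF' 1 (by norm_num)).2
      have h3 := (hbg (ix k) (ik' k hk) 1 (by norm_num)).2.2.2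
      have h4 := (hbg iF iF' 1 (by norm_num)).1
      linarith [fx.2, fF.1, (fk k hk).2, fc.1]
    exact_mod_cast h1
  · have h1 : ((x + 2 : ℕ) : ℝ) ≤ g (ix 0) 0 := by
      push_cast
      have h4 := (hbg (ix 0) i0' 0 (by norm_num)).2.2.1
      have e1 : (χ + η₀) * J = χ * J + η₀ * J := by ring
      rw [e1] at j6
      linarith [fx.1]
    exact_mod_cast h1
  · intro l hl
    have h1 : ((g (ix 0) l + Q + 2 + uB : ℕ) : ℝ) ≤ g (ix n) l := by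
      push_cast
      have h2 := (slp (ix n) (ik' n le_rfl) l hl).2
      have h3 := (hbg (ix n) (ik' n le_rfl) l hl).2.2.1
      have h4 := (hbg (ix 0) i0' l hl).2.2.2
      linarith [fQ.1, f0.2, fc.1]
    exact_mod_cast h1
  · intro l hl
    have h1 : ((g (ix 0) l + Q + 2 + uB : ℕ) : ℝ) ≤
        ((bb iF l + (⌊o (ix n) * J⌋₊ - ⌊o iF * J⌋₊) : ℕ) : ℝ) := by
      rw [Nat.cast_add (bb iF l), hwF n le_rfl]
      push_cast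
      have h2 := (slp iF iF' l hl).2
      have h3 := (hbg iF iF' l hl).1
      have h4 := (hbg (ix 0) i0' l hl).2.2.2
      linarith [fQ.1, f0.2, fc.1, fF.1, (fk n le_rfl).2]
    exact_mod_cast h1
  · have h1 : ((K * (x + Gn + 1) + K : ℕ) : ℝ) ≤ Q := by
      refine hKx.trans ?_
      linarith [fQ.2, f0.1]
    exact_mod_cast h1
  · have h1 : ((K * (x + Gn + 1) + K + Q : ℕ) : ℝ) ≤ q₀ := by
      rw [Nat.cast_add]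
      linarith [hKx, fQ.1, f0.2, fF.1, f0.1]
    exact_mod_cast h1
  · refine Nat.le_floor ?_
    rw [Nat.cast_add]
    have e1 : (Eb + 2 * η₀ + K * (χ + gn)) * J = (Eb + 2 * η₀) * J + K * (χ + gn) * J := by ring
    rw [e1] at j5
    linarith [hKx, fe.1]
  · intro l hl
    have h1 : ((e₀ + g (ix 0) l + Q + (K * (x + Gn + 1) + K) : ℕ) : ℝ) ≤ J := by
      rw [Nat.cast_add, Nat.cast_add, Nat.cast_add]
      have h5 := j8 l hl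
      have e1 : (Eb + 2 * η₀ + lv (ix 0) l + (o iQ - o (ix 0)) + K * (χ + gn)) * J =
        (Eb + 2 * η₀) * J + lv (ix 0) l * J + (o iQ * J - o (ix 0) * J) + K * (χ + gn) * J := by
        ring
      rw [e1] at h5
      have h4 := (hbg (ix 0) i0' l hl).2.2.2
      linarith [hKx, fe.1, fQ.1, f0.2]
    exact_mod_cast h1
  · intro l hl
    show ⌊(bet P c l aq aq + h) * J⌋₊ + ⌊o (ix n) * J⌋₊ ≤ g (ix 0) l + Q + Gn + ⌊(aq : ℝ) * J⌋₊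
    have h5 := j7 l hl
    have h4 := (hbg (ix 0) i0' l hl).2.2.1
    have e1 : (bet P c l aq aq + h + o (ix n) + η₀) * J =
      (bet P c l aq aq + h) * J + o (ix n) * J + η₀ * J := by ring
    have e2 : (lv (ix 0) l + (o iQ - o (ix 0)) + gn + aq) * J =
      lv (ix 0) l * J + (o iQ * J - o (ix 0) * J) + gn * J + aq * J := by ring
    rw [e1, e2] at h5
    have h7 : (0 : ℝ) ≤ g (ix 0) l := Nat.cast_nonneg _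
    have h9 := lna
    rcases le_total 0 (bet P c l aq aq + h) with h8 | h8
    · have h4 : ((⌊(bet P c l aq aq + h) * J⌋₊ + ⌊o (ix n) * J⌋₊ : ℕ) : ℝ) ≤
          ((g (ix 0) l + Q + Gn + ⌊(aq : ℝ) * J⌋₊ : ℕ) : ℝ) := by
        push_cast
        have h9 := (flo (mul_nonneg h8 hJ0)).1
        linarith [(fk n le_rfl).1, fa.2, fg.2, fQ.2, f0.1]
      exact_mod_cast h4
    · have h9 : ⌊(bet P c l aq aq + h) * J⌋₊ = 0 :=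
        Nat.floor_of_nonpos (mul_nonpos_of_nonpos_of_nonneg h8 hJ0)
      rw [h9]
      omega

end Pool.AFF82
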