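import Pool.Agent.H82.CNC.Cwg
import Pool.Agent.H82.CNC.Cnm

/-!
# The affine frame in a class

`afn_cls`: in a class with thresholds and full time, on the windows `WG`: the data of the affine
frame, the estimates, the boxes and the balls `Bll` of all windows.
-/

set_option autoImplicit false

namespace Pool.AFF82

open Finset Real MvPolynomial
open Pool.Agent.H49.Ent Pool.Agent.H32.Dense Pool.STK
open Pool.KA Pool.KSAT Pool.K2S Pool.PB Pool.S6C Pool.GEN Pool.D2R Pool.ISO Pool.CHT Pool.CHX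
open Pool.V1E Pool.NHN Pool.D2G30 Pool.CNC76
open Pool.CR99 (dv_ptw)
open Pool.SHR (relvF_low)
open Pool.LBT (ThrOf)
open Pool.D2F (cond_dens)
open Pool.PB.Trl (rt rt_mem t_rt)
open Pool.D2Con

/-- **The record of the flatness** is a function of the record `kzF`. -/
theorem det_flz {m J : ℕ} {F : Fam m J} {c : ℕ → Fin m} {D MB q₀ Q x u e : ℕ} {s : ℕ → ℕ}
    {qe : Fin 2 → ℕ} {o : ℕ → ℕ} {g g₀ : ℕ → ℕ → ℕ} {B : F.Ω → Prop}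
    {G : ℕ → PtT F → ℕ → MvPolynomial (Option (Fin m)) ℝ}
    {H : ℕ → LnT F → ℕ → MvPolynomial (Option (Fin m)) ℝ}
    (W : FrN F c 2 D MB q₀ Q x u e s qe o g g₀ B G H)
    (Gb : PtT F → ℕ → MvPolynomial (Option (Fin m)) ℝ)
    (A₁ A₂ : PtT F → MvPolynomial (Option (Fin m)) ℝ) (q : F.Ω → ℝ) :
    Det q (kzF F c s 2 (o 1) Q (fun ω => Gb (ptr F J ω) 0) (fun _ => ()) (G 0) A₁ A₂)
      (flz F c (s 0) Q (G 0) Gb) := by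
  intro ω ω' _ _ hh
  have c1 := congrFun (W.crn ω) 0
  have c2 := congrFun (W.crn ω') 0
  unfold kzF kaF kwF at hh
  simp only [Prod.mk.injEq] at hh
  obtain ⟨-, ⟨k3, k4, -⟩, k6, k7⟩ := hh
  have k7' := congrFun k7 0
  rw [c1, c2] at k7'
  have e0 : G 0 (ptr F J ω) 0 = G 0 (ptr F J ω') 0 := by
    have := congrFun k4 0
    rwa [trn_eq (by norm_num), trn_eq (by norm_num)] at this
  have e1 : G 0 (ptr F J ω) 1 = G 0 (ptr F J ω') 1 := by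
    have := congrFun k4 1
    rwa [trn_eq (by norm_num), trn_eq (by norm_num)] at this
  have e2 : ⌊2 ^ Q * (2 ^ s 0 * (F.x ω (c 0) - eval (bt F ω) (G 0 (ptr F J ω) 0)))⌋ =
      ⌊2 ^ Q * (2 ^ s 0 * (F.x ω' (c 0) - eval (bt F ω') (G 0 (ptr F J ω') 0)))⌋ := k7'
  unfold flz
  rw [k6, e2, e0, e1, k3]

/-- **The affine frame in a class.** -/
theorem afn_cls (D Dr DB : ℕ) (hDr : D ≤ Dr) (hDB : DB ≤ Dr) : ∃ K c₀ C₁ c₁ : ℕ, 4 ≤ c₀ ∧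
    ∀ {m r N N₂ n iF iQ : ℕ} {S : PCl m} {R : ℕ → Prop}
    {P : List (Fin m) × Fin m → ℝ → ℝ → ℝ} {θ : ℝ} {c : ℕ → Fin m} {C a Eb ε₀ η₀ ζ χ : ℝ}
    {Pt : ℝ → ℝ → ℝ} {o : ℕ → ℝ} {lv be : ℕ → ℕ → ℝ} {ix : ℕ → ℕ} {aq : ℚ} {e h gn : ℝ},
    2 ≤ r → ThrOf (chsys m θ) S P → TmH S → Set.InjOn c (Set.Iio (r + 1)) → iF ≤ N₂ → iQ ≤ N₂ →
    (∀ k ≤ n, ix k ≤ N₂) → AfNN P c n iF iQ ix θ C Eb η₀ ζ χ K o lv aq e h gn →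
    ∀ κ' c' K₁ : ℝ, 0 < κ' → 0 < c' → 0 < K₁ → Bas S (fun J F A =>
      ∀ {b : ℕ → ℕ → ℝ} {κ : ℝ} {z : ℕ → ℕ → ℕ} {B : F.Ω → Prop} {gc gT g₀ : ℕ → ℕ → ℕ}
      {G : ℕ → PtT F → ℕ → MvPolynomial (Option (Fin m)) ℝ}
      {H : ℕ → LnT F → ℕ → MvPolynomial (Option (Fin m)) ℝ}
      {T : ℕ → PtT F → ℕ → MvPolynomial (Option (Fin m)) ℝ}
      {TH : ℕ → LnT F → ℕ → MvPolynomial (Option (Fin m)) ℝ}
      {Gt : ℕ → PtT F → MvPolynomial (Option (Fin m)) ℝ}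
      {Ht : ℕ → LnT F → MvPolynomial (Option (Fin m)) ℝ}, Sub B A →
      Pe F.p A ≤ K₁ * Pe F.p B → κ ≤ 1 / 16 → 2 * κ ≤ κ' →
      WG c r D Dr N N₂ R C a Eb ε₀ η₀ Pt o lv be F b κ z B gc gT g₀ G H T TH Gt Ht →
      ∃ (B' : F.Ω → Prop) (y gx : ℕ) (θ' : ℝ), Sub B' B ∧ Pe F.p B ≤ 2 * Pe F.p B' ∧
        AfD F c D n ⌊o iF * J⌋₊ ⌊χ * J⌋₊ y (fun k => ⌊o (ix k) * J⌋₊) (g₀ (ix 0)) (g₀ iF)
          (fun k => g₀ (ix k)) gx θ' B' (G iF) (H iF) (fun k => G (ix k)) (fun k => H (ix k)) ∧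
        (∀ ω, B' ω → AfE F c n (c₀ + ⌊χ * J⌋₊)
          (C₁ * (⌊χ * J⌋₊ + ⌊χ * J⌋₊ + ⌊gn * J⌋₊ + 1) + 3) (fun k => ⌊o (ix k) * J⌋₊)
          (g₀ (ix 0)) (fun k => g₀ (ix k)) (G iF) (fun k => G (ix k)) ω ∧
          ∀ k ≤ n, AfB F c (c₀ + ⌊χ * J⌋₊) (fun k => ⌊o (ix k) * J⌋₊) (g₀ (ix 0))
            (fun k => g₀ (ix k)) (G iF) (fun k => G (ix k)) k ω) ∧
        ∀ k ≤ n, Bll F.p B' (fun ω => ptr F J ω) (slam F ⌊o (ix k) * J⌋₊)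
          (slam F ⌊o (ix n) * J⌋₊)
          (unt (aY F c (fun k => ⌊o (ix k) * J⌋₊) (g₀ (ix 0)) (G iF) (fun k => G (ix k)))
            (aC F c (fun k => ⌊o (ix k) * J⌋₊) (g₀ (ix 0)) (G iF) (fun k => G (ix k)) k)
            (rk (c₀ + ⌊χ * J⌋₊) (fun k => ⌊o (ix k) * J⌋₊) k))
          (unt (aC F c (fun k => ⌊o (ix k) * J⌋₊) (g₀ (ix 0)) (G iF) (fun k => G (ix k)) n)
            (aC F c (fun k => ⌊o (ix k) * J⌋₊) (g₀ (ix 0)) (G iF) (fun k => G (ix k)) k)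
            (rk (c₀ + ⌊χ * J⌋₊) (fun k => ⌊o (ix k) * J⌋₊) k))
          (aX F c (fun k => ⌊o (ix k) * J⌋₊) (g₀ (ix 0)) (G iF) (fun k => G (ix k))) DB
          (⌊η₀ * J⌋₊ + 20 * (c₀ + ⌊χ * J⌋₊) * DB + c₁) (⌊o (ix n) * J⌋₊ - ⌊o (ix k) * J⌋₊) κ'
          (1 / 2 ^ (C₁ * (⌊χ * J⌋₊ + ⌊χ * J⌋₊ + ⌊gn * J⌋₊ + 1) + 2)) c'
          (2 ^ (3 * (c₀ + ⌊χ * J⌋₊)))) := by
  obtain ⟨C₀, c₀, D₁, hc₀, hbox⟩ := wg_box D Dr hDr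
  obtain ⟨c₁, hbll⟩ := wg_bll DB Dr hDB
  obtain ⟨C₁, hhf⟩ := hyp_frm D 2
  obtain ⟨C₂, hnf⟩ := nh_frn D 2 (by norm_num)
  obtain ⟨K, hK⟩ : ∃ K, K = 2 * C₀ + 2 * D₁ + 4 * C₂ + 4 * C₁ + (4 * D + 8) * (c₀ + 1) + c₀ + 8 :=
    ⟨_, rfl⟩
  refine ⟨K, c₀, C₁, c₁, hc₀, ?_⟩
  intro m r N N₂ n iF iQ S R P θ c C a Eb ε₀ η₀ ζ χ Pt o lv be ix aq e h gn hr hP hS hc hF hQ hix
    Nn κ' c' K₁ hκ' hc' hK₁
  have haq0 : (0 : ℝ) ≤ aq := by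
    have h1 := Nn.oF
    have h2 := Nn.oFk n le_rfl
    have h3 := Nn.onq
    have h4 := Nn.η0
    linarith
  have haq0' : (0 : ℚ) ≤ aq := by exact_mod_cast haq0
  have haq1' : aq ≤ 1 := by exact_mod_cast Nn.a1
  obtain ⟨δ, hδ, hcl1⟩ := hhf hP c aq e h haq0' haq1' Nn.ea Nn.h0 Nn.b1
  obtain ⟨ψ, hψ, hcl2⟩ := hnf hP c aq e h (1 / K₁) (1 / 8) haq0' haq1' Nn.ea Nn.h0 Nn.b1
    (by positivity) (by norm_num)
  obtain ⟨J₁, hnat⟩ := afnn_nat Nn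
  obtain ⟨Mq, hMq⟩ : ∃ Mq : ℝ, Mq = 2 * K₁ / κ' := ⟨_, rfl⟩
  have hMq0 : 0 < Mq := by rw [hMq]; positivity
  obtain ⟨J₂, hJ₂⟩ := exists_nat_ge (2 * Mq / c' / δ)
  refine Bas.mono (max J₁ J₂) ((hcl1.and hcl2).and
    (Pool.V1E.bas_big (tmh_cond hS hψ) K₁)) ?_
  rintro J hJ F A ⟨⟨hcl1, hcl2⟩, hcl3⟩ b κ z B gc gT g₀ G H T TH Gt Ht hBA hPAB hκ hκ2 W
  have hN := hnat J (by omega) (bb := fun k l => ⌊b k l * J⌋₊) (g := g₀) (fun i hi l hl => by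
    have hi' : i ≤ N₂ := by
      rcases hi with rfl | rfl | ⟨k, hk, rfl⟩
      exacts [hF, hQ, hix k hk]
    exact W.wb.g_num hi' (by omega))
  obtain ⟨q₀, hq₀⟩ : ∃ q₀, q₀ = ⌊o (ix 0) * J⌋₊ - ⌊o iF * J⌋₊ := ⟨_, rfl⟩
  obtain ⟨Q, hQ'⟩ : ∃ Q, Q = ⌊o iQ * J⌋₊ - ⌊o (ix 0) * J⌋₊ := ⟨_, rfl⟩
  obtain ⟨x, hx⟩ : ∃ x, x = ⌊χ * J⌋₊ := ⟨_, rfl⟩
  obtain ⟨Gn, hGn⟩ : ∃ Gn, Gn = ⌊gn * J⌋₊ := ⟨_, rfl⟩
  obtain ⟨uB, huB⟩ : ∃ uB, uB = ⌊C * (η₀ * J)⌋₊ := ⟨_, rfl⟩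
  obtain ⟨e₀, he₀⟩ : ∃ e₀, e₀ = ⌊(Eb + 2 * η₀) * J⌋₊ := ⟨_, rfl⟩
  rw [← hq₀, ← hQ', ← hx, ← hGn, ← huB, ← he₀] at hN
  rw [← hx, ← hGn]
  have h0N := hix 0 (Nat.zero_le _)
  obtain ⟨hPB0, hT⟩ := hcl3 B hBA hPAB
  have hJ0 : (0 : ℝ) ≤ J := Nat.cast_nonneg J
  -- the numbers
  obtain ⟨X, hX⟩ : ∃ X, X = x + Gn + 1 := ⟨_, rfl⟩
  obtain ⟨N₁, hN₁⟩ : ∃ N₁, N₁ = C₁ * (x + x + Gn + 1) := ⟨_, rfl⟩
  obtain ⟨N₃, hN₃⟩ : ∃ N₃, N₃ = C₂ * (x + x + Gn + 1) := ⟨_, rfl⟩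
  rw [← hN₁]
  have hN₁K : N₁ ≤ 2 * (C₁ * X) := by
    rw [hN₁, hX]
    have : C₁ * (x + x + Gn + 1) ≤ C₁ * (2 * (x + Gn + 1)) := Nat.mul_le_mul_left _ (by omega)
    linarith
  have hN₃K : N₃ ≤ 2 * (C₂ * X) := by
    rw [hN₃, hX]
    have : C₂ * (x + x + Gn + 1) ≤ C₂ * (2 * (x + Gn + 1)) := Nat.mul_le_mul_left _ (by omega)
    linarith
  have hX1 : 1 ≤ X := by omega
  have hKX : K * X = 2 * (C₀ * X) + 2 * (D₁ * X) + 4 * (C₂ * X) + 4 * (C₁ * X) +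
      (4 * D + 8) * (c₀ + 1) * X + c₀ * X + 8 * X := by
    rw [hK]
    ring
  have hcX : c₀ ≤ c₀ * X := Nat.le_mul_of_pos_right _ hX1
  have kQ := hN.kQ
  have kM := hN.kM
  have ke := hN.ke
  rw [← hX] at kQ kM ke
  obtain ⟨Z, hZ⟩ : ∃ Z, Z = C₀ * (x + x + 1) + (⌊η₀ * J⌋₊ + (c₀ + (x + 2) * D₁)) + 2 * N₃ :=
    ⟨_, rfl⟩
  have hηx : ⌊η₀ * J⌋₊ ≤ x := by
    have h1 : ⌊η₀ * J⌋₊ ≤ uB := by
      rw [huB]
      exact Nat.floor_le_floor (le_mul_of_one_le_left (mul_nonneg Nn.η0 hJ0) Nn.C1)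
    have := hN.hx
    omega
  have hZQ : Z ≤ Q := by
    have h1 : C₀ * (x + x + 1) ≤ 2 * (C₀ * X) := by
      have : C₀ * (x + x + 1) ≤ C₀ * (2 * X) := Nat.mul_le_mul_left _ (by omega)
      linarith
    have h2 : (x + 2) * D₁ ≤ 2 * (D₁ * X) := by
      have : (x + 2) * D₁ ≤ (2 * X) * D₁ := Nat.mul_le_mul_right _ (by omega)
      linarith
    have h3 : 0 ≤ (4 * D + 8) * (c₀ + 1) * X := Nat.zero_le _
    omega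
  obtain ⟨MB, hMB⟩ : ∃ MB, MB = q₀ - Q := ⟨_, rfl⟩
  have hMQ : MB + Q = q₀ := by omega
  have h4D : (4 * D + 8) * (c₀ + x) ≤ (4 * D + 8) * (c₀ + 1) * X := by
    rw [mul_assoc]
    refine Nat.mul_le_mul_left _ ?_
    have : (c₀ + 1) * X = c₀ * X + X := by ring
    omega
  have hee : e₀ = ⌊(Eb + η₀ + η₀) * J⌋₊ := by
    rw [he₀]
    congr 2
    ring
  have FN : FrN F c 2 D MB q₀ Q x x e₀ (g₀ (ix 0)) (fun _ => MB + Q)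
      (fun k => ⌊o (fi3 iF (ix 0) iQ k) * J⌋₊) (fun k l => ⌊b (fi3 iF (ix 0) iQ k) l * J⌋₊)
      (fun k => g₀ (fi3 iF (ix 0) iQ k)) B (fun k => G (fi3 iF (ix 0) iQ k))
      (fun k => H (fi3 iF (ix 0) iQ k)) :=
    wg_frn W hr hc hF h0N hQ Nn.oFQ hN.f1 hN.f2
      ((hN.f3.trans hN.f4).trans hN.f5) (by rw [← huB]; exact hN.hx) hee hN.n0 hN.n2b hN.n2c
      hN.n2d hMQ.le
  have hwn : ⌊o (ix n) * J⌋₊ ≤ ⌊(aq : ℝ) * J⌋₊ := hN.f4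
  have hwQn : ⌊o iQ * J⌋₊ ≤ ⌊o (ix n) * J⌋₊ := hN.f3
  have hw0Q : ⌊o (ix 0) * J⌋₊ ≤ ⌊o iQ * J⌋₊ := by
    have h1 : ⌊o iQ * J⌋₊ = ⌊o (ix 0) * J⌋₊ + Q := hN.f2
    omega
  have haJ : ⌊(aq : ℝ) * J⌋₊ ≤ J := hN.f5
  have Wn := W.wb.ev (ix n) (hix n le_rfl)
  -- the record
  have hzFn := W.zz iF hF (ix n) (hix n le_rfl) (Nn.oFk n le_rfl)
  have hwF : ⌊o iF * J⌋₊ ≤ ⌊o (ix n) * J⌋₊ := by
    have h1 : ⌊o (ix 0) * J⌋₊ = ⌊o iF * J⌋₊ + q₀ := hN.f1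
    omega
  have hqB : ∀ {E : F.Ω → Prop} {ω : F.Ω}, 0 < Pool.Agent.H49.Ent.cond F.p E True ω → E ω :=
    fun {E ω} hω => of_eq_true ((cond_pos_iff F.isLaw.nonneg E True ω).1 hω).2
  have hrec := hcl2 FN hBA (by
      rw [one_div, inv_mul_le_iff₀ hK₁]
      exact hPAB) (A₁ := fun _ => 0) (A₂ := fun _ => 0) (R₁ := fun _ => 0) (R₂ := fun _ => 0)
    (fun _ _ => rfl) (fun _ _ => rfl) (w := ⌊o (ix n) * J⌋₊) (G' := G (ix n)) (H' := H (ix n))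
    (g' := g₀ (ix n)) hwQn hwn (fun ω hω l hl => Wn.cls ω hω l (by omega))
    (fun ω hω l hl => Wn.ball.pos ω hω l (by omega)) (fun l hl => by
      have := hN.r1 l hl
      omega) (fun ω hω l hl b' hb' => by
      have h1 := W.wb.bal iF hF (ix n) (hix n le_rfl) (ix n) (hix n le_rfl) hwF hzFn ω hω l
        (by omega) b' hb'
      refine h1.trans ?_
      rw [div_le_div_iff₀ (by positivity) (by positivity), one_mul, ← pow_add]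
      refine pow_le_pow_right₀ (by norm_num) ?_
      have r1 := hN.r1 l hl
      have r2 := hN.r2 l hl
      rw [← huB]
      rcases min_cases (⌊b iF l * J⌋₊ + (⌊o (ix n) * J⌋₊ - ⌊o iF * J⌋₊)) (g₀ (ix n) l) with
        ⟨h3, -⟩ | ⟨h3, -⟩ <;> rw [h3]
      · have r2' : g₀ (ix 0) l + Q + 2 + uB ≤ ⌊b iF l * J⌋₊ + (⌊o (ix n) * J⌋₊ - ⌊o iF * J⌋₊) :=
          r2
        omega
      · omega) (Gn := Gn) (N₀ := N₃) hN₃ (by omega) (by omega) (fun l hl => by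
      have := hN.kt l hl
      rw [← hX] at this
      show e₀ + g₀ (ix 0) l + Q + N₃ ≤ J
      omega) (fun l hl => hN.kb l hl) (V := MvPolynomial (Option (Fin m)) ℝ) (V' := Unit)
    (v := fun ω => G (ix 0) (ptr F J ω) 0) (v' := fun _ => ())
    (fun ω ω' _ _ hh => by
      show G (ix 0) (ptr F J ω) 0 = G (ix 0) (ptr F J ω') 0
      have hh' : ptr F J ω = ptr F J ω' := hh
      rw [hh']) (fun _ _ _ _ _ => rfl) (fun ω ω' hω hω' hh => by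
      show G (ix 0) (ptr F J ω) 0 = G (ix 0) (ptr F J ω') 0
      have W0 := W.wb.ev (ix 0) h0N
      rw [W0.cls ω (hqB hω) 0 (by omega), W0.cls ω' (hqB hω') 0 (by omega),
        slam_coarse F (hw0Q.trans hwQn) (hwn.trans haJ) ω,
        slam_coarse F (hw0Q.trans hwQn) (hwn.trans haJ) ω', hh]) (fun _ _ _ _ _ => rfl) hT
    (N₃ : ℝ) le_rfl
  have hrec2 : NoHyp (Pool.Agent.H49.Ent.cond F.p B True)
      (XE F c (g₀ (ix 0)) (fun _ => MB + Q) q₀ ⌊o (ix 0) * J⌋₊ (H iF))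
      (flz F c (g₀ (ix 0) 0) Q (G iF) (G (ix 0))) (1 / 2 ^ N₃) (1 / 8) := by
    have e1 : (2 : ℝ) ^ (-(N₃ : ℝ)) = 1 / 2 ^ N₃ := by
      rw [Real.rpow_neg (by norm_num), Real.rpow_natCast, one_div]
    rw [e1] at hrec
    exact NoHyp.coarse hrec (fun ω => cond_nonneg F.isLaw.nonneg B True ω)
      (det_flz FN (G (ix 0)) _ _ _)
  obtain ⟨y, hy⟩ : ∃ y, y = q₀ - x - Z := ⟨_, rfl⟩
  obtain ⟨B', θ', hB', hPB', hD, hEB⟩ := hbox W hr hc hPB0 hκ (iF := iF) (iQ := iQ) (n := n)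
    (x := x) (MB := MB) (q₀ := q₀) (Q := Q) (e := e₀) (Λ := N₃) (Z := Z) (y := y) (y' := N₁ + 3)
    (a' := c₀ + x) (ix := ix) (c' := 1 / 8) FN hF hix Nn.oFk hN.f1
    (fun k hk => ⟨(hN.f6 k hk).1, ((hN.f6 k hk).2.trans hN.f4).trans hN.f5⟩)
    (by rw [← huB]; exact hN.hx) hN.lv1 hN.lv2 (by rw [← huB]; exact hN.bal) hN.x2 hrec2 le_rfl hZ
    hZQ (by omega) rfl (by omega)
  refine ⟨B', y, g₀ (ix 0) 0 - (x + 2), θ', hB', by linarith, hD, hEB, fun k hk => ?_⟩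
  have hPB'0 : 0 < Pe F.p B' := by linarith
  refine hbll W hr hc hPB0 (MB := MB) (q₀ := q₀) (Q := Q) (e := e₀) (y' := N₁ + 3) (N₀ := N₁)
    FN hix hB' hPB' hD hEB hκ'.le hκ2 le_rfl (by omega) (fun B'' hB'' hP'' ζ' Z' hZ' => ?_) k hk
    (hN.f6 k hk).2
  have hPB''0 : 0 < Pe F.p B'' := (mul_pos hκ' hPB'0).trans_le hP''
  have hPA : 0 < Pe F.p A := by
    have h1 : Pe F.p B ≤ Pe F.p A := Pe_mono F.isLaw hBA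
    linarith
  have hAB'' : κ' / (2 * K₁) * Pe F.p A ≤ Pe F.p B'' := by
    refine le_trans ?_ hP''
    rw [div_mul_eq_mul_div, div_le_iff₀ (by positivity)]
    have h1 : Pe F.p A ≤ 2 * K₁ * Pe F.p B' := by
      have h2 := mul_le_mul_of_nonneg_left hPB' hK₁.le
      linarith
    have h3 := mul_le_mul_of_nonneg_left h1 hκ'.le
    linarith
  have hden : ∀ ω, Pool.Agent.H49.Ent.cond F.p B'' True ω * Pe F.p A ≤ Mq * F.p ω := by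
    intro ω
    refine cond_dens (r := F.p) (q := F.p) B'' (A := Pe F.p A) (M := Pe F.p A)
      (c := κ' / (2 * K₁) * Pe F.p A) hPA.le (fun ω => F.isLaw.nonneg ω) (fun ω => by rw [mul_comm])
      (by positivity) hAB'' ω |>.trans (le_of_eq ?_)
    rw [hMq]
    congr 1
    field_simp
  have hfin := hcl1 FN (Gn := Gn) (N₀ := N₁) (w := ⌊o (ix n) * J⌋₊) hN₁ hwQn hwn (by omega)
    (by omega) (fun l hl => by
      have := hN.kt l hl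
      rw [← hX] at this
      show e₀ + g₀ (ix 0) l + Q + N₁ ≤ J
      omega) (fun l hl => hN.kb l hl) (q := Pool.Agent.H49.Ent.cond F.p B'' True) (Mq := Mq)
    (isLaw_cond F.isLaw hPB''0) hMq0.le
    (fun ω hω => ⟨hBA ω (hB' ω (hB'' ω (hqB hω))), hB' ω (hB'' ω (hqB hω))⟩) hden (Z := Z')
    (fun ω ω' hω hω' hh => hZ'.1 ω ω' (hqB hω) (hqB hω') hh)
    (fun ω ω' hω hω' hh => hZ'.2 ω ω' (hqB hω) (hqB hω') hh)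
  refine NoHyp.mono_le hfin ?_
  have h1 : (2 : ℝ) * Mq / c' ≤ δ * J := by
    have h2 : (J₂ : ℝ) ≤ J := by exact_mod_cast (by omega : J₂ ≤ J)
    have h3 := hJ₂.trans h2
    rwa [div_le_iff₀ hδ, mul_comm (J : ℝ)] at h3
  have h2 : 2 * Mq / c' ≤ Real.exp (δ * J) := h1.trans (by
    have := Real.add_one_le_exp (δ * J)
    linarith)
  rw [Real.exp_neg]
  push_cast
  rw [div_le_iff₀ hc'] at h2
  have h3 : 0 < Real.exp (δ * J) := Real.exp_pos _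
  rw [← mul_assoc, ← div_eq_mul_inv, div_le_iff₀ h3]
  linarith

end Pool.AFF82
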