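import Pool.Agent.H76.CNC.Law

/-!
# A degenerate visible form which is small on the fan is small

`deg_pure`, `deg_law`: let `X` be in no hyperplane which is a function of `z`, and let `N` be a
degenerate symmetric form which is a function of `z` and which is at most `e` at `X`. Then off mass
`2 c` all entries of `N` are at most `3 e / η ^ 2`.
-/

set_option autoImplicit false

namespace Pool.AFF82

open Finset Matrix
open Pool.CUB46 (q2 l1)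
open Pool.CNC76 (deg_split)
open Pool.D2Con (NoHyp law_mono')
open Pool.Agent.H49.Ent Pool.Agent.H32.Dense Pool.STK Pool.K2S Pool.D2A

/-- A covector of length at least one, normalised. -/
theorem nrm_cov {h : Fin 3 → ℝ} (h1 : 1 ≤ ∑ j, h j ^ 2) : ∃ g : Fin 3 → ℝ,
    ((∀ j, |g j| ≤ 1) ∧ ∃ j, |g j| = 1) ∧ ∃ M : ℝ, 0 < M ∧ 1 ≤ 3 * M ^ 2 ∧
      ∀ x : Fin 3 → ℝ, |l1 h x| = M * |l1 g x| := by
  obtain ⟨j, -, hj⟩ := Finset.exists_max_image (Finset.univ : Finset (Fin 3)) (fun j => |h j|)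
    ⟨0, Finset.mem_univ _⟩
  obtain ⟨M, hM⟩ : ∃ M, M = |h j| := ⟨_, rfl⟩
  have hj' : ∀ i, |h i| ≤ M := fun i => hM ▸ hj i (Finset.mem_univ i)
  have hM0 : 0 ≤ M := hM ▸ abs_nonneg _
  have h2 : 1 ≤ 3 * M ^ 2 := by
    refine h1.trans ?_
    have h3 : ∀ i, h i ^ 2 ≤ M ^ 2 := fun i => by
      rw [← sq_abs]
      exact pow_le_pow_left₀ (abs_nonneg _) (hj' i) 2
    refine (Finset.sum_le_sum fun i _ => h3 i).trans ?_
    simp
  have hM1 : 0 < M := by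
    rcases hM0.eq_or_lt with h0 | h0
    · rw [← h0] at h2
      norm_num at h2
    · exact h0
  refine ⟨fun i => h i / M, ⟨fun i => ?_, j, ?_⟩, M, hM1, h2, fun x => ?_⟩
  · rw [abs_div, abs_of_pos hM1, div_le_one hM1]
    exact hj' i
  · rw [abs_div, abs_of_pos hM1, ← hM, div_self hM1.ne']
  · have e : l1 h x = M * l1 (fun i => h i / M) x := by
      unfold l1
      rw [Finset.mul_sum]
      refine Finset.sum_congr rfl fun i _ => ?_
      field_simp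
    rw [e, abs_mul, abs_of_pos hM1]

/-- **A degenerate form which is not small.** -/
theorem deg_pure {N : Fin 3 → Fin 3 → ℝ} (hN : ∀ i j, N i j = N j i)
    (hdet : (Matrix.of N).det = 0) {e η : ℝ} (he : 0 ≤ e) (hη : 0 < η)
    (hbig : ∃ i j, 3 * e / η ^ 2 < |N i j|) :
    ∃ g₁ g₂ : Fin 3 → ℝ, ((∀ j, |g₁ j| ≤ 1) ∧ ∃ j, |g₁ j| = 1) ∧
      ((∀ j, |g₂ j| ≤ 1) ∧ ∃ j, |g₂ j| = 1) ∧
      ∀ x : Fin 3 → ℝ, |q2 N x x| ≤ e → |l1 g₁ x| ≤ η ∨ |l1 g₂ x| ≤ η := by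
  obtain ⟨i, j, hij⟩ := hbig
  have h0 : 0 ≤ 3 * e / η ^ 2 := by positivity
  have hn : 0 < |N i j| := h0.trans_lt hij
  obtain ⟨h₁, h₂, p1, p2, -, -, p3⟩ := deg_split hN hdet hn ⟨i, j, le_rfl⟩
  obtain ⟨g₁, q1, M₁, hM₁, r1, s1⟩ := nrm_cov p1
  obtain ⟨g₂, q2', M₂, hM₂, r2, s2⟩ := nrm_cov p2
  refine ⟨g₁, g₂, q1, q2', fun x hx => ?_⟩
  by_contra hcon
  rw [not_or, not_le, not_le] at hcon
  have h3 := p3 x
  rw [s1 x, s2 x] at h3
  have h4 : η * η ≤ |l1 g₁ x| * |l1 g₂ x| :=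
    mul_le_mul hcon.1.le hcon.2.le hη.le (abs_nonneg _)
  have h5 : 1 / 3 ≤ M₁ * M₂ := by
    have h6 : (1 / 3 : ℝ) ^ 2 ≤ (M₁ * M₂) ^ 2 := by
      have := mul_le_mul r1 r2 (by norm_num) (by positivity)
      nlinarith
    exact (pow_le_pow_iff_left₀ (by norm_num) (by positivity) (by norm_num)).1 h6
  have h6 : 1 / 3 * (η * η) ≤ (M₁ * M₂) * (|l1 g₁ x| * |l1 g₂ x|) :=
    mul_le_mul h5 h4 (by positivity) (by positivity)
  have h7 : |N i j| * (1 / 3 * (η * η)) ≤ e := by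
    refine (mul_le_mul_of_nonneg_left h6 hn.le).trans ?_
    have e1 : |N i j| * (M₁ * M₂ * (|l1 g₁ x| * |l1 g₂ x|)) =
      |N i j| * (M₁ * |l1 g₁ x| * (M₂ * |l1 g₂ x|)) := by ring
    rw [e1]
    exact h3.trans hx
  rw [div_lt_iff₀ (by positivity)] at hij
  nlinarith

variable {Ω ζ : Type} [Fintype Ω] {q : Ω → ℝ} {X : Ω → Fin 3 → ℝ} {z : Ω → ζ} {η c : ℝ}

/-- **A degenerate visible form which is small on the fan is small.** -/
theorem deg_law (hq : ∀ ω, 0 ≤ q ω) (h : NoHyp q X z η c) (hη : 0 < η)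
    {N : ζ → Fin 3 → Fin 3 → ℝ} {e : ζ → ℝ} (E : Ω → Prop)
    (h1 : ∀ ω, E ω → ∀ i j, N (z ω) i j = N (z ω) j i)
    (h2 : ∀ ω, E ω → (Matrix.of (N (z ω))).det = 0)
    (he : ∀ ω, E ω → |q2 (N (z ω)) (X ω) (X ω)| ≤ e (z ω)) :
    law q (fun ω => E ω ∧ ∃ i j, 3 * e (z ω) / η ^ 2 < |N (z ω) i j|) True ≤ 2 * c := by
  classical
  obtain ⟨G, hG⟩ : ∃ G : ζ → Prop, G = fun w => (∀ i j, N w i j = N w j i) ∧
    (Matrix.of (N w)).det = 0 ∧ 0 ≤ e w ∧ ∃ i j, 3 * e w / η ^ 2 < |N w i j| := ⟨_, rfl⟩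
  have key : ∀ w, ∃ g : (Fin 3 → ℝ) × (Fin 3 → ℝ), ((∀ j, |g.1 j| ≤ 1) ∧ ∃ j, |g.1 j| = 1) ∧
      ((∀ j, |g.2 j| ≤ 1) ∧ ∃ j, |g.2 j| = 1) ∧ (G w →
        ∀ x : Fin 3 → ℝ, |q2 (N w) x x| ≤ e w → |l1 g.1 x| ≤ η ∨ |l1 g.2 x| ≤ η) := by
    intro w
    by_cases hw : G w
    · have hw' := hw
      rw [hG] at hw'
      obtain ⟨a1, a2, a3, a4⟩ := hw'
      obtain ⟨g₁, g₂, p1, p2, p3⟩ := deg_pure a1 a2 a3 hη a4
      exact ⟨(g₁, g₂), p1, p2, fun _ => p3⟩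
    · exact ⟨(fun _ => 1, fun _ => 1), ⟨fun _ => by simp, 0, by simp⟩,
        ⟨fun _ => by simp, 0, by simp⟩, fun hw' => absurd hw' hw⟩
  choose g p1 p2 p3 using key
  have t1 := h (fun w => (g w).1) fun ω _ => p1 _
  have t2 := h (fun w => (g w).2) fun ω _ => p2 _
  have t3 : law q (fun ω => E ω ∧ ∃ i j, 3 * e (z ω) / η ^ 2 < |N (z ω) i j|) True ≤
      law q (fun ω => |∑ j, (g (z ω)).1 j * X ω j| ≤ η ∨ |∑ j, (g (z ω)).2 j * X ω j| ≤ η) True := by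
    refine law_mono' hq fun ω _ hω => ?_
    obtain ⟨w1, w2⟩ := hω
    refine p3 (z ω) ?_ _ (he ω w1)
    rw [hG]
    exact ⟨h1 ω w1, h2 ω w1, (abs_nonneg _).trans (he ω w1), w2⟩
  refine t3.trans ?_
  have t4 : law q (fun ω => |∑ j, (g (z ω)).1 j * X ω j| ≤ η ∨
      |∑ j, (g (z ω)).2 j * X ω j| ≤ η) True ≤
      law q (fun ω => |∑ j, (g (z ω)).1 j * X ω j| ≤ η) True +
      law q (fun ω => |∑ j, (g (z ω)).2 j * X ω j| ≤ η) True := by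
    unfold law
    rw [← Finset.sum_add_distrib]
    refine Finset.sum_le_sum fun ω _ => ?_
    by_cases c1 : |∑ j, (g (z ω)).1 j * X ω j| ≤ η
    · rw [if_pos (by simp [c1]), if_pos (by simp [c1])]
      refine le_add_of_nonneg_right ?_
      split_ifs
      · exact hq ω
      · exact le_rfl
    · by_cases c2 : |∑ j, (g (z ω)).2 j * X ω j| ≤ η
      · rw [if_pos (by simp [c2]), if_neg (by simp [c1]), if_pos (by simp [c2]), zero_add]
      · rw [if_neg (by simp [c1, c2]), if_neg (by simp [c1]), if_neg (by simp [c2]), zero_add]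
  linarith

end Pool.AFF82
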