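import Pool.Agent.H76.CNC.Bll
import Pool.Agent.H2.GEN.AttF

/-!
# Closed relations

`Clo.ptf`, `Clo.slf`: closed data as functions of the codes. `relvF_clo`: no relation, for a closed
family of polynomials.
-/

set_option autoImplicit false

namespace Pool.AFF82

open Finset Real MvPolynomial
open Pool.Agent.H49.Ent Pool.Agent.H32.Dense Pool.STK Pool.KA Pool.KSAT Pool.K2S Pool.PB Pool.S6C
open Pool.GEN Pool.CHT
open Pool.CNC76 (Clo)

/-- Closed data as a function of the first code. -/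
theorem clo_ptf {Ω P S T : Type} {B : Ω → Prop} {pt : Ω → P} {sl : Ω → S} {f : Ω → T}
    (h : Clo B pt sl f) (t₀ : T) : ∃ φ : P → T, (∀ ω, B ω → φ (pt ω) = f ω) ∧
      ∀ y, φ y = t₀ ∨ ∃ ω, B ω ∧ φ y = f ω := by
  classical
  refine ⟨fun y => if hy : ∃ ω, B ω ∧ pt ω = y then f hy.choose else t₀, fun ω hω => ?_,
    fun y => ?_⟩
  · have hy : ∃ ω', B ω' ∧ pt ω' = pt ω := ⟨ω, hω, rfl⟩
    beta_reduce
    rw [dif_pos hy]
    exact h.1 _ _ hy.choose_spec.1 hω hy.choose_spec.2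
  · by_cases hy : ∃ ω, B ω ∧ pt ω = y
    · right
      refine ⟨hy.choose, hy.choose_spec.1, ?_⟩
      beta_reduce
      rw [dif_pos hy]
    · left
      beta_reduce
      rw [dif_neg hy]

theorem clo_swap {Ω P S T : Type} {B : Ω → Prop} {pt : Ω → P} {sl : Ω → S} {f : Ω → T}
    (h : Clo B pt sl f) : Clo B sl pt f := ⟨h.2, h.1⟩

/-- Splitting. -/
theorem pe_spl {Ω : Type} [Fintype Ω] (p : Ω → ℝ) (A N : Ω → Prop) :
    Pe p A = Pe p (fun ω => A ω ∧ N ω) + Pe p (fun ω => A ω ∧ ¬ N ω) := by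
  classical
  simp_rw [Pe_eq]
  rw [← Finset.sum_add_distrib]
  refine Finset.sum_congr rfl fun ω _ => ?_
  by_cases h1 : A ω <;> by_cases h2 : N ω <;> simp [h1, h2]

/-- An event of positive probability. -/
theorem pe_exs {Ω : Type} [Fintype Ω] {p : Ω → ℝ} {A : Ω → Prop} (h : 0 < Pe p A) :
    ∃ ω, A ω := by
  classical
  by_contra hcon
  push Not at hcon
  rw [Pe_eq, Finset.sum_eq_zero fun ω _ => if_neg (hcon ω)] at h
  exact lt_irrefl _ h

/-- **No relation**, for a closed family of polynomials. -/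
theorem relvF_clo {m J : ℕ} {F : Fam m J} {c : ℕ → Fin m} {i a w : ℕ} {g : ℕ → ℕ} {D h : ℕ}
    {κ : ℝ} {B₀ : F.Ω → Prop} {G : PtT F → ℕ → MvPolynomial (Option (Fin m)) ℝ}
    (H : RelvF F c i a w g D h κ B₀ G) {B' : F.Ω → Prop} (hB : Sub B' B₀)
    (hκ : κ * Pe F.p B₀ ≤ Pe F.p B') {Q : F.Ω → MvPolynomial (Option (Fin m)) ℝ}
    (hQ : Clo B' (fun ω => ptr F J ω) (slam F w) Q) (hd : ∀ ω, B' ω → (Q ω).totalDegree ≤ D)
    (hp : ∀ ω, B' ω → DepC c i (Q ω)) {M : ℝ} (hM : 0 < M)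
    (hs : ∀ ω, B' ω → |eval (bt F ω) (Q ω)| ≤ M) :
    ∃ B'' : F.Ω → Prop, Sub B'' B' ∧ Pe F.p B' / 2 ≤ Pe F.p B'' ∧ ∀ ω, B'' ω →
      ∀ b, NBx c (G (ptr F J ω)) g a (F.t ω) i b → |eval b (Q ω)| ≤ 2 ^ h * M := by
  obtain ⟨φ, h1, h2⟩ := clo_ptf hQ 0
  obtain ⟨ψ, h3, h4⟩ := clo_ptf (clo_swap hQ) 0
  obtain ⟨B'', k1, k2, k3⟩ := H B' hB hκ φ ψ M (fun y => by
      rcases h2 y with e | ⟨ω, hω, e⟩
      · rw [e, totalDegree_zero]
        exact Nat.zero_le _
      · rw [e]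
        exact hd ω hω) (fun s => by
      rcases h4 s with e | ⟨ω, hω, e⟩
      · rw [e, totalDegree_zero]
        exact Nat.zero_le _
      · rw [e]
        exact hd ω hω) (fun y => by
      rcases h2 y with e | ⟨ω, hω, e⟩
      · rw [e]
        exact fun _ _ _ _ => by rw [map_zero, map_zero]
      · rw [e]
        exact hp ω hω) (fun s => by
      rcases h4 s with e | ⟨ω, hω, e⟩
      · rw [e]
        exact fun _ _ _ _ => by rw [map_zero, map_zero]
      · rw [e]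
        exact hp ω hω) hM (fun ω hω => by
      have := h1 ω hω
      beta_reduce at this
      rw [this]
      exact hs ω hω) (fun ω hω b hb => by
      have e1 := h1 ω hω
      beta_reduce at e1
      rw [e1, h3 ω hω, sub_self, abs_zero]
      exact hM.le)
  refine ⟨B'', k1, k2, fun ω hω b hb => ?_⟩
  have e1 := h1 ω (k1 ω hω)
  beta_reduce at e1
  have := k3 ω hω b hb
  rwa [e1] at this

end Pool.AFF82
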