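import Pool.Agent.H82.CNC.Flt
import Pool.Agent.H82.CNC.Rcl

/-!
# The frame chart of `c 1` is flat: the proof

`fl_q2`: the second derivatives at the point of the record are small on the velocity. `flat_ev`: on
half of the event they are small on the box of the ball.
-/

set_option autoImplicit false

namespace Pool.AFF82

open Finset Real MvPolynomial
open Pool.Agent.H49.Ent Pool.Agent.H32.Dense Pool.STK
open Pool.KA Pool.KSAT Pool.K2S Pool.PB Pool.S6C Pool.GEN Pool.D2R Pool.ISO Pool.CHT Pool.CHX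
open Pool.CUB46 (q2 l1)
open Pool.D2Con (NoHyp law_mono')
open Pool.PB.Trl (rt rt_mem t_rt)
open Pool.CNC76 (Clo)

variable {m : ℕ}

theorem slam_T1 {J : ℕ} (F : Fam m J) (o : ℕ) (ω : F.Ω) :
    (slam F o ω).2.2 = F.T ω / 2 ^ (J - o) := rfl

/-- The second derivatives at the point of the record. -/
noncomputable def flN (c : ℕ → Fin m) (o s Q J : ℕ) (z : FlZ m) (i j : Fin 3) : ℝ :=
  eval (fpt c J s Q z) (nfl c o s z.2.2.1 z.2.2.2.1 (z.1 / 2 ^ (J - o)) i j)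

/-- Their size. -/
noncomputable def flS (c : ℕ → Fin m) (o s g J : ℕ) (z : FlZ m) : ℝ :=
  sfl c o s g z.2.2.1 z.2.2.2.1 z.2.2.2.2 (z.1 / 2 ^ (J - o))

/-- The size at the sample. -/
noncomputable def flW {J : ℕ} (F : Fam m J) (c : ℕ → Fin m) (o s g : ℕ)
    (P G : PtT F → ℕ → MvPolynomial (Option (Fin m)) ℝ) (ω : F.Ω) : ℝ :=
  sfl c o s g (P (ptr F J ω) 0) (P (ptr F J ω) 1) (G (ptr F J ω) 0) (slam F o ω).2.2

section data

variable {J : ℕ} {F : Fam m J} {c : ℕ → Fin m} {D f o Q s gf : ℕ} {gb : ℕ → ℕ} {U : ℝ}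
    {h Y Λ : ℕ} {ε κ c₀ : ℝ} {B : F.Ω → Prop}
    {P G : PtT F → ℕ → MvPolynomial (Option (Fin m)) ℝ}
    {PH GH : LnT F → ℕ → MvPolynomial (Option (Fin m)) ℝ} {X : F.Ω → Fin 3 → ℝ}

theorem sfl_nonneg {c : ℕ → Fin m} {o s g : ℕ} {P0 P1 G0 : MvPolynomial (Option (Fin m)) ℝ}
    {n : ℕ} : 0 ≤ sfl c o s g P0 P1 G0 n := by
  unfold sfl
  have h1 := ksp_nonneg (c := c) (G0 := G0) (g := g) (o := o) (t := tmc o n)
    (Q := nfl c o s P0 P1 n 0 0)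
  have h2 := ksp_nonneg (c := c) (G0 := G0) (g := g) (o := o) (t := tmc o n)
    (Q := nfl c o s P0 P1 n 0 1)
  have h3 := ksp_nonneg (c := c) (G0 := G0) (g := g) (o := o) (t := tmc o n)
    (Q := nfl c o s P0 P1 n 1 1)
  linarith

/-- All entries are bounded by the size. -/
theorem nfl_le {c : ℕ → Fin m} {o s g : ℕ} {P0 P1 G0 : MvPolynomial (Option (Fin m)) ℝ} {n : ℕ}
    (hG : DepC c 0 G0) (hP : DepC c 1 P1) (i j : Fin 3) {b : Option (Fin m) → ℝ}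
    (hb : KBx c G0 g o (tmc o n) b) :
    |eval b (nfl c o s P0 P1 n i j)| ≤ sfl c o s g P0 P1 G0 n := by
  have hd : ∀ i j, DepC c 1 (nfl c o s P0 P1 n i j) := fun i j => npl_dep hP i j
  have n1 := ksp_nonneg (c := c) (G0 := G0) (g := g) (o := o) (t := tmc o n)
    (Q := nfl c o s P0 P1 n 0 0)
  have n2 := ksp_nonneg (c := c) (G0 := G0) (g := g) (o := o) (t := tmc o n)
    (Q := nfl c o s P0 P1 n 0 1)
  have n3 := ksp_nonneg (c := c) (G0 := G0) (g := g) (o := o) (t := tmc o n)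
    (Q := nfl c o s P0 P1 n 1 1)
  have k00 := ksp_le hG (hd 0 0) hb
  have k01 := ksp_le hG (hd 0 1) hb
  have k11 := ksp_le hG (hd 1 1) hb
  have k10 : |eval b (nfl c o s P0 P1 n 1 0)| ≤ ksp c G0 g o (tmc o n) (nfl c o s P0 P1 n 0 1) := by
    unfold nfl at k01 ⊢
    rw [npl_symm]
    exact k01
  have kt : ∀ i : Fin 3, eval b (nfl c o s P0 P1 n i 2) = 0 ∧
      eval b (nfl c o s P0 P1 n 2 i) = 0 := fun i => npl_two i b
  unfold sfl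
  fin_cases i <;> fin_cases j
  · exact k00.trans (by linarith)
  · exact k01.trans (by linarith)
  · show |eval b (nfl c o s P0 P1 n 0 2)| ≤ _
    rw [(kt 0).1, abs_zero]
    linarith
  · exact k10.trans (by linarith)
  · exact k11.trans (by linarith)
  · show |eval b (nfl c o s P0 P1 n 1 2)| ≤ _
    rw [(kt 1).1, abs_zero]
    linarith
  · show |eval b (nfl c o s P0 P1 n 2 0)| ≤ _
    rw [(kt 0).2, abs_zero]
    linarith
  · show |eval b (nfl c o s P0 P1 n 2 1)| ≤ _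
    rw [(kt 1).2, abs_zero]
    linarith
  · show |eval b (nfl c o s P0 P1 n 2 2)| ≤ _
    rw [(kt 2).1, abs_zero]
    linarith

/-- The point of the record. -/
theorem FlD.pt (W : FlD F c D f o Q s gf gb U h Y Λ ε κ c₀ B P G PH GH X) (ω : F.Ω) :
    fpt c J s Q (flz F c s Q P G ω) none = bt F ω none ∧
      |bt F ω (some (c 0)) - fpt c J s Q (flz F c s Q P G ω) (some (c 0))| ≤ 1 / 2 ^ (Q + s) := by
  refine ⟨kpt_none _ _ _, ?_⟩
  have e0 : fpt c J s Q (flz F c s Q P G ω) (some (c 0)) =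
      eval (kpt c (F.t ω) 0) (P (ptr F J ω) 0) +
        (⌊2 ^ Q * (2 ^ s * (F.x ω (c 0) - eval (bt F ω) (P (ptr F J ω) 0)))⌋ : ℝ) / 2 ^ (Q + s) :=
    kpt_zero _ _ _
  have e1 : eval (kpt c (F.t ω) 0) (P (ptr F J ω) 0) = eval (bt F ω) (P (ptr F J ω) 0) :=
    W.pP _ 0 _ _ (kpt_none _ _ _) fun l hl => absurd hl (Nat.not_lt_zero l)
  rw [e0, e1]
  obtain ⟨v, hv⟩ : ∃ v, v = F.x ω (c 0) - eval (bt F ω) (P (ptr F J ω) 0) := ⟨_, rfl⟩
  have e2 : bt F ω (some (c 0)) = eval (bt F ω) (P (ptr F J ω) 0) + v := by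
    rw [hv]
    show F.x ω (c 0) = _
    ring
  rw [← hv, e2]
  have p1 : (0 : ℝ) < 2 ^ (Q + s) := by positivity
  have e3 : (2 : ℝ) ^ Q * (2 ^ s * v) = 2 ^ (Q + s) * v := by rw [pow_add]; ring
  rw [e3]
  obtain ⟨y, hy⟩ : ∃ y : ℝ, y = 2 ^ (Q + s) * v := ⟨_, rfl⟩
  rw [← hy]
  have e4 : eval (bt F ω) (P (ptr F J ω) 0) + v - (eval (bt F ω) (P (ptr F J ω) 0) +
      (⌊y⌋ : ℝ) / 2 ^ (Q + s)) = (y - ⌊y⌋) / 2 ^ (Q + s) := by
    rw [hy]
    field_simp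
    ring
  rw [e4, abs_div, abs_of_pos p1]
  refine div_le_div_of_nonneg_right ?_ p1.le
  have h1 := Int.floor_le y
  have h2 := Int.lt_floor_add_one y
  rw [abs_le]
  constructor <;> linarith

end data

/-- The form at the record and at the sample. -/
theorem fl_pure {A B1 E1 m0 m1 m2 x y V L S ε T : ℝ} (hT1 : 1 ≤ T) (hS0 : 0 ≤ S) (hL0 : 0 ≤ L)
    (hε0 : 0 ≤ ε) (hε1 : ε ≤ 1) (dA : |A - m0| ≤ L * S) (dB : |B1 - m1| ≤ L * S)
    (dE : |E1 - m2| ≤ L * S) (bB : |B1| ≤ S) (bE : |E1| ≤ S) (hX1 : |x - y| ≤ ε) (hXY : |x| ≤ T)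
    (hv : A + 2 * B1 * y + E1 * y ^ 2 = V) :
    |m0 + 2 * m1 * x + m2 * x ^ 2| ≤ |V| + (L * (4 * T ^ 2) + ε * (8 * T)) * S := by
  have hLS : 0 ≤ L * S := mul_nonneg hL0 hS0
  have hT0 : 0 ≤ T := by linarith
  have b1 : |m0 - A| ≤ L * S := by rw [abs_sub_comm m0 A]; exact dA
  have b2 : |2 * (m1 - B1) * x| ≤ 2 * (L * S) * T := by
    rw [abs_mul, abs_mul, abs_of_pos (by norm_num : (0 : ℝ) < 2), abs_sub_comm m1 B1]
    exact mul_le_mul (mul_le_mul_of_nonneg_left dB (by norm_num)) hXY (abs_nonneg _)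
      (by positivity)
  have b3 : |(m2 - E1) * x ^ 2| ≤ L * S * T ^ 2 := by
    rw [abs_mul, abs_pow, abs_sub_comm m2 E1]
    exact mul_le_mul dE (pow_le_pow_left₀ (abs_nonneg _) hXY 2) (by positivity) hLS
  have b4 : |2 * B1 * (x - y)| ≤ 2 * S * ε := by
    rw [abs_mul, abs_mul, abs_of_pos (by norm_num : (0 : ℝ) < 2)]
    exact mul_le_mul (mul_le_mul_of_nonneg_left bB (by norm_num)) hX1 (abs_nonneg _)
      (by positivity)
  have b5 : |E1 * (x ^ 2 - y ^ 2)| ≤ S * (ε * (2 * T + 1)) := by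
    have e1 : x ^ 2 - y ^ 2 = (x - y) * (x + y) := by ring
    rw [abs_mul, e1, abs_mul]
    refine mul_le_mul bE (mul_le_mul hX1 ?_ (abs_nonneg _) hε0) (by positivity) hS0
    have h1 : |x + y| ≤ 2 * |x| + |x - y| := by
      have e2 : x + y = 2 * x - (x - y) := by ring
      rw [e2]
      refine (abs_sub _ _).trans ?_
      rw [abs_mul, abs_of_pos (by norm_num : (0 : ℝ) < 2)]
    linarith
  have hq' : m0 + 2 * m1 * x + m2 * x ^ 2 = V + (m0 - A) + 2 * (m1 - B1) * x + (m2 - E1) * x ^ 2 +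
      2 * B1 * (x - y) + E1 * (x ^ 2 - y ^ 2) := by
    rw [← hv]
    ring
  rw [hq']
  have t1 := abs_add_le (V + (m0 - A) + 2 * (m1 - B1) * x + (m2 - E1) * x ^ 2 +
    2 * B1 * (x - y)) (E1 * (x ^ 2 - y ^ 2))
  have t2 := abs_add_le (V + (m0 - A) + 2 * (m1 - B1) * x + (m2 - E1) * x ^ 2)
    (2 * B1 * (x - y))
  have t3 := abs_add_le (V + (m0 - A) + 2 * (m1 - B1) * x) ((m2 - E1) * x ^ 2)
  have t4 := abs_add_le (V + (m0 - A)) (2 * (m1 - B1) * x)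
  have t5 := abs_add_le V (m0 - A)
  have f1 : L * S + 2 * (L * S) * T + L * S * T ^ 2 ≤ L * (4 * T ^ 2) * S := by
    have h1 : 1 + 2 * T + T ^ 2 ≤ 4 * T ^ 2 := by nlinarith
    have h2 := mul_le_mul_of_nonneg_left h1 hLS
    calc L * S + 2 * (L * S) * T + L * S * T ^ 2 = L * S * (1 + 2 * T + T ^ 2) := by ring
      _ ≤ L * S * (4 * T ^ 2) := h2
      _ = _ := by ring
  have f2 : 2 * S * ε + S * (ε * (2 * T + 1)) ≤ ε * (8 * T) * S := by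
    have h1 : 3 + 2 * T ≤ 8 * T := by linarith
    have h2 := mul_le_mul_of_nonneg_left h1 (mul_nonneg hε0 hS0)
    calc 2 * S * ε + S * (ε * (2 * T + 1)) = ε * S * (3 + 2 * T) := by ring
      _ ≤ ε * S * (8 * T) := h2
      _ = _ := by ring
  have e3 : (L * (4 * T ^ 2) + ε * (8 * T)) * S = L * (4 * T ^ 2) * S + ε * (8 * T) * S := by ring
  rw [e3]
  linarith only [t1, t2, t3, t4, t5, b1, b2, b3, b4, b5, f1, f2]

/-- **The second derivatives on the velocity**, at the point of the record. -/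
theorem fl_q2 (D : ℕ) : ∃ C : ℝ, 1 ≤ C ∧ ∀ {m J : ℕ} {F : Fam m J} {c : ℕ → Fin m}
    {f o Q s gf : ℕ} {gb : ℕ → ℕ} {U : ℝ} {h Y Λ : ℕ} {ε κ c₀ : ℝ} {B : F.Ω → Prop}
    {P G : PtT F → ℕ → MvPolynomial (Option (Fin m)) ℝ}
    {PH GH : LnT F → ℕ → MvPolynomial (Option (Fin m)) ℝ} {X : F.Ω → Fin 3 → ℝ},
    FlD F c D f o Q s gf gb U h Y Λ ε κ c₀ B P G PH GH X → gb 0 ≤ Q + s → ∀ ω, B ω →
    |q2 (flN c o s Q J (flz F c s Q P G ω)) (X ω) (X ω)| ≤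
      C * (U / 2 ^ (gf + 2 * (o - f))) +
        (C * (2 ^ gb 0 / 2 ^ (Q + s)) * 2 ^ (2 * Y + 2) + ε * 2 ^ (Y + 3)) *
          flW F c o s (gb 0) P G ω ∧
    ∀ i j, |eval (bt F ω) (nfl c o s (P (ptr F J ω) 0) (P (ptr F J ω) 1) (slam F o ω).2.2 i j) -
      flN c o s Q J (flz F c s Q P G ω) i j| ≤
        C * (2 ^ gb 0 / 2 ^ (Q + s)) * flW F c o s (gb 0) P G ω := by
  obtain ⟨C₁, hC₁, hlip⟩ := npl_lip D
  obtain ⟨C₂, hC₂, hown⟩ := own_der D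
  refine ⟨C₁ + C₂, by linarith, ?_⟩
  intro m J F c f o Q s gf gb U h Y Λ ε κ c₀ B P G PH GH X W hgb ω hω
  obtain ⟨C, hC⟩ : ∃ C, C = C₁ + C₂ := ⟨_, rfl⟩
  rw [← hC]
  have hC1 : C₁ ≤ C := by linarith
  have hC2 : C₂ ≤ C := by linarith
  obtain ⟨P0, hP0⟩ : ∃ P0, P0 = P (ptr F J ω) 0 := ⟨_, rfl⟩
  obtain ⟨P1, hP1⟩ : ∃ P1, P1 = P (ptr F J ω) 1 := ⟨_, rfl⟩
  obtain ⟨G0, hG0⟩ : ∃ G0, G0 = G (ptr F J ω) 0 := ⟨_, rfl⟩
  obtain ⟨n, hn⟩ : ∃ n, n = (slam F o ω).2.2 := ⟨_, rfl⟩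
  obtain ⟨S, hS⟩ : ∃ S, S = flW F c o s (gb 0) P G ω := ⟨_, rfl⟩
  have hS' : S = sfl c o s (gb 0) P0 P1 G0 n := by
    rw [hS, hP0, hP1, hG0, hn]
    rfl
  have hS0 : 0 ≤ S := by
    rw [hS']
    exact sfl_nonneg
  have dG0 : DepC c 0 G0 := by rw [hG0]; exact W.pG _
  have dP1 : DepC c 1 P1 := by rw [hP1]; exact W.pP _ 1
  have hbox : KBx c G0 (gb 0) o (tmc o n) (bt F ω) := by
    rw [hG0, hn]
    exact W.box hω
  obtain ⟨N, hN⟩ : ∃ N : Fin 3 → Fin 3 → MvPolynomial (Option (Fin m)) ℝ,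
    N = nfl c o s P0 P1 n := ⟨_, rfl⟩
  have hNe : ∀ i j, nfl c o s (P (ptr F J ω) 0) (P (ptr F J ω) 1) (slam F o ω).2.2 i j = N i j := by
    intro i j
    rw [hN, hP0, hP1, hn]
  obtain ⟨M, hM⟩ : ∃ M : Fin 3 → Fin 3 → ℝ, M = flN c o s Q J (flz F c s Q P G ω) := ⟨_, rfl⟩
  obtain ⟨z, hz⟩ : ∃ z, z = fpt c J s Q (flz F c s Q P G ω) := ⟨_, rfl⟩
  have hMe : ∀ i j, M i j = eval z (N i j) := by
    intro i j
    rw [hM, hz, hN, hP0, hP1, hn]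
    rfl
  obtain ⟨hz0, hz1⟩ := W.pt ω
  rw [← hz] at hz0 hz1
  obtain ⟨L, hL⟩ : ∃ L, L = C * (2 ^ gb 0 / 2 ^ (Q + s) : ℝ) := ⟨_, rfl⟩
  have hC0 : 0 ≤ C := by linarith
  have hL0 : 0 ≤ L := by
    rw [hL]
    positivity
  -- the entries
  have hent : ∀ i j, |eval (bt F ω) (N i j)| ≤ S := by
    intro i j
    rw [hN, hS']
    exact nfl_le dG0 dP1 i j hbox
  have hdif : ∀ i j, |eval (bt F ω) (N i j) - M i j| ≤ L * S := by
    intro i j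
    have h1 : (1 : ℝ) / 2 ^ (Q + s) ≤ 1 / 2 ^ gb 0 :=
      one_div_le_one_div_of_le (by positivity) (pow_le_pow_right₀ (by norm_num) hgb)
    have h2 := hlip (c := c) (G0 := G0) (Q := N i j) (g := gb 0) (o := o) (t := tmc o n) (S := S)
      dG0 (by rw [hN]; exact npl_dep dP1 i j) (by
        rw [hN]
        exact npl_deg (by rw [hP1]; exact W.dP _ 1) i j) (fun b hb => by
        rw [hN, hS']
        exact nfl_le dG0 dP1 i j hb) (b := bt F ω) (b' := z) hbox hz0 (hz1.trans h1)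
    rw [hMe i j]
    refine h2.trans ?_
    have h3 : (2 : ℝ) ^ gb 0 * |bt F ω (some (c 0)) - z (some (c 0))| ≤
        2 ^ gb 0 / 2 ^ (Q + s) := by
      refine (mul_le_mul_of_nonneg_left hz1 (by positivity)).trans (le_of_eq ?_)
      rw [mul_one_div]
    have h4 : 0 ≤ C₁ * S := by positivity
    refine (mul_le_mul_of_nonneg_left h3 h4).trans ?_
    rw [hL]
    have h5 : (0 : ℝ) ≤ S * (2 ^ gb 0 / 2 ^ (Q + s)) := by positivity
    have h6 := mul_le_mul_of_nonneg_right hC1 h5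
    calc C₁ * S * (2 ^ gb 0 / 2 ^ (Q + s)) = C₁ * (S * (2 ^ gb 0 / 2 ^ (Q + s))) := by ring
      _ ≤ C * (S * (2 ^ gb 0 / 2 ^ (Q + s))) := h6
      _ = _ := by ring
  rw [← hS, ← hM]
  simp only [hNe]
  rw [← hL]
  refine ⟨?_, hdif⟩
  -- the form
  have x0 := W.x0 ω hω
  have hq : q2 M (X ω) (X ω) = M 0 0 + 2 * M 0 1 * X ω 1 + M 1 1 * X ω 1 ^ 2 := by
    have h1 := q2_npl (c := c) (o := o) (s := s) (al := alp c o P0 n) (Q := P1) z x0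
    have h2 : (fun i j => eval z (npl c o s (alp c o P0 n) P1 i j)) = M := by
      funext i j
      rw [hMe i j, hN]
      rfl
    rw [h2] at h1
    rw [h1, hMe, hMe, hMe, hN]
    rfl
  obtain ⟨y, hy⟩ : ∃ y : ℝ, y = 2 ^ s / 2 ^ o * (F.d ω (c 0) - alp c o P0 n) := ⟨_, rfl⟩
  have hv : eval (bt F ω) (N 0 0) + 2 * eval (bt F ω) (N 0 1) * y + eval (bt F ω) (N 1 1) * y ^ 2 =
      (1 / 2 ^ o) ^ 2 * hs P1 (bt F ω) (bd F ω) (bd F ω) := by
    have h1 := npl_vel (c := c) (o := o) (s := s) (al := alp c o P0 n) dP1 (bt F ω)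
      (V := bd F ω) rfl
    rw [hN, hy]
    exact h1
  have hfJ : f ≤ J := W.fo.trans W.oJ
  have hho : |hs P1 (bt F ω) (bd F ω) (bd F ω)| ≤ C₂ * (U / 2 ^ gf) * (2 ^ f) ^ 2 := by
    have h1 := (hown (F := F) (f := f) (ω := ω) (P := P1) (k := c 1) (M := U / 2 ^ gf)
      (by rw [hP1]; exact W.dP _ 1) (fun τ hτ => by
        rw [hP1]
        exact W.own ω hω τ hτ) (rt F f ω) (rt_mem F f ω)).2
    rwa [ptw_rt F hfJ] at h1
  have hU0 : 0 ≤ U := by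
    have h1 := (abs_nonneg _).trans (W.own ω hω 0 ⟨le_rfl, zero_le_one⟩)
    by_contra hcon
    push Not at hcon
    have : U / 2 ^ gf < 0 := div_neg_of_neg_of_pos hcon (by positivity)
    linarith
  have hown1 : |(1 / 2 ^ o : ℝ) ^ 2 * hs P1 (bt F ω) (bd F ω) (bd F ω)| ≤
      C * (U / 2 ^ (gf + 2 * (o - f))) := by
    rw [abs_mul, abs_of_nonneg (by positivity : (0 : ℝ) ≤ (1 / 2 ^ o) ^ 2)]
    refine (mul_le_mul_of_nonneg_left hho (by positivity)).trans ?_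
    obtain ⟨d, hd⟩ : ∃ d, d = o - f := ⟨_, rfl⟩
    have ho : o = f + d := by have := W.fo; omega
    rw [← hd, ho, pow_add 2 gf, pow_add 2 f d]
    have e1 : (1 / (2 ^ f * 2 ^ d) : ℝ) ^ 2 * (C₂ * (U / 2 ^ gf) * (2 ^ f) ^ 2) =
        C₂ * (U / (2 ^ gf * 2 ^ (2 * d))) := by
      rw [mul_comm 2 d, pow_mul 2 d 2]
      field_simp
    rw [e1]
    exact mul_le_mul_of_nonneg_right hC2 (by positivity)
  -- the sum
  have hX1 : |X ω 1 - y| ≤ ε := by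
    rw [hy, hP0, hn]
    exact W.x1 ω hω
  have key := fl_pure (T := 2 ^ Y) (one_le_pow₀ (by norm_num)) hS0 hL0 W.ε0 W.ε1 (hdif 0 0)
    (hdif 0 1) (hdif 1 1) (hent 0 1) (hent 1 1) hX1 (W.xY ω hω) hv
  rw [hq]
  refine key.trans (add_le_add hown1 (le_of_eq ?_))
  have e1 : (2 : ℝ) ^ (2 * Y + 2) = 4 * (2 ^ Y) ^ 2 := by
    rw [pow_add, mul_comm 2 Y, pow_mul 2 Y 2]
    ring
  have e2 : (2 : ℝ) ^ (Y + 3) = 8 * 2 ^ Y := by
    rw [pow_add]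
    ring
  rw [e1, e2]

/-- **The frame chart is flat.** -/
theorem flat_ev (D : ℕ) : ∃ C : ℝ, 1 ≤ C ∧ ∀ {m J : ℕ} {F : Fam m J} {c : ℕ → Fin m}
    {f o Q s gf : ℕ} {gb : ℕ → ℕ} {U : ℝ} {h Y Λ : ℕ} {ε κ c₀ : ℝ} {B : F.Ω → Prop}
    {P G : PtT F → ℕ → MvPolynomial (Option (Fin m)) ℝ}
    {PH GH : LnT F → ℕ → MvPolynomial (Option (Fin m)) ℝ} {X : F.Ω → Fin 3 → ℝ} (Z : ℕ),
    FlD F c D f o Q s gf gb U h Y Λ ε κ c₀ B P G PH GH X → gb 0 ≤ Q + s → κ ≤ 1 / 16 →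
    c₀ ≤ 1 / 8 →
    2 ^ h * (3 * (C * U / 2 ^ Z + (C * (2 ^ gb 0 / 2 ^ (Q + s)) * 2 ^ (2 * Y + 2) +
      ε * 2 ^ (Y + 3))) * 2 ^ (2 * Λ) + C * (2 ^ gb 0 / 2 ^ (Q + s))) ≤ 1 / 4 →
    ∃ B' : F.Ω → Prop, Sub B' B ∧ Pe F.p B / 2 ≤ Pe F.p B' ∧
      ∀ ω, B' ω → flW F c o s (gb 0) P G ω ≤ 2 ^ Z / 2 ^ (gf + 2 * (o - f)) := by
  classical
  obtain ⟨C, hC, hfl⟩ := fl_q2 D
  refine ⟨C, hC, ?_⟩
  intro m J F c f o Q s gf gb U h Y Λ ε κ c₀ B P G PH GH X Z W hgb hκ hc₀ hnum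
  obtain ⟨θ, hθ⟩ : ∃ θ : ℝ, θ = 2 ^ Z / 2 ^ (gf + 2 * (o - f)) := ⟨_, rfl⟩
  obtain ⟨S, hS⟩ : ∃ S, S = flW F c o s (gb 0) P G := ⟨_, rfl⟩
  obtain ⟨L, hL⟩ : ∃ L, L = C * (2 ^ gb 0 / 2 ^ (Q + s) : ℝ) := ⟨_, rfl⟩
  obtain ⟨β, hβ⟩ : ∃ β, β = C * U / 2 ^ Z + (L * 2 ^ (2 * Y + 2) + ε * 2 ^ (Y + 3)) := ⟨_, rfl⟩
  obtain ⟨γ, hγ⟩ : ∃ γ, γ = 3 * β * 2 ^ (2 * Λ) + L := ⟨_, rfl⟩
  rw [← hL, ← hβ, ← hγ] at hnum
  rw [← hS, ← hθ]
  have hC0 : 0 < C := by linarith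
  have hL0 : 0 < L := by
    rw [hL]
    positivity
  have hθ0 : 0 < θ := by
    rw [hθ]
    positivity
  have hp := F.isLaw
  refine ⟨fun ω => B ω ∧ ¬ θ < S ω, fun ω hω => hω.1, ?_, fun ω hω => not_lt.1 hω.2⟩
  by_contra hcon
  rw [not_le] at hcon
  obtain ⟨ω₀, hω₀⟩ := pe_exs W.pe
  have hU0 : 0 ≤ U := by
    have h1 := (abs_nonneg _).trans (W.own ω₀ hω₀ 0 ⟨le_rfl, zero_le_one⟩)
    by_contra hcon
    push Not at hcon
    have : U / 2 ^ gf < 0 := div_neg_of_neg_of_pos hcon (by positivity)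
    linarith
  have hβ0 : 0 ≤ β := by
    have := W.ε0
    rw [hβ]
    positivity
  have hγ0 : 0 < γ := by
    rw [hγ]
    positivity
  -- the bad event
  have s1 := pe_spl F.p B fun ω => θ < S ω
  obtain ⟨E, hE⟩ : ∃ E : F.Ω → Prop, E = fun ω => B ω ∧ θ < S ω := ⟨_, rfl⟩
  have hPE : Pe F.p B / 2 ≤ Pe F.p E := by
    rw [hE]
    linarith
  obtain ⟨Nb, hNb⟩ : ∃ Nb : F.Ω → Prop, Nb = fun ω => ∃ i j, 3 * (β * flS c o s (gb 0) J
    (flz F c s Q P G ω)) / (1 / 2 ^ Λ) ^ 2 < |flN c o s Q J (flz F c s Q P G ω) i j| := ⟨_, rfl⟩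
  have hSz : ∀ ω, flS c o s (gb 0) J (flz F c s Q P G ω) = S ω := fun ω => by
    rw [hS]
    rfl
  have hql : IsLaw (Pool.Agent.H49.Ent.cond F.p B True) := isLaw_cond hp W.pe
  have d1 := deg_law hql.nonneg W.hyp (by positivity) (N := flN c o s Q J)
    (e := fun z => β * flS c o s (gb 0) J z) E (fun ω _ i j => by
      unfold flN nfl
      exact npl_symm i j _) (fun ω _ => by
      exact det_npl _) (fun ω hω => by
      rw [hE] at hω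
      rw [hSz]
      refine ((hfl W hgb ω hω.1).1).trans ?_
      rw [← hL]
      have e1 : flW F c o s (gb 0) P G ω = S ω := by rw [hS]
      rw [e1, hβ, add_mul (C * U / 2 ^ Z)]
      refine add_le_add ?_ le_rfl
      have e2 : C * (U / 2 ^ (gf + 2 * (o - f))) = C * U / 2 ^ Z * θ := by
        rw [hθ]
        field_simp
      rw [e2]
      exact mul_le_mul_of_nonneg_left hω.2.le (by positivity))
  have d2 : Pe F.p (fun ω => E ω ∧ Nb ω) ≤ 2 * c₀ * Pe F.p B := by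
    have h1 : Pe (Pool.Agent.H49.Ent.cond F.p B True) (fun ω => E ω ∧ Nb ω) ≤ 2 * c₀ := by
      rw [hNb]
      exact d1
    rw [Pe_cond, div_le_iff₀ W.pe] at h1
    refine le_trans (le_of_eq ?_) h1
    congr 1
    funext ω
    rw [hE]
    simp only [eq_iff_iff]
    tauto
  have s2 := pe_spl F.p E Nb
  obtain ⟨E', hE'⟩ : ∃ E' : F.Ω → Prop, E' = fun ω => E ω ∧ ¬ Nb ω := ⟨_, rfl⟩
  have hPE' : Pe F.p B / 4 ≤ Pe F.p E' := by
    rw [hE']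
    have h1 : 2 * c₀ * Pe F.p B ≤ 1 / 4 * Pe F.p B :=
      mul_le_mul_of_nonneg_right (by linarith) W.pe.le
    linarith
  have hE'E : ∀ ω, E' ω → B ω ∧ θ < S ω := fun ω hω => by
    rw [hE', hE] at hω
    exact hω.1
  -- the closed data
  obtain ⟨K, hK⟩ : ∃ K : F.Ω → MvPolynomial (Option (Fin m)) ℝ ×
      (MvPolynomial (Option (Fin m)) ℝ × (MvPolynomial (Option (Fin m)) ℝ × ℕ)), K = fun ω =>
    (P (ptr F J ω) 0, (P (ptr F J ω) 1, (G (ptr F J ω) 0, (slam F o ω).2.2))) := ⟨_, rfl⟩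
  have hcK : Clo B (fun ω => ptr F J ω) (slam F o) K := by
    refine ⟨fun ω ω' _ _ hh => ?_, fun ω ω' hω hω' hh => ?_⟩
    · beta_reduce at hh
      have h1 : (slam F o ω).2.2 = (slam F o ω').2.2 := by
        rw [slam_T1, slam_T1, (bt_near hh).1]
      rw [hK]
      beta_reduce
      rw [hh, h1]
    · have h1 : slam F f ω = slam F f ω' := by
        rw [slam_coarse F W.fo W.oJ ω, slam_coarse F W.fo W.oJ ω', hh]
      rw [hK]
      beta_reduce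
      rw [W.clP ω hω 0 (by norm_num), W.clP ω' hω' 0 (by norm_num), W.clP ω hω 1 (by norm_num),
        W.clP ω' hω' 1 (by norm_num), W.clG ω hω, W.clG ω' hω', hh, h1]
  obtain ⟨R, hR⟩ : ∃ R : Fin 3 → Fin 3 → F.Ω → MvPolynomial (Option (Fin m)) ℝ, R = fun i j ω =>
    MvPolynomial.C (1 / sfl c o s (gb 0) (K ω).1 (K ω).2.1 (K ω).2.2.1 (K ω).2.2.2) *
      nfl c o s (K ω).1 (K ω).2.1 (K ω).2.2.2 i j := ⟨_, rfl⟩
  have hRe : ∀ i j ω b, eval b (R i j ω) = 1 / S ω * eval b (nfl c o s (P (ptr F J ω) 0)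
      (P (ptr F J ω) 1) (slam F o ω).2.2 i j) := by
    intro i j ω b
    rw [hR]
    beta_reduce
    rw [map_mul, eval_C, hK, hS]
    rfl
  have hcR : ∀ i j, Clo B (fun ω => ptr F J ω) (slam F o) (R i j) := by
    intro i j
    rw [hR]
    exact hcK.map fun k => MvPolynomial.C (1 / sfl c o s (gb 0) k.1 k.2.1 k.2.2.1 k.2.2.2) *
      nfl c o s k.1 k.2.1 k.2.2.2 i j
  have hdR : ∀ i j ω, (R i j ω).totalDegree ≤ D := by
    intro i j ω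
    rw [hR]
    beta_reduce
    refine (totalDegree_mul _ _).trans ?_
    rw [totalDegree_C, zero_add, hK]
    exact npl_deg (W.dP _ _) i j
  have hpR : ∀ i j ω, DepC c 1 (R i j ω) := by
    intro i j ω b b' h0 h1
    rw [hRe, hRe]
    congr 1
    exact npl_dep (W.pP _ 1) i j b b' h0 h1
  have hsR : ∀ i j ω, E' ω → |eval (bt F ω) (R i j ω)| ≤ γ := by
    intro i j ω hω
    obtain ⟨h1, h2⟩ := hE'E ω hω
    have hSp : 0 < S ω := hθ0.trans h2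
    rw [hRe, abs_mul, abs_of_pos (by positivity : 0 < 1 / S ω), one_div, inv_mul_le_iff₀ hSp]
    have h3 := (hfl W hgb ω h1).2 i j
    rw [← hL] at h3
    have e1 : flW F c o s (gb 0) P G ω = S ω := by rw [hS]
    rw [e1] at h3
    have h4 : |flN c o s Q J (flz F c s Q P G ω) i j| ≤ 3 * β * 2 ^ (2 * Λ) * S ω := by
      rw [hE', hNb] at hω
      have h5 := hω.2
      push Not at h5
      refine (h5 i j).trans (le_of_eq ?_)
      rw [hSz, mul_comm 2 Λ, pow_mul 2 Λ 2]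
      field_simp
    have h5 := abs_sub_le (eval (bt F ω) (nfl c o s (P (ptr F J ω) 0) (P (ptr F J ω) 1)
      (slam F o ω).2.2 i j)) (flN c o s Q J (flz F c s Q P G ω) i j) 0
    rw [sub_zero, sub_zero] at h5
    rw [hγ]
    have e2 : S ω * (3 * β * 2 ^ (2 * Λ) + L) = 3 * β * 2 ^ (2 * Λ) * S ω + L * S ω := by ring
    rw [e2]
    linarith
  have sub : ∀ {B₁ : F.Ω → Prop}, Sub B₁ E' → Sub B₁ B := fun h1 ω hω => (hE'E ω (h1 ω hω)).1
  have kap : ∀ {B₁ : F.Ω → Prop}, Pe F.p B / 16 ≤ Pe F.p B₁ → κ * Pe F.p B ≤ Pe F.p B₁ :=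
    fun h1 => (mul_le_mul_of_nonneg_right hκ W.pe.le).trans (by linarith)
  have hpe := W.pe
  -- the three components
  obtain ⟨E₁, a1, a2, a3⟩ := relvF_clo W.rel (sub fun _ h => h) (kap (by linarith))
    ((hcR 0 0).sub fun ω hω => (hE'E ω hω).1) (fun ω _ => hdR 0 0 ω) (fun ω _ => hpR 0 0 ω) hγ0
    (fun ω hω => hsR 0 0 ω hω)
  obtain ⟨E₂, b1, b2, b3⟩ := relvF_clo W.rel (sub a1) (kap (by linarith))
    ((hcR 0 1).sub (sub a1)) (fun ω _ => hdR 0 1 ω) (fun ω _ => hpR 0 1 ω) hγ0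
    (fun ω hω => hsR 0 1 ω (a1 ω hω))
  obtain ⟨E₃, c1, c2, c3⟩ := relvF_clo W.rel (sub (b1.trans a1)) (kap (by linarith))
    ((hcR 1 1).sub (sub (b1.trans a1))) (fun ω _ => hdR 1 1 ω) (fun ω _ => hpR 1 1 ω) hγ0
    (fun ω hω => hsR 1 1 ω (a1 ω (b1 ω hω)))
  obtain ⟨ω, hω⟩ := pe_exs (show 0 < Pe F.p E₃ by linarith)
  obtain ⟨hωB, hωS⟩ := hE'E ω (a1 ω (b1 ω (c1 ω hω)))
  have hSp : 0 < S ω := hθ0.trans hωS
  have hbx := W.box hωB
  have hnb : ∀ b, KBx c (G (ptr F J ω) 0) (gb 0) o (tmc o (slam F o ω).2.2) b →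
      NBx c (G (ptr F J ω)) gb o (F.t ω) 1 b := by
    intro b hb
    refine ⟨?_, fun l hl => ?_⟩
    · have k1 := hbx.1
      have k2 := hbx.2.1
      have k3 : bt F ω none = F.t ω := rfl
      rw [k3] at k1 k2
      rw [abs_le]
      constructor <;> linarith [hb.1, hb.2.1]
    · have : l = 0 := by omega
      subst this
      exact hb.2.2
  have fin : ∀ i j, (∀ b, NBx c (G (ptr F J ω)) gb o (F.t ω) 1 b →
      |eval b (R i j ω)| ≤ 2 ^ h * γ) → ksp c (G (ptr F J ω) 0) (gb 0) o (tmc o (slam F o ω).2.2)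
        (nfl c o s (P (ptr F J ω) 0) (P (ptr F J ω) 1) (slam F o ω).2.2 i j) ≤
      2 ^ h * γ * S ω := by
    intro i j hb
    refine ksp_of (W.pG _) fun b hb' => ?_
    have h1 := hb b (hnb b hb')
    rw [hRe, abs_mul, abs_of_pos (by positivity : 0 < 1 / S ω), one_div, inv_mul_le_iff₀ hSp] at h1
    linarith
  have f1 := fin 0 0 (a3 ω (b1 ω (c1 ω hω)))
  have f2 := fin 0 1 (b3 ω (c1 ω hω))
  have f3 := fin 1 1 (c3 ω hω)
  have e1 : S ω = ksp c (G (ptr F J ω) 0) (gb 0) o (tmc o (slam F o ω).2.2)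
        (nfl c o s (P (ptr F J ω) 0) (P (ptr F J ω) 1) (slam F o ω).2.2 0 0) +
      ksp c (G (ptr F J ω) 0) (gb 0) o (tmc o (slam F o ω).2.2)
        (nfl c o s (P (ptr F J ω) 0) (P (ptr F J ω) 1) (slam F o ω).2.2 0 1) +
      ksp c (G (ptr F J ω) 0) (gb 0) o (tmc o (slam F o ω).2.2)
        (nfl c o s (P (ptr F J ω) 0) (P (ptr F J ω) 1) (slam F o ω).2.2 1 1) := by
    rw [hS]
    rfl
  have f4 := mul_le_mul_of_nonneg_right hnum hSp.le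
  linarith

end Pool.AFF82
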