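import Pool.Agent.H82.CNC.Ksp
import Pool.Agent.H42.D2.Nho

/-!
# The frame chart of `c 1` is flat

`FlD`: a frame chart of `c 1` (window `f`), with small own path, and a ball of the coordinate `c 0`
(window `o`) without relations; velocities which are in no hyperplane. `flat_ev`: on half of the
event the second derivatives of the frame chart are small on the box of the ball.
-/

set_option autoImplicit false

namespace Pool.AFF82

open Finset Real MvPolynomial
open Pool.Agent.H49.Ent Pool.Agent.H32.Dense Pool.STK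
open Pool.KA Pool.KSAT Pool.K2S Pool.PB Pool.S6C Pool.GEN Pool.D2R Pool.ISO Pool.CHT Pool.CHX
open Pool.CUB46 (q2 l1)
open Pool.D2Con (NoHyp law_mono')
open Pool.PB.Trl (rt rt_mem t_rt)

variable {m : ℕ}

/-- The closed time. -/
noncomputable def tmc (o n : ℕ) : ℝ := (n : ℝ) / 2 ^ o

/-- The slope of the frame at the closed time. -/
noncomputable def alp (c : ℕ → Fin m) (o : ℕ) (P0 : MvPolynomial (Option (Fin m)) ℝ) (n : ℕ) : ℝ :=
  eval (kpt c (tmc o n) 0) (pderiv none P0)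

/-- The second derivatives, from the closed data. -/
noncomputable def nfl (c : ℕ → Fin m) (o s : ℕ) (P0 P1 : MvPolynomial (Option (Fin m)) ℝ) (n : ℕ) :
    Fin 3 → Fin 3 → MvPolynomial (Option (Fin m)) ℝ := npl c o s (alp c o P0 n) P1

/-- The size of the second derivatives. -/
noncomputable def sfl (c : ℕ → Fin m) (o s g : ℕ) (P0 P1 G0 : MvPolynomial (Option (Fin m)) ℝ)
    (n : ℕ) : ℝ :=
  ksp c G0 g o (tmc o n) (nfl c o s P0 P1 n 0 0) + ksp c G0 g o (tmc o n) (nfl c o s P0 P1 n 0 1) +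
    ksp c G0 g o (tmc o n) (nfl c o s P0 P1 n 1 1)

/-- The type of the record. -/
abbrev FlZ (m : ℕ) : Type := ℕ × ℤ × (MvPolynomial (Option (Fin m)) ℝ ×
  MvPolynomial (Option (Fin m)) ℝ × MvPolynomial (Option (Fin m)) ℝ)

/-- **The record**: time, cell, charts. -/
noncomputable def flz {J : ℕ} (F : Fam m J) (c : ℕ → Fin m) (s Q : ℕ)
    (P G : PtT F → ℕ → MvPolynomial (Option (Fin m)) ℝ) (ω : F.Ω) : FlZ m :=
  (F.T ω, ⌊2 ^ Q * (2 ^ s * (F.x ω (c 0) - eval (bt F ω) (P (ptr F J ω) 0)))⌋,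
    (P (ptr F J ω) 0, P (ptr F J ω) 1, G (ptr F J ω) 0))

/-- The point of the record. -/
noncomputable def fpt (c : ℕ → Fin m) (J s Q : ℕ) (z : FlZ m) : Option (Fin m) → ℝ :=
  kpt c (z.1 / 2 ^ J) (eval (kpt c (z.1 / 2 ^ J) 0) z.2.2.1 + z.2.1 / 2 ^ (Q + s))

/-- **The data.** -/
structure FlD {J : ℕ} (F : Fam m J) (c : ℕ → Fin m) (D f o Q s gf : ℕ) (gb : ℕ → ℕ) (U : ℝ)
    (h Y Λ : ℕ) (ε κ c₀ : ℝ) (B : F.Ω → Prop)
    (P G : PtT F → ℕ → MvPolynomial (Option (Fin m)) ℝ)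
    (PH GH : LnT F → ℕ → MvPolynomial (Option (Fin m)) ℝ) (X : F.Ω → Fin 3 → ℝ) : Prop where
  pe : 0 < Pe F.p B
  fo : f ≤ o
  oJ : o ≤ J
  dP : ∀ y l, (P y l).totalDegree ≤ D
  pP : ∀ y l, DepC c l (P y l)
  pG : ∀ y, DepC c 0 (G y 0)
  clP : ∀ ω, B ω → ∀ l < 2, P (ptr F J ω) l = PH (slam F f ω) l
  clG : ∀ ω, B ω → G (ptr F J ω) 0 = GH (slam F o ω) 0
  own : ∀ ω, B ω → ∀ τ ∈ Set.Icc (0 : ℝ) 1,
    |ptw F f ω τ (some (c 1)) - eval (ptw F f ω τ) (P (ptr F J ω) 1)| ≤ U / 2 ^ gf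
  pos : ∀ ω, B ω → |F.x ω (c 0) - eval (bt F ω) (G (ptr F J ω) 0)| ≤ 1 / 2 ^ gb 0
  rel : RelvF F c 1 o o gb D h κ B G
  hyp : NoHyp (Pool.Agent.H49.Ent.cond F.p B True) X (flz F c s Q P G) (1 / 2 ^ Λ) c₀
  x0 : ∀ ω, B ω → X ω 0 = 1
  xY : ∀ ω, B ω → |X ω 1| ≤ 2 ^ Y
  x1 : ∀ ω, B ω →
    |X ω 1 - 2 ^ s / 2 ^ o * (F.d ω (c 0) - alp c o (P (ptr F J ω) 0) (slam F o ω).2.2)| ≤ ε
  ε0 : 0 ≤ ε
  ε1 : ε ≤ 1

section data

variable {J : ℕ} {F : Fam m J} {c : ℕ → Fin m} {D f o Q s gf : ℕ} {gb : ℕ → ℕ} {U : ℝ}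
    {h Y Λ : ℕ} {ε κ c₀ : ℝ} {B : F.Ω → Prop}
    {P G : PtT F → ℕ → MvPolynomial (Option (Fin m)) ℝ}
    {PH GH : LnT F → ℕ → MvPolynomial (Option (Fin m)) ℝ} {X : F.Ω → Fin 3 → ℝ}

/-- The sample is in the box. -/
theorem FlD.box (W : FlD F c D f o Q s gf gb U h Y Λ ε κ c₀ B P G PH GH X) {ω : F.Ω} (hω : B ω) :
    KBx c (G (ptr F J ω) 0) (gb 0) o (tmc o (slam F o ω).2.2) (bt F ω) := by
  have h1 := t_rt F W.oJ ω
  have h2 := rt_mem F o ω
  have po : (0 : ℝ) < 2 ^ o := by positivity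
  refine ⟨?_, ?_, W.pos ω hω⟩
  · show _ ≤ F.t ω
    rw [h1]
    unfold tmc
    exact div_le_div_of_nonneg_right (by linarith [h2.1]) po.le
  · show F.t ω ≤ _
    rw [h1]
    unfold tmc
    rw [← add_div]
    exact div_le_div_of_nonneg_right (by linarith [h2.2]) po.le

end data

/-- **Lipschitz in the coordinate `c 0`.** -/
theorem npl_lip (D : ℕ) : ∃ C : ℝ, 1 ≤ C ∧ ∀ {m : ℕ} {c : ℕ → Fin m}
    {G0 Q : MvPolynomial (Option (Fin m)) ℝ} {g o : ℕ} {t S : ℝ}, DepC c 0 G0 → DepC c 1 Q →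
    Q.totalDegree ≤ D → (∀ b, KBx c G0 g o t b → |eval b Q| ≤ S) → ∀ {b b' : Option (Fin m) → ℝ},
    KBx c G0 g o t b → b' none = b none → |b (some (c 0)) - b' (some (c 0))| ≤ 1 / 2 ^ g →
    |eval b Q - eval b' Q| ≤ C * S * (2 ^ g * |b (some (c 0)) - b' (some (c 0))|) := by
  obtain ⟨C, hC, hl⟩ := uni_lip D
  refine ⟨C, hC, ?_⟩
  intro m c G0 Q g o t S hG hQ hQd hS b b' hb hn hbb
  have pg : (0 : ℝ) < 2 ^ g := by positivity
  obtain ⟨g0, hg0⟩ : ∃ g0, g0 = eval b G0 := ⟨_, rfl⟩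
  obtain ⟨ln, hln⟩ : ∃ ln : Option (Fin m) → Polynomial ℝ, ln = fun k =>
      if k = none then Polynomial.C (b none) else if k = some (c 0) then
        Polynomial.C g0 + Polynomial.C (1 / 2 ^ g) * Polynomial.X else 0 := ⟨_, rfl⟩
  have hlnd : ∀ k, (ln k).natDegree ≤ 1 := by
    intro k
    rw [hln]
    show (if k = none then Polynomial.C (b none) else if k = some (c 0) then
        Polynomial.C g0 + Polynomial.C (1 / 2 ^ g) * Polynomial.X else 0).natDegree ≤ 1
    split_ifs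
    · rw [Polynomial.natDegree_C]
      exact Nat.zero_le _
    · exact (Polynomial.natDegree_add_le _ _).trans (max_le (by
        rw [Polynomial.natDegree_C]
        exact Nat.zero_le _)
        ((Polynomial.natDegree_C_mul_le _ _).trans Polynomial.natDegree_X_le))
    · rw [Polynomial.natDegree_zero]
      exact Nat.zero_le _
  have hln0 : ∀ x, (ln none).eval x = b none := fun x => by
    rw [hln]
    show (if (none : Option (Fin m)) = none then Polynomial.C (b none) else _).eval x = _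
    rw [if_pos rfl, Polynomial.eval_C]
  have hln1 : ∀ x, (ln (some (c 0))).eval x = g0 + 1 / 2 ^ g * x := fun x => by
    rw [hln]
    show (if some (c 0) = none then Polynomial.C (b none) else if some (c 0) = some (c 0) then
        Polynomial.C g0 + Polynomial.C (1 / 2 ^ g) * Polynomial.X else 0).eval x = _
    rw [if_neg (by simp), if_pos rfl, Polynomial.eval_add, Polynomial.eval_mul, Polynomial.eval_C,
      Polynomial.eval_C, Polynomial.eval_X]
  have hev : ∀ y : Option (Fin m) → ℝ, y none = b none →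
      (MvPolynomial.aeval ln Q).eval (2 ^ g * (y (some (c 0)) - g0)) = eval y Q := by
    intro y hy
    rw [Pool.KBX.eval_aeval_poly]
    refine hQ _ _ ?_ fun l hl => ?_
    · show (ln none).eval _ = _
      rw [hln0, hy]
    · have : l = 0 := by omega
      subst this
      show (ln (some (c 0))).eval _ = _
      rw [hln1]
      field_simp
      ring
  have hM : ∀ x ∈ Set.Icc (0 : ℝ) 1, |(MvPolynomial.aeval ln Q).eval x| ≤ S := by
    intro x hx
    rw [Pool.KBX.eval_aeval_poly]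
    refine hS _ ⟨?_, ?_, ?_⟩
    · show t ≤ (ln none).eval x
      rw [hln0]
      exact hb.1
    · show (ln none).eval x ≤ _
      rw [hln0]
      exact hb.2.1
    · show |(ln (some (c 0))).eval x - _| ≤ _
      have e1 : eval (fun k => (ln k).eval x) G0 = g0 := by
        rw [hg0]
        exact hG _ _ (hln0 x) fun l hl => absurd hl (Nat.not_lt_zero l)
      rw [e1, hln1, add_sub_cancel_left, abs_mul, abs_of_pos (by positivity : (0 : ℝ) < 1 / 2 ^ g),
        abs_of_nonneg hx.1]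
      exact mul_le_of_le_one_right (by positivity) hx.2
  have h3 := hb.2.2
  rw [← hg0, le_div_iff₀ pg] at h3
  rw [le_div_iff₀ pg] at hbb
  have k1 : |2 ^ g * (b (some (c 0)) - g0)| ≤ 2 := by
    rw [abs_mul, abs_of_pos pg]
    linarith
  have k2 : |2 ^ g * (b' (some (c 0)) - g0)| ≤ 2 := by
    rw [abs_mul, abs_of_pos pg]
    have := abs_sub_le (b' (some (c 0))) (b (some (c 0))) g0
    rw [abs_sub_comm (b' (some (c 0))) (b (some (c 0)))] at this
    have h5 := mul_le_mul_of_nonneg_right this pg.le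
    rw [add_mul] at h5
    linarith
  have h4 := hl _ S (Pool.KBX.natDegree_aeval_le Q ln hlnd hQd |>.trans (le_of_eq (by ring))) hM
    _ _ k1 k2
  rw [hev b rfl, hev b' hn] at h4
  refine h4.trans (le_of_eq ?_)
  rw [← mul_sub, abs_mul, abs_of_pos pg]
  congr 2
  congr 1
  ring

end Pool.AFF82
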