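import Pool.Agent.H82.CNC.Blk
import Pool.Agent.H28.CNC.Cor

/-!
# The frame and the cubes of a chain of windows

`AfD.frm`: `Frm` of the chain `k + 1`, `k ≤ n'`, of the windows of the affine frame.
-/

set_option autoImplicit false

namespace Pool.AFF82

open Finset Real MvPolynomial
open Pool.Agent.H49.Ent Pool.Agent.H32.Dense Pool.STK
open Pool.KA Pool.KSAT Pool.K2S Pool.PB Pool.S6C Pool.GEN Pool.D2R Pool.ISO Pool.CHT Pool.CHX
open Pool.CNC76 Pool.CNC28

variable {m J : ℕ} {F : Fam m J} {c : ℕ → Fin m} {D n f x y : ℕ} {w s gf : ℕ → ℕ}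
  {g : ℕ → ℕ → ℕ} {gx : ℕ} {θ : ℝ} {B : F.Ω → Prop}
  {P : PtT F → ℕ → MvPolynomial (Option (Fin m)) ℝ}
  {PH : LnT F → ℕ → MvPolynomial (Option (Fin m)) ℝ}
  {G : ℕ → PtT F → ℕ → MvPolynomial (Option (Fin m)) ℝ}
  {H : ℕ → LnT F → ℕ → MvPolynomial (Option (Fin m)) ℝ} {a n' : ℕ} {jx : ℕ → ℕ}

/-- The radii, in powers. -/
theorem rk_eq (a : ℕ) (w : ℕ → ℕ) (k : ℕ) : rk a w k = 2 ^ (8 * a + w 0) / 2 ^ w k := by
  unfold rk ru
  rw [pow_add]
  ring

/-- **The frame and the cubes** of the chain `jx`. -/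
theorem AfD.frm (W : AfD F c D n f x y w s gf g gx θ B P PH G H) (ha : 1 ≤ a)
    (hB : ∀ k ≤ n, ∀ ω, B ω → AfB F c a w s g P G k ω) (hj : ∀ k ≤ n', jx k ≤ n)
    (h8 : ∀ k ≤ n', 8 * a + w 0 ≤ w (jx k)) (hd : ∀ i ≤ n', ∀ k ≤ n', i < k →
      w (jx i) + 2 ≤ w (jx k)) :
    Frm F c B n' (fun k => w (jx k)) (fun k => g (jx k)) (fun k => G (jx k)) (afr F c w P G)
      (w 0) (s 0) (s 1) (20 * a) (fun k => aC F c w s P G (jx k)) (fun k => rk a w (jx k)) where
  sm1 := by omega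
  Nc := fun k hk => W.fr_clk (hj k hk)
  cc := fun k hk => W.ctr_clo (hj k hk)
  ρ0 := fun k hk => ⟨rk_pos a w _, by
    show rk a w (jx k) ≤ 1
    rw [rk_eq, div_le_one (by positivity)]
    exact pow_le_pow_right₀ (by norm_num) (h8 k hk)⟩
  ρd := fun i hi k hk hik => by
    show 4 * rk a w (jx k) ≤ rk a w (jx i)
    rw [rk_eq, rk_eq, ← mul_div_assoc, div_le_div_iff₀ (by positivity) (by positivity)]
    have e1 : (4 : ℝ) = 2 ^ 2 := by norm_num
    rw [e1, ← pow_add, ← pow_add, ← pow_add]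
    refine pow_le_pow_right₀ (by norm_num) ?_
    have := hd i hi k hk hik
    omega
  ρw := fun k hk => by
    show rk a w (jx k) ≤ 2 ^ (20 * a) * (2 ^ w 0 / 2 ^ w (jx k))
    rw [rk_eq, ← mul_div_assoc, ← pow_add]
    exact div_le_div_of_nonneg_right (pow_le_pow_right₀ (by norm_num) (by omega)) (by positivity)
  sml := fun k hk ω hω b hb u => by
    have h1 := (hB (jx k) (hj k hk) ω hω).inn (afp c (afr F c w P G ω) (w 0) (s 0) (s 1) u b)
      fun i => by
        rw [afc_afp W.hc]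
        refine (hb i).trans (le_of_eq ?_)
        show rk a w (jx k) / 2 ^ (20 * a) = ru w (jx k) / 2 ^ (12 * a)
        unfold rk
        have e1 : (20 : ℕ) * a = 8 * a + 12 * a := by ring
        rw [e1, pow_add, mul_div_mul_left _ _ (by positivity)]
    exact h1

end Pool.AFF82
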