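import Pool.Agent.H82.CNC.Geo

/-!
# The geometry of the affine frame, II

`Rg`: near the own line. `AfE`: the estimates which hold at every sample: `afd_est`.
-/

set_option autoImplicit false

namespace Pool.AFF82

open Finset Real MvPolynomial
open Pool.Agent.H49.Ent Pool.Agent.H32.Dense Pool.STK
open Pool.KA Pool.KSAT Pool.K2S Pool.PB Pool.S6C Pool.GEN Pool.D2R Pool.ISO Pool.CHT Pool.CHX
open Pool.PB.Trl (rt rt_mem t_rt)

variable {m J : ℕ}

/-- **Near the own line**, in the plane. -/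
def Rg (F : Fam m J) (c : ℕ → Fin m) (w s : ℕ → ℕ) (K : ℕ) (ω : F.Ω)
    (q : Option (Fin m) → ℝ) : Prop :=
  |2 ^ w 0 * (q none - F.t ω)| ≤ 3 ∧
    |2 ^ s 0 * (q (some (c 0)) - oln F ω (q none) (some (c 0)))| ≤ 2 ^ K

theorem Rg.seg {F : Fam m J} {c : ℕ → Fin m} {w s : ℕ → ℕ} {K : ℕ} {ω : F.Ω}
    {p q : Option (Fin m) → ℝ} (hp : Rg F c w s K ω p) (hq : Rg F c w s K ω q) {u : ℝ}
    (h0 : 0 ≤ u) (h1 : u ≤ 1) : Rg F c w s K ω (fun o => p o + u * (q o - p o)) := by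
  have key : ∀ {a b M : ℝ}, |a| ≤ M → |b| ≤ M → |(1 - u) * a + u * b| ≤ M := by
    intro a b M ha hb
    refine (abs_add_le _ _).trans ?_
    rw [abs_mul, abs_mul, abs_of_nonneg h0, abs_of_nonneg (by linarith : 0 ≤ 1 - u)]
    have k1 := mul_le_mul_of_nonneg_left ha (by linarith : 0 ≤ 1 - u)
    have k2 := mul_le_mul_of_nonneg_left hb h0
    linarith
  have e2 : oln F ω (p none + u * (q none - p none)) (some (c 0)) =
      (1 - u) * oln F ω (p none) (some (c 0)) + u * oln F ω (q none) (some (c 0)) := by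
    have e3 : oln F ω (q none) (some (c 0)) = oln F ω (p none) (some (c 0)) +
        (q none - p none) * bd F ω (some (c 0)) := by
      rw [← oln_add]
      congr 1
      ring
    rw [oln_add, e3]
    ring
  constructor
  · have e1 : 2 ^ w 0 * ((fun o => p o + u * (q o - p o)) none - F.t ω) =
        (1 - u) * (2 ^ w 0 * (p none - F.t ω)) + u * (2 ^ w 0 * (q none - F.t ω)) := by
      show 2 ^ w 0 * (p none + u * (q none - p none) - F.t ω) = _
      ring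
    rw [e1]
    exact key hp.1 hq.1
  · have e1 : 2 ^ s 0 * ((fun o => p o + u * (q o - p o)) (some (c 0)) -
        oln F ω ((fun o => p o + u * (q o - p o)) none) (some (c 0))) =
        (1 - u) * (2 ^ s 0 * (p (some (c 0)) - oln F ω (p none) (some (c 0)))) +
          u * (2 ^ s 0 * (q (some (c 0)) - oln F ω (q none) (some (c 0)))) := by
      show 2 ^ s 0 * (p (some (c 0)) + u * (q (some (c 0)) - p (some (c 0))) -
        oln F ω (p none + u * (q none - p none)) (some (c 0))) = _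
      rw [e2]
      ring
    rw [e1]
    exact key hp.2 hq.2

section fr

variable (F : Fam m J) (c : ℕ → Fin m) (w s : ℕ → ℕ)
  (P : PtT F → ℕ → MvPolynomial (Option (Fin m)) ℝ)
  (G : ℕ → PtT F → ℕ → MvPolynomial (Option (Fin m)) ℝ) (ω : F.Ω)

/-- The third coordinate and the gradient of the frame chart. -/
theorem a1_eq (hP : ∀ y, DepC c 1 (P y 1)) (V : Option (Fin m) → ℝ) :
    (afr F c w P G ω).a1 * V none + (afr F c w P G ω).a2 * (V (some (c 0)) -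
      (afr F c w P G ω).a0 * V none) = dd (P (ptr F J ω) 1) (pst F c w G ω) V := by
  rw [dd_one (hP _)]
  unfold afr afn pst
  ring

end fr

/-- **The estimates at the sample** `ω`. `Ty`: the gradient of the frame chart. -/
structure AfE {m J : ℕ} (F : Fam m J) (c : ℕ → Fin m) (n a y' : ℕ) (w s : ℕ → ℕ)
    (g : ℕ → ℕ → ℕ) (P : PtT F → ℕ → MvPolynomial (Option (Fin m)) ℝ)
    (G : ℕ → PtT F → ℕ → MvPolynomial (Option (Fin m)) ℝ) (ω : F.Ω) : Prop where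
  a4 : 4 ≤ a
  own : ∀ l < 2, ∀ k ≤ n, ∀ t t' : ℝ, |2 ^ w k * (t - F.t ω)| ≤ 4 →
    |2 ^ w k * (t' - F.t ω)| ≤ 4 →
      |oln F ω t (some (c l)) - eval (oln F ω t) (G k (ptr F J ω) l)| ≤ 2 ^ a / 2 ^ g k l ∧
      |(oln F ω t (some (c l)) - eval (oln F ω t) (G k (ptr F J ω) l)) -
        (oln F ω t' (some (c l)) - eval (oln F ω t') (G k (ptr F J ω) l))| ≤
          2 ^ a / 2 ^ g k l * |2 ^ w k * (t - t')|
  X1 : |aX F c w s P G ω 1| ≤ 2 ^ (2 * a)
  X2 : |aX F c w s P G ω 2| ≤ 2 ^ (3 * a)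
  Xv : |aX F c w s P G ω 2 - 2 ^ s 1 / 2 ^ w 0 * (bd F ω (some (c 1)) - dd (P (ptr F J ω) 1)
    (oln F ω (tmc (w 0) (slam F (w 0) ω).2.2)) (bd F ω))| ≤ 1 / 2 ^ y'
  grd : ∀ q, Rg F c w s (3 * a) ω q → ∀ V : Option (Fin m) → ℝ,
    2 ^ s 1 * |dd (P (ptr F J ω) 1) q V - dd (P (ptr F J ω) 1) (pst F c w G ω) V| ≤
      1 / 2 ^ y' * (|pl0 (w 0) V| + |pl1 c (s 0) (afr F c w P G ω).a0 V|)
  tay : ∀ b b' : Option (Fin m) → ℝ, Rg F c w s (3 * a) ω b → Rg F c w s (3 * a) ω b' →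
    2 ^ s 1 * |eval b (P (ptr F J ω) 1) - eval b' (P (ptr F J ω) 1) -
      dd (P (ptr F J ω) 1) (pst F c w G ω) (fun o => b o - b' o)| ≤
      1 / 2 ^ y' * (|pl0 (w 0) (fun o => b o - b' o)| +
        |pl1 c (s 0) (afr F c w P G ω).a0 (fun o => b o - b' o)|)

/-- **The estimates.** -/
theorem afd_est (D : ℕ) : ∃ c₀ : ℕ, 4 ≤ c₀ ∧ ∀ {m J : ℕ} {F : Fam m J} {c : ℕ → Fin m}
    {n f x y : ℕ} {w s gf : ℕ → ℕ} {g : ℕ → ℕ → ℕ} {gx : ℕ} {θ : ℝ} {B : F.Ω → Prop}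
    {P : PtT F → ℕ → MvPolynomial (Option (Fin m)) ℝ}
    {PH : LnT F → ℕ → MvPolynomial (Option (Fin m)) ℝ}
    {G : ℕ → PtT F → ℕ → MvPolynomial (Option (Fin m)) ℝ}
    {H : ℕ → LnT F → ℕ → MvPolynomial (Option (Fin m)) ℝ} {a y' : ℕ},
    AfD F c D n f x y w s gf g gx θ B P PH G H → c₀ + x ≤ a → (4 * D + 8) * a + y' ≤ y →
    ∀ ω, B ω → AfE F c n a y' w s g P G ω := by
  obtain ⟨c₁, hc₁, hext⟩ := afd_ext D
  obtain ⟨C, hC, hreg⟩ := afd_reg D
  obtain ⟨c₂, hc₂⟩ := pow_unbounded_of_one_lt C (one_lt_two (α := ℝ))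
  refine ⟨c₁ + c₂, by omega, ?_⟩
  intro m J F c n f x y w s gf g gx θ B P PH G H a y' W ha hy ω hω
  have ha4 : 4 ≤ a := by omega
  have hA1 : (2 : ℝ) ^ (c₁ + x) ≤ 2 ^ a := pow_le_pow_right₀ (by norm_num) (by omega)
  have hCa : C ≤ 2 ^ a := hc₂.le.trans (pow_le_pow_right₀ (by norm_num) (by omega))
  obtain ⟨o, ho⟩ : ∃ o, o = w 0 := ⟨_, rfl⟩
  obtain ⟨t₀, ht₀⟩ : ∃ t₀, t₀ = tmc (w 0) (slam F (w 0) ω).2.2 := ⟨_, rfl⟩
  obtain ⟨N, hN⟩ : ∃ N, N = afr F c w P G ω := ⟨_, rfl⟩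
  obtain ⟨P1, hP1⟩ : ∃ P1, P1 = P (ptr F J ω) 1 := ⟨_, rfl⟩
  obtain ⟨p, hp⟩ : ∃ p, p = pst F c w G ω := ⟨_, rfl⟩
  have hoJ : o ≤ J := by rw [ho]; exact W.wJ 0 (Nat.zero_le _)
  have po : (0 : ℝ) < 2 ^ o := by positivity
  have ps : (0 : ℝ) < 2 ^ s 0 := by positivity
  have ps1 : (0 : ℝ) < 2 ^ s 1 := by positivity
  have dP1 : DepC c 1 P1 := by rw [hP1]; exact W.pP _ 1
  have hpow : ∀ {i j : ℕ}, i ≤ j → (2 : ℝ) ^ i ≤ 2 ^ j := fun h => pow_le_pow_right₀ (by norm_num) h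
  have own : ∀ l < 2, ∀ k ≤ n, ∀ t t' : ℝ, |2 ^ w k * (t - F.t ω)| ≤ 4 →
      |2 ^ w k * (t' - F.t ω)| ≤ 4 →
      |oln F ω t (some (c l)) - eval (oln F ω t) (G k (ptr F J ω) l)| ≤ 2 ^ a / 2 ^ g k l ∧
      |(oln F ω t (some (c l)) - eval (oln F ω t) (G k (ptr F J ω) l)) -
        (oln F ω t' (some (c l)) - eval (oln F ω t') (G k (ptr F J ω) l))| ≤
          2 ^ a / 2 ^ g k l * |2 ^ w k * (t - t')| := by
    intro l hl k hk t t' ht ht'
    obtain ⟨h1, h2⟩ := (hext W ω hω l hl).1 k hk t t' ht ht'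
    exact ⟨h1.trans (div_le_div_of_nonneg_right hA1 (by positivity)),
      h2.trans (mul_le_mul_of_nonneg_right (div_le_div_of_nonneg_right hA1 (by positivity))
        (abs_nonneg _))⟩
  -- the closed time
  have htn := tmk_near (W.wJ 0 (Nat.zero_le _)) ω
  rw [← ht₀, ← ho] at htn
  have ht1 : |2 ^ o * (t₀ - F.t ω)| ≤ 1 := by
    have e1 : 2 ^ o * (t₀ - F.t ω) = -((2 ^ o * (F.t ω - t₀) - 1 / 2) + 1 / 2) := by ring
    rw [e1, abs_neg]
    refine (abs_add_le _ _).trans ?_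
    rw [abs_of_pos (by norm_num : (0 : ℝ) < 1 / 2)]
    linarith
  have htf : |2 ^ f * (t₀ - F.t ω)| ≤ 4 := by
    have h1 : (2 : ℝ) ^ f ≤ 2 ^ o := hpow (by rw [ho]; exact W.fo)
    rw [abs_mul, abs_of_pos (by positivity)] at ht1 ⊢
    have := mul_le_mul_of_nonneg_right h1 (abs_nonneg (t₀ - F.t ω))
    linarith
  -- the frame velocities
  have hvel : ∀ l < 2, |bd F ω (some (c l)) - dd (P (ptr F J ω) l) (oln F ω t₀) (bd F ω)| ≤
      2 ^ (c₁ + x) / 2 ^ gf l * 2 ^ f := fun l hl => (hext W ω hω l hl).2 t₀ htf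
  have hfac : ∀ l < 2, (2 : ℝ) ^ s l / 2 ^ o * (2 ^ (c₁ + x) / 2 ^ gf l * 2 ^ f) ≤ 2 ^ (2 * a) := by
    intro l hl
    have h1 := W.lf l hl
    rw [← ho] at h1
    have e1 : (2 : ℝ) ^ s l / 2 ^ o * (2 ^ (c₁ + x) / 2 ^ gf l * 2 ^ f) =
        2 ^ (s l + f + (c₁ + x)) / 2 ^ (gf l + o) := by
      rw [pow_add 2 (s l + f), pow_add 2 (s l) f, pow_add 2 (gf l)]
      field_simp
    rw [e1, div_le_iff₀ (by positivity), ← pow_add]
    exact hpow (by omega)
  have hX1 : aX F c w s P G ω 1 = 2 ^ s 0 / 2 ^ o * (bd F ω (some (c 0)) - N.a0) := by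
    have e1 : aX F c w s P G ω 1 =
        2 ^ s 0 / 2 ^ w 0 * (bd F ω (some (c 0)) - (afr F c w P G ω).a0 * 1) := rfl
    rw [e1, mul_one, ← hN, ← ho]
  have hX2 : aX F c w s P G ω 2 = 2 ^ s 1 / 2 ^ o * (bd F ω (some (c 1)) - dd P1 p (bd F ω)) := by
    have e1 : aX F c w s P G ω 2 = 2 ^ s 1 / 2 ^ w 0 * (bd F ω (some (c 1)) -
        (afr F c w P G ω).a1 * bd F ω none - (afr F c w P G ω).a2 * (bd F ω (some (c 0)) -
          (afr F c w P G ω).a0 * bd F ω none)) := rfl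
    have e2 := a1_eq F c w P G ω (fun y => W.pP y 1) (bd F ω)
    rw [e1, hP1, hp, ← e2, ho]
    ring
  have bX1 : |aX F c w s P G ω 1| ≤ 2 ^ (2 * a) := by
    have e1 : dd (P (ptr F J ω) 0) (oln F ω t₀) (bd F ω) = N.a0 := by
      have e2 : dd (P (ptr F J ω) 0) (oln F ω t₀) (bd F ω) =
          dd (P (ptr F J ω) 0) (oln F ω t₀) (kpt c 1 0) :=
        dd_congr (W.pP _ 0) _ (kpt_none _ _ _).symm fun l hl => absurd hl (Nat.not_lt_zero l)
      rw [e2, dd_one ((W.pP _ 0).mono (Nat.zero_le 1)), kpt_none, kpt_zero, mul_one, mul_zero,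
        add_zero, hN]
      show _ = eval (kpt c (tmc (w 0) (slam F (w 0) ω).2.2) 0) (pderiv none (P (ptr F J ω) 0))
      rw [← ht₀]
      exact depC_pderiv (W.pP _ 0) none _ _ (kpt_none _ _ _).symm
        fun l hl => absurd hl (Nat.not_lt_zero l)
    have h1 := hvel 0 (by norm_num)
    rw [e1] at h1
    rw [hX1, abs_mul, abs_of_pos (by positivity)]
    exact (mul_le_mul_of_nonneg_left h1 (by positivity)).trans (hfac 0 (by norm_num))
  -- the base point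
  have hpn : p none = t₀ := by rw [hp, ht₀]; exact kpt_none _ _ _
  have hp0 : |2 ^ s 0 * (p (some (c 0)) - oln F ω t₀ (some (c 0)))| ≤ 2 ^ (2 * a) := by
    have e1 : p (some (c 0)) = eval (oln F ω t₀) (G 0 (ptr F J ω) 0) := by
      rw [hp]
      have e2 : pst F c w G ω (some (c 0)) =
          eval (kpt c (tmc (w 0) (slam F (w 0) ω).2.2) 0) (G 0 (ptr F J ω) 0) := kpt_zero _ _ _
      rw [e2, ← ht₀]
      exact W.pG 0 (Nat.zero_le _) _ 0 _ _ (kpt_none _ _ _) fun l hl => absurd hl (Nat.not_lt_zero l)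
    have h1 := (own 0 (by norm_num) 0 (Nat.zero_le _) t₀ t₀ (by rw [← ho]; linarith)
      (by rw [← ho]; linarith)).1
    rw [e1, abs_mul, abs_of_pos ps, abs_sub_comm]
    refine (mul_le_mul_of_nonneg_left h1 ps.le).trans ?_
    have h2 := W.lv1 0 (Nat.zero_le _) 0 (by norm_num)
    rw [← mul_div_assoc, div_le_iff₀ (by positivity), ← pow_add, ← pow_add]
    exact hpow (by omega)
  have hRp : Rg F c w s (3 * a) ω p := by
    refine ⟨?_, ?_⟩
    · rw [hpn, ← ho]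
      linarith
    · rw [hpn]
      exact hp0.trans (hpow (by omega))
  -- the gradient
  obtain ⟨S, hS⟩ : ∃ S, S = C * 2 ^ ((3 * a + 4) * D) * θ := ⟨_, rfl⟩
  have hθ0 := W.th0
  have hS0 : 0 ≤ S := by
    rw [hS]
    positivity
  have hrg : ∀ q, Rg F c w s (3 * a) ω q → ∀ i j,
      |eval q (npl c o (s 0) N.a0 P1 i j)| ≤ S := by
    intro q hq i j
    rw [ho, hN, hP1, hS]
    exact hreg W ω hω (3 * a) q hq.1 hq.2 i j
  have hq4 : ∀ q, Rg F c w s (3 * a) ω q → |pl0 o (fun k => q k - p k)| +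
      |pl1 c (s 0) N.a0 (fun k => q k - p k)| ≤ 2 ^ (4 * a) := by
    intro q hq
    obtain ⟨h1, h2⟩ := hq
    rw [← ho] at h1
    have b1 : |2 ^ o * (q none - t₀)| ≤ 4 := by
      have e1 : 2 ^ o * (q none - t₀) = 2 ^ o * (q none - F.t ω) - 2 ^ o * (t₀ - F.t ω) := by ring
      rw [e1]
      refine (abs_sub _ _).trans ?_
      linarith
    have e1 : pl0 o (fun k => q k - p k) = 2 ^ o * (q none - t₀) := by
      show 2 ^ o * (q none - p none) = _
      rw [hpn]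
    have e2 : pl1 c (s 0) N.a0 (fun k => q k - p k) =
        2 ^ s 0 * (q (some (c 0)) - oln F ω (q none) (some (c 0))) +
        aX F c w s P G ω 1 * (2 ^ o * (q none - t₀)) -
        2 ^ s 0 * (p (some (c 0)) - oln F ω t₀ (some (c 0))) := by
      have e3 : oln F ω (q none) (some (c 0)) = oln F ω t₀ (some (c 0)) +
          (q none - t₀) * bd F ω (some (c 0)) := by
        rw [← oln_add]
        congr 1
        ring
      show 2 ^ s 0 * ((q (some (c 0)) - p (some (c 0))) - N.a0 * (q none - p none)) = _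
      rw [hX1, e3, hpn]
      field_simp
      ring
    have b2 : |aX F c w s P G ω 1 * (2 ^ o * (q none - t₀))| ≤ 2 ^ (2 * a) * 4 := by
      rw [abs_mul]
      exact mul_le_mul bX1 b1 (abs_nonneg _) (by positivity)
    have t1 := abs_sub (2 ^ s 0 * (q (some (c 0)) - oln F ω (q none) (some (c 0))) +
        aX F c w s P G ω 1 * (2 ^ o * (q none - t₀)))
      (2 ^ s 0 * (p (some (c 0)) - oln F ω t₀ (some (c 0))))
    have t2 := abs_add_le (2 ^ s 0 * (q (some (c 0)) - oln F ω (q none) (some (c 0))))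
      (aX F c w s P G ω 1 * (2 ^ o * (q none - t₀)))
    rw [e1, e2]
    have e4 : (2 : ℝ) ^ (4 * a) = 2 ^ (2 * a) * 2 ^ (2 * a) := by
      rw [← pow_add]
      congr 1
      ring
    have e5 : (2 : ℝ) ^ (3 * a) = 2 ^ (2 * a) * 2 ^ a := by
      rw [← pow_add]
      congr 1
      ring
    have e6 : (2 : ℝ) ^ (2 * a) = 2 ^ a * 2 ^ a := by
      rw [← pow_add]
      congr 1
      ring
    have h16 : (16 : ℝ) ≤ 2 ^ a := by
      have := hpow ha4
      norm_num at this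
      linarith
    have h7 : (1 : ℝ) ≤ 2 ^ (2 * a) := one_le_pow₀ (by norm_num)
    rw [e4]
    rw [e5] at h2
    have h8 : (2 : ℝ) ^ (2 * a) * 2 ^ a * 16 ≤ 2 ^ (2 * a) * 2 ^ (2 * a) := by
      rw [e6]
      nlinarith [mul_pos (by positivity : (0 : ℝ) < 2 ^ a * 2 ^ a)
        (by positivity : (0 : ℝ) < (2 : ℝ) ^ a)]
    have h9 : (2 : ℝ) ^ (2 * a) * 16 ≤ 2 ^ (2 * a) * 2 ^ a :=
      mul_le_mul_of_nonneg_left h16 (by positivity)
    linarith
  have hSy : 2 ^ s 1 * (S * 2 ^ (4 * a)) * 2 ^ (3 * a) ≤ 1 / 2 ^ y' := by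
    have h1 : S ≤ 2 ^ ((4 * D + 1) * a) * θ := by
      rw [hS]
      refine mul_le_mul_of_nonneg_right ?_ hθ0
      have h2 : (4 * D + 1) * a = a + 4 * a * D := by ring
      rw [h2, pow_add]
      refine mul_le_mul hCa (hpow (Nat.mul_le_mul_right D (by omega))) (by positivity)
        (by positivity)
    have h2 := mul_le_mul_of_nonneg_right h1
      (by positivity : (0 : ℝ) ≤ 2 ^ s 1 * 2 ^ (4 * a) * 2 ^ (3 * a))
    have e1 : (2 : ℝ) ^ s 1 * (S * 2 ^ (4 * a)) * 2 ^ (3 * a) =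
      S * (2 ^ s 1 * 2 ^ (4 * a) * 2 ^ (3 * a)) := by ring
    rw [e1]
    refine h2.trans ?_
    have e2 : (2 : ℝ) ^ ((4 * D + 1) * a) * θ * (2 ^ s 1 * 2 ^ (4 * a) * 2 ^ (3 * a)) =
        2 ^ ((4 * D + 8) * a) * (2 ^ s 1 * θ) := by
      have e3 : (4 * D + 8) * a = (4 * D + 1) * a + 4 * a + 3 * a := by ring
      rw [e3, pow_add, pow_add]
      ring
    rw [e2]
    refine (mul_le_mul_of_nonneg_left W.th (by positivity)).trans ?_
    rw [mul_one_div, div_le_div_iff₀ (by positivity) (by positivity), one_mul, ← pow_add]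
    exact hpow hy
  have hSy1 : 2 ^ s 1 * (S * 2 ^ (4 * a)) ≤ 1 / 2 ^ y' := by
    refine le_trans ?_ hSy
    exact le_mul_of_one_le_right (by positivity) (one_le_pow₀ (by norm_num))
  have hgrd0 : ∀ q, Rg F c w s (3 * a) ω q → ∀ V : Option (Fin m) → ℝ,
      |dd P1 q V - dd P1 p V| ≤ S * 2 ^ (4 * a) * (|pl0 o V| + |pl1 c (s 0) N.a0 V|) := by
    intro q hq V
    refine dd_seg P1 p q V fun u hu => ?_
    refine (hs_pl_le dP1 o (s 0) N.a0 _ V _ (hrg _ (hRp.seg hq hu.1 hu.2))).trans ?_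
    have h1 := hq4 q hq
    have h2 : 0 ≤ |pl0 o V| + |pl1 c (s 0) N.a0 V| := by positivity
    calc S * ((|pl0 o V| + |pl1 c (s 0) N.a0 V|) * (|pl0 o (fun k => q k - p k)| +
          |pl1 c (s 0) N.a0 (fun k => q k - p k)|)) ≤
        S * ((|pl0 o V| + |pl1 c (s 0) N.a0 V|) * 2 ^ (4 * a)) :=
          mul_le_mul_of_nonneg_left (mul_le_mul_of_nonneg_left h1 h2) hS0
      _ = _ := by ring
  have hgrd : ∀ q, Rg F c w s (3 * a) ω q → ∀ V : Option (Fin m) → ℝ,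
      2 ^ s 1 * |dd P1 q V - dd P1 p V| ≤ 1 / 2 ^ y' * (|pl0 o V| + |pl1 c (s 0) N.a0 V|) := by
    intro q hq V
    have h1 := mul_le_mul_of_nonneg_left (hgrd0 q hq V) ps1.le
    refine h1.trans ?_
    have h2 : 0 ≤ |pl0 o V| + |pl1 c (s 0) N.a0 V| := by positivity
    calc 2 ^ s 1 * (S * 2 ^ (4 * a) * (|pl0 o V| + |pl1 c (s 0) N.a0 V|)) =
        2 ^ s 1 * (S * 2 ^ (4 * a)) * (|pl0 o V| + |pl1 c (s 0) N.a0 V|) := by ring
      _ ≤ _ := mul_le_mul_of_nonneg_right hSy1 h2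
  -- the velocity of `c 1`
  have hRt : Rg F c w s (3 * a) ω (oln F ω t₀) := by
    refine ⟨?_, ?_⟩
    · show |2 ^ w 0 * (t₀ - F.t ω)| ≤ 3
      rw [← ho]
      linarith
    · show |2 ^ s 0 * (oln F ω t₀ (some (c 0)) - oln F ω t₀ (some (c 0)))| ≤ _
      rw [sub_self, mul_zero, abs_zero]
      positivity
  have hXv : |aX F c w s P G ω 2 - 2 ^ s 1 / 2 ^ o * (bd F ω (some (c 1)) -
      dd P1 (oln F ω t₀) (bd F ω))| ≤ 1 / 2 ^ y' := by
    have e1 : aX F c w s P G ω 2 - 2 ^ s 1 / 2 ^ o * (bd F ω (some (c 1)) -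
        dd P1 (oln F ω t₀) (bd F ω)) = 2 ^ s 1 / 2 ^ o * (dd P1 (oln F ω t₀) (bd F ω) -
          dd P1 p (bd F ω)) := by
      rw [hX2]
      ring
    rw [e1, abs_mul, abs_of_pos (by positivity)]
    have h1 := hgrd0 _ hRt (bd F ω)
    have h2 : |pl0 o (bd F ω)| + |pl1 c (s 0) N.a0 (bd F ω)| ≤ 2 ^ o * 2 ^ (3 * a) := by
      have e2 : pl0 o (bd F ω) = 2 ^ o := by
        unfold pl0
        have : bd F ω none = 1 := rfl
        rw [this, mul_one]
      have e3 : pl1 c (s 0) N.a0 (bd F ω) = 2 ^ o * aX F c w s P G ω 1 := by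
        unfold pl1
        have : bd F ω none = 1 := rfl
        rw [this, mul_one, hX1]
        field_simp
      rw [e2, e3, abs_mul, abs_of_pos po]
      have h3 := mul_le_mul_of_nonneg_left bX1 po.le
      have h4 : (1 : ℝ) + 2 ^ (2 * a) ≤ 2 ^ (3 * a) := by
        have e5 : (2 : ℝ) ^ (3 * a) = 2 ^ (2 * a) * 2 ^ a := by
          rw [← pow_add]
          congr 1
          ring
        have h5 : (2 : ℝ) ≤ 2 ^ a := by
          have := hpow (show 1 ≤ a by omega)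
          rwa [pow_one] at this
        have h6 : (1 : ℝ) ≤ 2 ^ (2 * a) := one_le_pow₀ (by norm_num)
        rw [e5]
        nlinarith
      have h5 := mul_le_mul_of_nonneg_left h4 po.le
      rw [mul_add, mul_one] at h5
      linarith
    have h3 := h1.trans (mul_le_mul_of_nonneg_left h2 (by positivity))
    refine (mul_le_mul_of_nonneg_left h3 (by positivity)).trans ?_
    refine le_trans (le_of_eq ?_) hSy
    field_simp
  have bX2 : |aX F c w s P G ω 2| ≤ 2 ^ (3 * a) := by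
    have h1 := hvel 1 (by norm_num)
    rw [← hP1] at h1
    have h2 : |2 ^ s 1 / 2 ^ o * (bd F ω (some (c 1)) - dd P1 (oln F ω t₀) (bd F ω))| ≤
        2 ^ (2 * a) := by
      rw [abs_mul, abs_of_pos (by positivity)]
      exact (mul_le_mul_of_nonneg_left h1 (by positivity)).trans (hfac 1 (by norm_num))
    have h3 := abs_sub_le (aX F c w s P G ω 2) (2 ^ s 1 / 2 ^ o * (bd F ω (some (c 1)) -
      dd P1 (oln F ω t₀) (bd F ω))) 0
    rw [sub_zero, sub_zero] at h3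
    have h4 : (1 : ℝ) / 2 ^ y' ≤ 1 := by
      rw [div_le_one (by positivity)]
      exact one_le_pow₀ (by norm_num)
    have e5 : (2 : ℝ) ^ (3 * a) = 2 ^ (2 * a) * 2 ^ a := by
      rw [← pow_add]
      congr 1
      ring
    have h5 : (2 : ℝ) ≤ 2 ^ a := by
      have := hpow (show 1 ≤ a by omega)
      rwa [pow_one] at this
    have h6 : (1 : ℝ) ≤ 2 ^ (2 * a) := one_le_pow₀ (by norm_num)
    rw [e5]
    nlinarith
  refine ⟨ha4, own, bX1, bX2, ?_, ?_, ?_⟩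
  · rw [← ht₀, ← hP1, ← ho]
    exact hXv
  · intro q hq V
    rw [← hP1, ← hp, ← ho, ← hN]
    exact hgrd q hq V
  · intro b b' hb hb'
    rw [← hP1, ← hp, ← ho, ← hN]
    have h1 := tay_seg P1 p b b' (M := S * 2 ^ (4 * a) * (|pl0 o (fun k => b k - b' k)| +
      |pl1 c (s 0) N.a0 (fun k => b k - b' k)|)) fun u hu => hgrd0 _ (hb'.seg hb hu.1 hu.2) _
    refine (mul_le_mul_of_nonneg_left h1 ps1.le).trans ?_
    calc 2 ^ s 1 * (S * 2 ^ (4 * a) * (|pl0 o (fun k => b k - b' k)| +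
          |pl1 c (s 0) N.a0 (fun k => b k - b' k)|)) =
        2 ^ s 1 * (S * 2 ^ (4 * a)) * (|pl0 o (fun k => b k - b' k)| +
          |pl1 c (s 0) N.a0 (fun k => b k - b' k)|) := by ring
      _ ≤ _ := mul_le_mul_of_nonneg_right hSy1 (by positivity)

end Pool.AFF82
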