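import Pool.Agent.H82.CNC.Geb

/-!
# The boxes of the windows and the cubes of the frame

`AfB`: the natural box of the window `k` and the cube with centre `aC k`. `afd_box`.
-/

set_option autoImplicit false

namespace Pool.AFF82

open Finset Real MvPolynomial
open Pool.Agent.H49.Ent Pool.Agent.H32.Dense Pool.STK
open Pool.KA Pool.KSAT Pool.K2S Pool.PB Pool.S6C Pool.GEN Pool.D2R Pool.ISO Pool.CHT Pool.CHX
open Pool.PB.Trl (rt rt_mem t_rt)

variable {m J : ℕ}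

/-- The unit of the window `k`. -/
noncomputable def ru (w : ℕ → ℕ) (k : ℕ) : ℝ := 2 ^ w 0 / 2 ^ w k

/-- **The natural box of the window `k` and the cube of the frame.** -/
structure AfB {m J : ℕ} (F : Fam m J) (c : ℕ → Fin m) (a : ℕ) (w s : ℕ → ℕ) (g : ℕ → ℕ → ℕ)
    (P : PtT F → ℕ → MvPolynomial (Option (Fin m)) ℝ)
    (G : ℕ → PtT F → ℕ → MvPolynomial (Option (Fin m)) ℝ) (k : ℕ) (ω : F.Ω) : Prop where
  out : ∀ b, NBx c (G k (ptr F J ω)) (g k) (w k) (F.t ω) 2 b → ∀ i,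
    |afc c (afr F c w P G ω) (w 0) (s 0) (s 1) b i - aC F c w s P G k ω i| ≤
      2 ^ (6 * a) * ru w k
  inn : ∀ b, (∀ i, |afc c (afr F c w P G ω) (w 0) (s 0) (s 1) b i - aC F c w s P G k ω i| ≤
      ru w k / 2 ^ (12 * a)) → NBx c (G k (ptr F J ω)) (g k) (w k) (F.t ω) 2 b
  own : ∀ i, |aY F c w s P G ω i - aC F c w s P G k ω i| ≤ 2 ^ (5 * a) * ru w k
  lin : ∀ t : ℝ, |2 ^ w k * (t - F.t ω)| ≤ 1 → ∀ i,
    afc c (afr F c w P G ω) (w 0) (s 0) (s 1) (oln F ω t) i =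
      aY F c w s P G ω i + 2 ^ w 0 * (t - F.t ω) * aX F c w s P G ω i ∧
    |afc c (afr F c w P G ω) (w 0) (s 0) (s 1) (oln F ω t) i - aC F c w s P G k ω i| ≤
      2 ^ (6 * a) * ru w k

section afc

variable {c : ℕ → Fin m} {N : AfN} {o s0 s1 : ℕ}

theorem afc_sub0 (b b' : Option (Fin m) → ℝ) :
    afc c N o s0 s1 b 0 - afc c N o s0 s1 b' 0 = pl0 o (fun k => b k - b' k) := by
  show 2 ^ o * (b none - N.t) - 2 ^ o * (b' none - N.t) = 2 ^ o * (b none - b' none)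
  ring

theorem afc_sub1 (b b' : Option (Fin m) → ℝ) :
    afc c N o s0 s1 b 1 - afc c N o s0 s1 b' 1 = pl1 c s0 N.a0 (fun k => b k - b' k) := by
  show 2 ^ s0 * (b (some (c 0)) - N.x0 - N.a0 * (b none - N.t)) -
    2 ^ s0 * (b' (some (c 0)) - N.x0 - N.a0 * (b' none - N.t)) =
    2 ^ s0 * ((b (some (c 0)) - b' (some (c 0))) - N.a0 * (b none - b' none))
  ring

end afc

theorem afc_sub2 {F : Fam m J} {c : ℕ → Fin m} {w : ℕ → ℕ} {s0 s1 : ℕ}
    {P : PtT F → ℕ → MvPolynomial (Option (Fin m)) ℝ}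
    {G : ℕ → PtT F → ℕ → MvPolynomial (Option (Fin m)) ℝ} {ω : F.Ω}
    (hP : ∀ y, DepC c 1 (P y 1)) (o : ℕ) (b b' : Option (Fin m) → ℝ) :
    afc c (afr F c w P G ω) o s0 s1 b 2 - afc c (afr F c w P G ω) o s0 s1 b' 2 =
      2 ^ s1 * ((b (some (c 1)) - b' (some (c 1))) -
        dd (P (ptr F J ω) 1) (pst F c w G ω) (fun k => b k - b' k)) := by
  have e2 := a1_eq F c w P G ω hP (fun k => b k - b' k)
  beta_reduce at e2
  rw [← e2]
  show 2 ^ s1 * (b (some (c 1)) - (afr F c w P G ω).x1 - (afr F c w P G ω).a1 *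
    (b none - (afr F c w P G ω).t) - (afr F c w P G ω).a2 * (b (some (c 0)) -
      (afr F c w P G ω).x0 - (afr F c w P G ω).a0 * (b none - (afr F c w P G ω).t))) -
    2 ^ s1 * (b' (some (c 1)) - (afr F c w P G ω).x1 - (afr F c w P G ω).a1 *
    (b' none - (afr F c w P G ω).t) - (afr F c w P G ω).a2 * (b' (some (c 0)) -
      (afr F c w P G ω).x0 - (afr F c w P G ω).a0 * (b' none - (afr F c w P G ω).t))) = _
  ring

theorem ru_pos (w : ℕ → ℕ) (k : ℕ) : 0 < ru w k := by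
  unfold ru
  positivity

theorem ru_le {w : ℕ → ℕ} {k : ℕ} (h : w 0 ≤ w k) : ru w k ≤ 1 := by
  unfold ru
  rw [div_le_one (by positivity)]
  exact pow_le_pow_right₀ (by norm_num) h

section box

variable {F : Fam m J} {c : ℕ → Fin m} {D n f x y : ℕ} {w s gf : ℕ → ℕ} {g : ℕ → ℕ → ℕ} {gx : ℕ}
  {θ : ℝ} {B : F.Ω → Prop} {P : PtT F → ℕ → MvPolynomial (Option (Fin m)) ℝ}
  {PH : LnT F → ℕ → MvPolynomial (Option (Fin m)) ℝ}
  {G : ℕ → PtT F → ℕ → MvPolynomial (Option (Fin m)) ℝ}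
  {H : ℕ → LnT F → ℕ → MvPolynomial (Option (Fin m)) ℝ} {a y' k : ℕ} {ω : F.Ω}

theorem AfD.c10 (W : AfD F c D n f x y w s gf g gx θ B P PH G H) : c 1 ≠ c 0 := fun h => by
  have := W.hc (show 1 < 2 by norm_num) (show 0 < 2 by norm_num) h
  omega

/-- The unit and the levels. -/
theorem AfD.sg (W : AfD F c D n f x y w s gf g gx θ B P PH G H) (hk : k ≤ n) {l : ℕ}
    (hl : l < 2) : (2 : ℝ) ^ s l / 2 ^ g k l ≤ 2 ^ x * ru w k ∧
      (2 : ℝ) ^ g k l / 2 ^ s l ≤ 2 ^ x / ru w k := by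
  have h1 := W.lv1 k hk l hl
  have h2 := W.lv2 k hk l hl
  have h3 := W.ow k hk
  unfold ru
  constructor
  · rw [← mul_div_assoc, div_le_div_iff₀ (by positivity) (by positivity), ← pow_add, ← pow_add,
      ← pow_add]
    exact pow_le_pow_right₀ (by norm_num) (by omega)
  · rw [div_div_eq_mul_div, div_le_div_iff₀ (by positivity) (by positivity), ← pow_add, ← pow_add,
      ← pow_add]
    exact pow_le_pow_right₀ (by norm_num) (by omega)

theorem AfD.c00 (W : AfD F c D n f x y w s gf g gx θ B P PH G H) (hk : k ≤ n) :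
    (cpk F c w G k ω) none = tmk F w k ω ∧
    (cpk F c w G k ω) (some (c 0)) = eval (cpk F c w G k ω) (G k (ptr F J ω) 0) ∧
    (cpk F c w G k ω) (some (c 1)) = eval (cpk F c w G k ω) (G k (ptr F J ω) 1) := by
  have h10 := W.c10
  have e0 : (cpk F c w G k ω) none = tmk F w k ω := by
    unfold cpk cp3
    rw [if_neg (by simp), kpt_none]
  have e1 : (cpk F c w G k ω) (some (c 0)) = eval (kpt c (tmk F w k ω) 0) (G k (ptr F J ω) 0) := by
    unfold cpk cp3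
    rw [if_neg (fun h => h10 (Option.some_injective _ h).symm), kpt_zero]
  have e2 : (cpk F c w G k ω) (some (c 1)) = eval (kpt c (tmk F w k ω)
      (eval (kpt c (tmk F w k ω) 0) (G k (ptr F J ω) 0))) (G k (ptr F J ω) 1) := by
    unfold cpk cp3
    rw [if_pos rfl]
  refine ⟨e0, ?_, ?_⟩
  · rw [e1]
    exact W.pG k hk _ 0 _ _ (by rw [kpt_none, e0]) fun l hl => absurd hl (Nat.not_lt_zero l)
  · rw [e2]
    refine W.pG k hk _ 1 _ _ (by rw [kpt_none, e0]) fun l hl => ?_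
    have : l = 0 := by omega
    subst this
    rw [kpt_zero, e1]

/-- The own point is in the natural box. -/
theorem AfD.btn (W : AfD F c D n f x y w s gf g gx θ B P PH G H) (hk : k ≤ n) (hω : B ω) :
    NBx c (G k (ptr F J ω)) (g k) (w k) (F.t ω) 2 (bt F ω) := by
  refine ⟨?_, fun l hl => W.pos k hk ω hω l hl⟩
  show |F.t ω - F.t ω| ≤ _
  rw [sub_self, abs_zero]
  positivity

/-- The centre is in the natural box, at distance half in time. -/
theorem AfD.cpn (W : AfD F c D n f x y w s gf g gx θ B P PH G H) (hk : k ≤ n) :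
    NBx c (G k (ptr F J ω)) (g k) (w k) (F.t ω) 2 (cpk F c w G k ω) ∧
      |tmk F w k ω - F.t ω| ≤ 1 / 2 / 2 ^ w k := by
  obtain ⟨e0, e1, e2⟩ := W.c00 (ω := ω) hk
  have pw : (0 : ℝ) < 2 ^ w k := by positivity
  have h1 : |tmk F w k ω - F.t ω| ≤ 1 / 2 / 2 ^ w k := by
    have h2 := tmk_near (W.wJ k hk) ω
    have e3 : tmk F w k ω - F.t ω = -(2 ^ w k * (F.t ω - tmc (w k) (slam F (w k) ω).2.2) - 1 / 2) /
        2 ^ w k := by
      unfold tmk tmc
      field_simp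
      ring
    rw [e3, abs_div, abs_neg, abs_of_pos pw]
    exact div_le_div_of_nonneg_right h2 pw.le
  refine ⟨⟨?_, fun l hl => ?_⟩, h1⟩
  · rw [e0]
    exact h1.trans (div_le_div_of_nonneg_right (by norm_num) pw.le)
  · rcases l with _ | _ | l
    · rw [← e1, sub_self, abs_zero]
      positivity
    · rw [← e2, sub_self, abs_zero]
      positivity
    · omega

/-- The plane part of the natural box. -/
theorem AfD.pln (W : AfD F c D n f x y w s gf g gx θ B P PH G H)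
    (E : AfE F c n a y' w s g P G ω) (hxa : x ≤ a) (hk : k ≤ n) {b : Option (Fin m) → ℝ}
    (hb : NBx c (G k (ptr F J ω)) (g k) (w k) (F.t ω) 1 b) :
    |2 ^ w 0 * (b none - F.t ω)| ≤ ru w k ∧
    |2 ^ s 0 * (b (some (c 0)) - oln F ω (b none) (some (c 0)))| ≤ 2 ^ (2 * a + 1) * ru w k ∧
    Rg F c w s (3 * a) ω b := by
  have pw : (0 : ℝ) < 2 ^ w k := by positivity
  have pw0 : (0 : ℝ) < 2 ^ w 0 := by positivity
  have ps : (0 : ℝ) < 2 ^ s 0 := by positivity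
  have hru := ru_pos w k
  have hru1 := ru_le (W.ow k hk)
  have hpow : ∀ {i j : ℕ}, i ≤ j → (2 : ℝ) ^ i ≤ 2 ^ j := fun h => pow_le_pow_right₀ (by norm_num) h
  have h1 : |2 ^ w 0 * (b none - F.t ω)| ≤ ru w k := by
    rw [abs_mul, abs_of_pos pw0]
    refine (mul_le_mul_of_nonneg_left hb.1 pw0.le).trans (le_of_eq ?_)
    unfold ru
    rw [mul_one_div]
  have h2 : |2 ^ w k * (b none - F.t ω)| ≤ 4 := by
    rw [abs_mul, abs_of_pos pw]
    have := mul_le_mul_of_nonneg_left hb.1 pw.le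
    rw [mul_one_div, div_self pw.ne'] at this
    linarith
  have h3 : |2 ^ s 0 * (b (some (c 0)) - oln F ω (b none) (some (c 0)))| ≤
      2 ^ (2 * a + 1) * ru w k := by
    have h4 := (E.own 0 (by norm_num) k hk (b none) (b none) h2 h2).1
    have h5 := hb.2 0 (by norm_num)
    have e1 : eval b (G k (ptr F J ω) 0) = eval (oln F ω (b none)) (G k (ptr F J ω) 0) :=
      W.pG k hk _ 0 _ _ rfl fun l hl => absurd hl (Nat.not_lt_zero l)
    rw [e1] at h5
    have h6 := abs_sub_le (b (some (c 0))) (eval (oln F ω (b none)) (G k (ptr F J ω) 0))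
      (oln F ω (b none) (some (c 0)))
    rw [abs_sub_comm (eval (oln F ω (b none)) (G k (ptr F J ω) 0))
      (oln F ω (b none) (some (c 0)))] at h6
    have h7 : |b (some (c 0)) - oln F ω (b none) (some (c 0))| ≤ (1 + 2 ^ a) / 2 ^ g k 0 := by
      rw [add_div]
      linarith
    rw [abs_mul, abs_of_pos ps]
    refine (mul_le_mul_of_nonneg_left h7 ps.le).trans ?_
    have h8 := (W.sg hk (l := 0) (by norm_num)).1
    have e2 : (2 : ℝ) ^ s 0 * ((1 + 2 ^ a) / 2 ^ g k 0) = (1 + 2 ^ a) * (2 ^ s 0 / 2 ^ g k 0) := by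
      ring
    rw [e2]
    refine (mul_le_mul_of_nonneg_left h8 (by positivity)).trans ?_
    rw [← mul_assoc]
    refine mul_le_mul_of_nonneg_right ?_ hru.le
    have h9 : (1 : ℝ) + 2 ^ a ≤ 2 ^ (a + 1) := by
      rw [pow_succ]
      have : (1 : ℝ) ≤ 2 ^ a := one_le_pow₀ (by norm_num)
      linarith
    calc (1 + 2 ^ a) * 2 ^ x ≤ 2 ^ (a + 1) * 2 ^ a :=
          mul_le_mul h9 (hpow hxa) (by positivity) (by positivity)
      _ = _ := by
        rw [← pow_add]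
        congr 1
        ring
  refine ⟨h1, h3, by linarith, h3.trans ?_⟩
  have ha := E.a4
  calc (2 : ℝ) ^ (2 * a + 1) * ru w k ≤ 2 ^ (2 * a + 1) * 1 :=
        mul_le_mul_of_nonneg_left hru1 (by positivity)
    _ ≤ _ := by
      rw [mul_one]
      exact hpow (by omega)

/-- The direction of `c 0`. -/
theorem aX1_eq : aX F c w s P G ω 1 = 2 ^ s 0 / 2 ^ w 0 *
    (bd F ω (some (c 0)) - (afr F c w P G ω).a0) := by
  have e1 : aX F c w s P G ω 1 =
      2 ^ s 0 / 2 ^ w 0 * (bd F ω (some (c 0)) - (afr F c w P G ω).a0 * 1) := rfl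
  rw [e1, mul_one]

/-- The second plane coordinate, relative to the own line. -/
theorem pl1_oln (b : Option (Fin m) → ℝ) (t : ℝ) :
    pl1 c (s 0) (afr F c w P G ω).a0 (fun o => b o - oln F ω t o) =
      2 ^ s 0 * (b (some (c 0)) - oln F ω (b none) (some (c 0))) +
        aX F c w s P G ω 1 * (2 ^ w 0 * (b none - t)) := by
  have e3 : oln F ω (b none) (some (c 0)) = oln F ω t (some (c 0)) +
      (b none - t) * bd F ω (some (c 0)) := by
    rw [← oln_add]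
    congr 1
    ring
  show 2 ^ s 0 * ((b (some (c 0)) - oln F ω t (some (c 0))) -
    (afr F c w P G ω).a0 * (b none - t)) = _
  rw [aX1_eq, e3]
  field_simp
  ring

/-- **The natural box is in the cube.** -/
theorem AfD.out (W : AfD F c D n f x y w s gf g gx θ B P PH G H)
    (E : AfE F c n a y' w s g P G ω) (hxa : x ≤ a) (hk : k ≤ n) (hω : B ω)
    {b : Option (Fin m) → ℝ} (hb : NBx c (G k (ptr F J ω)) (g k) (w k) (F.t ω) 2 b) (i : Fin 3) :
    |afc c (afr F c w P G ω) (w 0) (s 0) (s 1) b i - aY F c w s P G ω i| ≤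
      2 ^ (3 * a) * ru w k := by
  have hru := ru_pos w k
  have ps1 : (0 : ℝ) < 2 ^ s 1 := by positivity
  have hpow : ∀ {i j : ℕ}, i ≤ j → (2 : ℝ) ^ i ≤ 2 ^ j := fun h => pow_le_pow_right₀ (by norm_num) h
  have hb1 : NBx c (G k (ptr F J ω)) (g k) (w k) (F.t ω) 1 b := hb.mono le_rfl (by norm_num)
  have hbt := W.btn hk hω
  have hbt1 : NBx c (G k (ptr F J ω)) (g k) (w k) (F.t ω) 1 (bt F ω) :=
    hbt.mono le_rfl (by norm_num)
  obtain ⟨q1, q2, q3⟩ := W.pln E hxa hk hb1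
  obtain ⟨-, -, r3⟩ := W.pln E hxa hk hbt1
  have ha := E.a4
  have hpl0 : |pl0 (w 0) (fun o => b o - bt F ω o)| ≤ ru w k := q1
  have hpl1 : |pl1 c (s 0) (afr F c w P G ω).a0 (fun o => b o - bt F ω o)| ≤
      2 ^ (2 * a + 2) * ru w k := by
    rw [← oln_t, pl1_oln]
    refine (abs_add_le _ _).trans ?_
    have h1 : |aX F c w s P G ω 1 * (2 ^ w 0 * (b none - F.t ω))| ≤ 2 ^ (2 * a) * ru w k := by
      rw [abs_mul]
      exact mul_le_mul E.X1 q1 (abs_nonneg _) (by positivity)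
    have e1 : (2 : ℝ) ^ (2 * a + 2) = 4 * 2 ^ (2 * a) := by rw [pow_add]; ring
    have e2 : (2 : ℝ) ^ (2 * a + 1) = 2 * 2 ^ (2 * a) := by rw [pow_add]; ring
    rw [e2] at q2
    rw [e1]
    have : 0 ≤ 2 ^ (2 * a) * ru w k := by positivity
    linarith
  have hA1 : (1 : ℝ) ≤ 2 ^ (3 * a) := one_le_pow₀ (by norm_num)
  fin_cases i
  · show |afc c (afr F c w P G ω) (w 0) (s 0) (s 1) b 0 -
      afc c (afr F c w P G ω) (w 0) (s 0) (s 1) (bt F ω) 0| ≤ _
    rw [afc_sub0]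
    exact hpl0.trans (le_mul_of_one_le_left hru.le hA1)
  · show |afc c (afr F c w P G ω) (w 0) (s 0) (s 1) b 1 -
      afc c (afr F c w P G ω) (w 0) (s 0) (s 1) (bt F ω) 1| ≤ _
    rw [afc_sub1]
    exact hpl1.trans (mul_le_mul_of_nonneg_right (hpow (by omega)) hru.le)
  · show |afc c (afr F c w P G ω) (w 0) (s 0) (s 1) b 2 -
      afc c (afr F c w P G ω) (w 0) (s 0) (s 1) (bt F ω) 2| ≤ _
    rw [afc_sub2 (fun y => W.pP y 1)]
    obtain ⟨P1, hP1⟩ : ∃ P1, P1 = P (ptr F J ω) 1 := ⟨_, rfl⟩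
    obtain ⟨G1, hG1⟩ : ∃ G1, G1 = G k (ptr F J ω) 1 := ⟨_, rfl⟩
    obtain ⟨dP, hdP⟩ : ∃ dP, dP = dd P1 (pst F c w G ω) (fun k => b k - bt F ω k) := ⟨_, rfl⟩
    rw [← hP1, ← hdP]
    have t1 := E.tay b (bt F ω) q3 r3
    rw [← hP1, ← hdP] at t1
    have t2 := W.bal k hk ω hω b hb1
    have t3 := W.bal k hk ω hω (bt F ω) hbt1
    have e1 : ∀ b : Option (Fin m) → ℝ, eval b (Gno (c 1) J J (fun y => P y 1) (ptr F J ω)) =
        eval b P1 + (((ptr F J ω).1 (c 1) : ℝ) / 2 ^ J -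
          eval (bho J J (ptr F J ω)) P1) := fun b => by
      unfold Gno
      rw [map_add, eval_C, hP1]
    rw [e1, ← hG1] at t2 t3
    have t4 := hb.2 1 (by norm_num)
    have t5 := hbt.2 1 (by norm_num)
    rw [← hG1] at t4 t5
    obtain ⟨p1, hp1⟩ : ∃ p1, p1 = eval b P1 := ⟨_, rfl⟩
    obtain ⟨p2, hp2⟩ : ∃ p2, p2 = eval (bt F ω) P1 := ⟨_, rfl⟩
    obtain ⟨g1, hg1⟩ : ∃ g1, g1 = eval b G1 := ⟨_, rfl⟩
    obtain ⟨g2, hg2⟩ : ∃ g2, g2 = eval (bt F ω) G1 := ⟨_, rfl⟩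
    obtain ⟨K, hK⟩ : ∃ K, K = ((ptr F J ω).1 (c 1) : ℝ) / 2 ^ J -
      eval (bho J J (ptr F J ω)) P1 := ⟨_, rfl⟩
    rw [← hp1, ← hp2] at t1
    rw [← hp1, ← hg1, ← hK] at t2
    rw [← hp2, ← hg2, ← hK] at t3
    rw [← hg1] at t4
    rw [← hg2] at t5
    have t6 : |(b (some (c 1)) - bt F ω (some (c 1))) - dP - (p1 - p2 - dP)| ≤
        (2 + 2 * 2 ^ x) / 2 ^ g k 1 := by
      have e2 : (b (some (c 1)) - bt F ω (some (c 1))) - dP - (p1 - p2 - dP) =
          (b (some (c 1)) - g1) - (bt F ω (some (c 1)) - g2) - (p1 + K - g1) + (p2 + K - g2) := by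
        ring
      rw [e2]
      have u1 := abs_add_le ((b (some (c 1)) - g1) - (bt F ω (some (c 1)) - g2) - (p1 + K - g1))
        (p2 + K - g2)
      have u2 := abs_sub ((b (some (c 1)) - g1) - (bt F ω (some (c 1)) - g2)) (p1 + K - g1)
      have u3 := abs_sub (b (some (c 1)) - g1) (bt F ω (some (c 1)) - g2)
      have e3 : (2 + 2 * (2 : ℝ) ^ x) / 2 ^ g k 1 = 1 / 2 ^ g k 1 + 1 / 2 ^ g k 1 +
          2 ^ x / 2 ^ g k 1 + 2 ^ x / 2 ^ g k 1 := by ring
      rw [e3]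
      linarith
    have t7 : 2 ^ s 1 * |(b (some (c 1)) - bt F ω (some (c 1))) - dP - (p1 - p2 - dP)| ≤
        2 ^ (2 * a + 2) * ru w k := by
      refine (mul_le_mul_of_nonneg_left t6 ps1.le).trans ?_
      have e2 : (2 : ℝ) ^ s 1 * ((2 + 2 * 2 ^ x) / 2 ^ g k 1) =
          (2 + 2 * 2 ^ x) * (2 ^ s 1 / 2 ^ g k 1) := by ring
      rw [e2]
      refine (mul_le_mul_of_nonneg_left (W.sg hk (l := 1) (by norm_num)).1 (by positivity)).trans ?_
      rw [← mul_assoc]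
      refine mul_le_mul_of_nonneg_right ?_ hru.le
      have h1 : (2 : ℝ) + 2 * 2 ^ x ≤ 2 ^ (a + 2) := by
        have h2 := hpow hxa
        have h3 : (1 : ℝ) ≤ 2 ^ a := one_le_pow₀ (by norm_num)
        have e3 : (2 : ℝ) ^ (a + 2) = 4 * 2 ^ a := by rw [pow_add]; ring
        rw [e3]
        linarith
      calc (2 + 2 * (2 : ℝ) ^ x) * 2 ^ x ≤ 2 ^ (a + 2) * 2 ^ a :=
            mul_le_mul h1 (hpow hxa) (by positivity) (by positivity)
        _ = _ := by
          rw [← pow_add]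
          congr 1
          ring
    have t8 : 2 ^ s 1 * |p1 - p2 - dP| ≤ ru w k + 2 ^ (2 * a + 2) * ru w k := by
      refine t1.trans ?_
      have h1 : (1 : ℝ) / 2 ^ y' ≤ 1 := by
        rw [div_le_one (by positivity)]
        exact one_le_pow₀ (by norm_num)
      have h2 : 0 ≤ ru w k + 2 ^ (2 * a + 2) * ru w k := by positivity
      calc _ ≤ 1 * (ru w k + 2 ^ (2 * a + 2) * ru w k) :=
            mul_le_mul h1 (add_le_add hpl0 hpl1) (by positivity) (by norm_num)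
        _ = _ := one_mul _
    rw [abs_mul, abs_of_pos ps1]
    have t9 := abs_add_le ((b (some (c 1)) - bt F ω (some (c 1))) - dP - (p1 - p2 - dP))
      (p1 - p2 - dP)
    rw [sub_add_cancel] at t9
    refine (mul_le_mul_of_nonneg_left t9 ps1.le).trans ?_
    rw [mul_add]
    have h1 : (1 : ℝ) + 2 * 2 ^ (2 * a + 2) ≤ 2 ^ (3 * a) := by
      have e3 : (2 : ℝ) ^ (2 * a + 2) = 4 * 2 ^ (2 * a) := by rw [pow_add]; ring
      have e4 : (2 : ℝ) ^ (3 * a) = 2 ^ (2 * a) * 2 ^ a := by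
        rw [← pow_add]
        congr 1
        ring
      have h2 : (16 : ℝ) ≤ 2 ^ a := by
        have := hpow ha
        norm_num at this
        linarith
      have h3 : (1 : ℝ) ≤ 2 ^ (2 * a) := one_le_pow₀ (by norm_num)
      rw [e3, e4]
      nlinarith
    have h2 := mul_le_mul_of_nonneg_right h1 hru.le
    linarith

/-- **A small plane cube is in the natural box.** -/
theorem AfD.inn1 (W : AfD F c D n f x y w s gf g gx θ B P PH G H)
    (E : AfE F c n a y' w s g P G ω) (hxa : x ≤ a) (hk : k ≤ n)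
    {b : Option (Fin m) → ℝ}
    (h0 : |pl0 (w 0) (fun o => b o - cpk F c w G k ω o)| ≤ ru w k / 2 ^ (4 * a))
    (h1 : |pl1 c (s 0) (afr F c w P G ω).a0 (fun o => b o - cpk F c w G k ω o)| ≤
      ru w k / 2 ^ (4 * a)) :
    NBx c (G k (ptr F J ω)) (g k) (w k) (F.t ω) 1 b := by
  obtain ⟨e0, e1, -⟩ := W.c00 (ω := ω) hk
  obtain ⟨-, ht⟩ := W.cpn (k := k) (ω := ω) hk
  have hru := ru_pos w k
  have pw : (0 : ℝ) < 2 ^ w k := by positivity
  have pw0 : (0 : ℝ) < 2 ^ w 0 := by positivity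
  have ps : (0 : ℝ) < 2 ^ s 0 := by positivity
  have hpow : ∀ {i j : ℕ}, i ≤ j → (2 : ℝ) ^ i ≤ 2 ^ j := fun h => pow_le_pow_right₀ (by norm_num) h
  have ha := E.a4
  obtain ⟨tk, htk⟩ : ∃ tk, tk = tmk F w k ω := ⟨_, rfl⟩
  rw [← htk] at ht e0
  have p0 : pl0 (w 0) (fun o => b o - cpk F c w G k ω o) = 2 ^ w 0 * (b none - tk) := by
    show 2 ^ w 0 * (b none - cpk F c w G k ω none) = _
    rw [e0]
  rw [p0] at h0
  -- the time
  have d1 : |2 ^ w k * (b none - tk)| ≤ 1 / 2 ^ (4 * a) := by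
    have e2 : 2 ^ w k * (b none - tk) = (2 ^ w 0 * (b none - tk)) / ru w k := by
      unfold ru
      field_simp
    rw [e2, abs_div, abs_of_pos hru, div_le_iff₀ hru]
    exact h0.trans (le_of_eq (by ring))
  have h16 : (1 : ℝ) / 2 ^ (4 * a) ≤ 1 / 2 := by
    refine one_div_le_one_div_of_le (by norm_num) ?_
    have := hpow (show 1 ≤ 4 * a by omega)
    rwa [pow_one] at this
  have hbt : |b none - F.t ω| ≤ 1 / 2 ^ w k := by
    have h2 := abs_sub_le (b none) tk (F.t ω)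
    have h3 : |b none - tk| ≤ 1 / 2 / 2 ^ w k := by
      rw [le_div_iff₀ pw]
      rw [abs_mul, abs_of_pos pw] at d1
      linarith
    refine h2.trans ((add_le_add h3 ht).trans (le_of_eq ?_))
    ring
  refine ⟨hbt, fun l hl => ?_⟩
  have : l = 0 := by omega
  subst this
  -- the height
  have f4 : ∀ t : ℝ, |t - F.t ω| ≤ 1 / 2 ^ w k → |2 ^ w k * (t - F.t ω)| ≤ 4 := by
    intro t h
    rw [abs_mul, abs_of_pos pw]
    have := mul_le_mul_of_nonneg_left h pw.le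
    rw [mul_one_div, div_self pw.ne'] at this
    linarith
  have h3 := (E.own 0 (by norm_num) k hk (b none) tk (f4 _ hbt) (f4 _ (ht.trans
    (div_le_div_of_nonneg_right (by norm_num) pw.le)))).2
  have eb : eval b (G k (ptr F J ω) 0) = eval (oln F ω (b none)) (G k (ptr F J ω) 0) :=
    W.pG k hk _ 0 _ _ rfl fun l hl => absurd hl (Nat.not_lt_zero l)
  have ec : eval (cpk F c w G k ω) (G k (ptr F J ω) 0) = eval (oln F ω tk) (G k (ptr F J ω) 0) :=
    W.pG k hk _ 0 _ _ e0 fun l hl => absurd hl (Nat.not_lt_zero l)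
  obtain ⟨e, he⟩ : ∃ e, e = (oln F ω (b none) (some (c 0)) -
    eval (oln F ω (b none)) (G k (ptr F J ω) 0)) - (oln F ω tk (some (c 0)) -
      eval (oln F ω tk) (G k (ptr F J ω) 0)) := ⟨_, rfl⟩
  rw [← he] at h3
  obtain ⟨δ, hδ⟩ : ∃ δ, δ = pl1 c (s 0) (afr F c w P G ω).a0
    (fun o => b o - cpk F c w G k ω o) := ⟨_, rfl⟩
  rw [← hδ] at h1
  have hkey : b (some (c 0)) - eval b (G k (ptr F J ω) 0) =
      1 / 2 ^ s 0 * (δ - aX F c w s P G ω 1 * (2 ^ w 0 * (b none - tk))) + e := by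
    have e2 : δ = 2 ^ s 0 * ((b (some (c 0)) - cpk F c w G k ω (some (c 0))) -
        (afr F c w P G ω).a0 * (b none - cpk F c w G k ω none)) := hδ
    have e3 : oln F ω (b none) (some (c 0)) = oln F ω tk (some (c 0)) +
        (b none - tk) * bd F ω (some (c 0)) := by
      rw [← oln_add]
      congr 1
      ring
    rw [e2, e0, e1, ec, eb, he, aX1_eq, e3]
    field_simp
    ring
  rw [hkey]
  have b1 : |δ - aX F c w s P G ω 1 * (2 ^ w 0 * (b none - tk))| ≤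
      (1 + 2 ^ (2 * a)) * (ru w k / 2 ^ (4 * a)) := by
    refine (abs_sub _ _).trans ?_
    rw [abs_mul, add_mul, one_mul]
    exact add_le_add h1 (mul_le_mul E.X1 h0 (abs_nonneg _) (by positivity))
  have b2 : |1 / 2 ^ s 0 * (δ - aX F c w s P G ω 1 * (2 ^ w 0 * (b none - tk)))| ≤
      1 / 2 ^ s 0 * ((1 + 2 ^ (2 * a)) * (ru w k / 2 ^ (4 * a))) := by
    rw [abs_mul, abs_of_pos (by positivity : (0 : ℝ) < 1 / 2 ^ s 0)]
    exact mul_le_mul_of_nonneg_left b1 (by positivity)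
  have b3 : |e| ≤ 2 ^ a / 2 ^ g k 0 * (1 / 2 ^ (4 * a)) :=
    h3.trans (mul_le_mul_of_nonneg_left d1 (by positivity))
  refine (abs_add_le _ _).trans ((add_le_add b2 b3).trans ?_)
  have hg := (W.sg hk (l := 0) (by norm_num)).2
  have b4 : 1 / 2 ^ s 0 * ((1 + 2 ^ (2 * a)) * (ru w k / 2 ^ (4 * a))) ≤
      1 / 2 ^ g k 0 * (2 ^ x * (1 + 2 ^ (2 * a)) / 2 ^ (4 * a)) := by
    have e2 : 1 / 2 ^ s 0 * ((1 + 2 ^ (2 * a)) * (ru w k / 2 ^ (4 * a))) =
        1 / 2 ^ g k 0 * ((2 ^ g k 0 / 2 ^ s 0) * (ru w k * ((1 + 2 ^ (2 * a)) / 2 ^ (4 * a)))) := by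
      field_simp
    rw [e2]
    refine mul_le_mul_of_nonneg_left ?_ (by positivity)
    refine (mul_le_mul_of_nonneg_right hg (by positivity)).trans (le_of_eq ?_)
    field_simp
  refine (add_le_add b4 le_rfl).trans ?_
  have e5 : (1 : ℝ) / 2 ^ g k 0 * (2 ^ x * (1 + 2 ^ (2 * a)) / 2 ^ (4 * a)) +
      2 ^ a / 2 ^ g k 0 * (1 / 2 ^ (4 * a)) =
      1 / 2 ^ g k 0 * ((2 ^ x * (1 + 2 ^ (2 * a)) + 2 ^ a) / 2 ^ (4 * a)) := by
    field_simp
  rw [e5]
  refine mul_le_of_le_one_right (by positivity) ?_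
  rw [div_le_one (by positivity)]
  have e6 : (2 : ℝ) ^ (4 * a) = 2 ^ a * 2 ^ (2 * a) * 2 ^ a := by
    rw [← pow_add, ← pow_add]
    congr 1
    ring
  have h7 := hpow hxa
  have h8 : (16 : ℝ) ≤ 2 ^ a := by
    have := hpow ha
    norm_num at this
    linarith
  have h9 : (1 : ℝ) ≤ 2 ^ (2 * a) := one_le_pow₀ (by norm_num)
  have h10 : (2 : ℝ) ^ x * (1 + 2 ^ (2 * a)) ≤ 2 ^ a * (2 * 2 ^ (2 * a)) :=
    mul_le_mul h7 (by linarith) (by positivity) (by positivity)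
  have h11 : (2 : ℝ) ^ a * 2 ^ (2 * a) * 16 ≤ 2 ^ a * 2 ^ (2 * a) * 2 ^ a :=
    mul_le_mul_of_nonneg_left h8 (by positivity)
  have h12 : (2 : ℝ) ^ a * 1 ≤ 2 ^ a * 2 ^ (2 * a) := mul_le_mul_of_nonneg_left h9 (by positivity)
  rw [e6]
  linarith

/-- **A small cube is in the natural box.** -/
theorem AfD.inn (W : AfD F c D n f x y w s gf g gx θ B P PH G H)
    (E : AfE F c n a y' w s g P G ω) (hxa : x ≤ a) (hk : k ≤ n) (hω : B ω) {C : ℝ}
    (hC : C ≤ 2 ^ a) (hlip : ∀ (p : Polynomial ℝ) (S : ℝ), p.natDegree ≤ D →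
      (∀ t ∈ Set.Icc (0 : ℝ) 1, |p.eval t| ≤ S) → ∀ x y : ℝ, |x| ≤ 5 → |y| ≤ 5 →
      |p.eval x| ≤ C * S ∧ |p.derivative.eval x| ≤ C * S ∧
      |p.eval x - p.eval y| ≤ C * S * |x - y|) {b : Option (Fin m) → ℝ}
    (hb : ∀ i, |afc c (afr F c w P G ω) (w 0) (s 0) (s 1) b i - aC F c w s P G k ω i| ≤
      ru w k / 2 ^ (12 * a)) : NBx c (G k (ptr F J ω)) (g k) (w k) (F.t ω) 2 b := by
  have hru := ru_pos w k
  have ps1 : (0 : ℝ) < 2 ^ s 1 := by positivity
  have hpow : ∀ {i j : ℕ}, i ≤ j → (2 : ℝ) ^ i ≤ 2 ^ j := fun h => pow_le_pow_right₀ (by norm_num) h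
  have ha := E.a4
  obtain ⟨z, hz⟩ : ∃ z, z = cpk F c w G k ω := ⟨_, rfl⟩
  obtain ⟨al, hal⟩ : ∃ al, al = (afr F c w P G ω).a0 := ⟨_, rfl⟩
  have hb0 := hb 0
  have hb1 := hb 1
  have hb2 := hb 2
  unfold aC at hb0 hb1 hb2
  rw [afc_sub0, ← hz] at hb0
  rw [afc_sub1, ← hz, ← hal] at hb1
  rw [afc_sub2 (fun y => W.pP y 1), ← hz] at hb2
  have hs : ru w k / 2 ^ (12 * a) ≤ ru w k / 2 ^ (4 * a) :=
    div_le_div_of_nonneg_left hru.le (by positivity) (hpow (by omega))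
  have hbx : NBx c (G k (ptr F J ω)) (g k) (w k) (F.t ω) 1 b :=
    W.inn1 E hxa hk (by rw [← hz]; exact hb0.trans hs) (by rw [← hz, ← hal]; exact hb1.trans hs)
  refine ⟨hbx.1, fun l hl => ?_⟩
  rcases l with _ | _ | l
  · exact hbx.2 0 (by norm_num)
  swap
  · omega
  -- the height of `c 1`
  show |b (some (c 1)) - eval b (G k (ptr F J ω) 1)| ≤ 1 / 2 ^ g k 1
  obtain ⟨P1, hP1⟩ : ∃ P1, P1 = P (ptr F J ω) 1 := ⟨_, rfl⟩
  obtain ⟨G1, hG1⟩ : ∃ G1, G1 = G k (ptr F J ω) 1 := ⟨_, rfl⟩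
  obtain ⟨Q1, hQ1⟩ : ∃ Q1, Q1 = Gno (c 1) J J (fun y => P y 1) (ptr F J ω) - G1 := ⟨_, rfl⟩
  have e1 : ∀ b : Option (Fin m) → ℝ, eval b (Gno (c 1) J J (fun y => P y 1) (ptr F J ω)) =
      eval b P1 + (((ptr F J ω).1 (c 1) : ℝ) / 2 ^ J -
        eval (bho J J (ptr F J ω)) P1) := fun b => by
    unfold Gno
    rw [map_add, eval_C, hP1]
  have hQ1e : ∀ b b' : Option (Fin m) → ℝ, eval b Q1 - eval b' Q1 =
      (eval b P1 - eval b' P1) - (eval b G1 - eval b' G1) := by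
    intro b b'
    rw [hQ1, map_sub, map_sub, e1, e1]
    ring
  have hQd : Q1.totalDegree ≤ D := by
    rw [hQ1]
    refine (totalDegree_sub _ _).trans (max_le ?_ (by rw [hG1]; exact W.dG _ hk _ _))
    unfold Gno
    exact (totalDegree_add _ _).trans (max_le (W.dP _ 1) (by
      rw [totalDegree_C]
      exact Nat.zero_le _))
  have hcp := (W.cpn (ω := ω) hk).1
  have hcp1 : NBx c (G k (ptr F J ω)) (g k) (w k) (F.t ω) 1 (cpk F c w G k ω) :=
    hcp.mono le_rfl (by norm_num)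
  obtain ⟨-, -, r1⟩ := W.pln E hxa hk hbx
  obtain ⟨-, -, r2⟩ := W.pln E hxa hk hcp1
  rw [← hz] at r2
  -- Taylor
  obtain ⟨dP, hdP⟩ : ∃ dP, dP = dd P1 (pst F c w G ω) (fun k => b k - z k) := ⟨_, rfl⟩
  have t1 := E.tay b z r1 r2
  rw [← hP1, ← hdP, ← hal] at t1
  rw [← hP1, ← hdP] at hb2
  -- the variation of the difference
  obtain ⟨v, hv⟩ : ∃ v : Option (Fin m) → Polynomial ℝ, v = fun o =>
    Polynomial.C (z o) + Polynomial.C (2 ^ (8 * a) * (b o - z o)) * Polynomial.X := ⟨_, rfl⟩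
  have hvd : ∀ o, (v o).natDegree ≤ 1 := fun o => by
    rw [hv]
    refine (Polynomial.natDegree_add_le _ _).trans (max_le ?_ ?_)
    · rw [Polynomial.natDegree_C]
      exact Nat.zero_le _
    · exact (Polynomial.natDegree_C_mul_le _ _).trans Polynomial.natDegree_X_le
  have hve : ∀ u o, (v o).eval u = z o + 2 ^ (8 * a) * (b o - z o) * u := fun u o => by
    rw [hv]
    simp only [Polynomial.eval_add, Polynomial.eval_mul, Polynomial.eval_C, Polynomial.eval_X]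
  have hvM : ∀ u ∈ Set.Icc (0 : ℝ) 1, |(MvPolynomial.aeval v Q1).eval u| ≤ 2 ^ x / 2 ^ g k 1 := by
    intro u hu
    rw [Pool.KBX.eval_aeval_poly, hQ1, map_sub, hG1]
    refine W.bal k hk ω hω _ ?_
    have e8 : (2 : ℝ) ^ (8 * a) * (ru w k / 2 ^ (12 * a)) = ru w k / 2 ^ (4 * a) := by
      have e9 : (2 : ℝ) ^ (12 * a) = 2 ^ (8 * a) * 2 ^ (4 * a) := by
        rw [← pow_add]
        congr 1
        ring
      rw [e9]
      field_simp
    have hu8 : ∀ {M : ℝ}, |M| ≤ ru w k / 2 ^ (12 * a) → |2 ^ (8 * a) * u * M| ≤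
        ru w k / 2 ^ (4 * a) := by
      intro M hM
      rw [abs_mul, abs_mul, abs_of_nonneg hu.1, abs_of_pos (by positivity : (0 : ℝ) < 2 ^ (8 * a)),
        ← e8]
      exact mul_le_mul (mul_le_of_le_one_right (by positivity) hu.2) hM (abs_nonneg _)
        (by positivity)
    refine W.inn1 E hxa hk ?_ ?_
    · have e2 : pl0 (w 0) (fun o => (fun o => (v o).eval u) o - cpk F c w G k ω o) =
          2 ^ (8 * a) * u * pl0 (w 0) (fun o => b o - z o) := by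
        show 2 ^ w 0 * ((v none).eval u - cpk F c w G k ω none) =
          2 ^ (8 * a) * u * (2 ^ w 0 * (b none - z none))
        rw [hve, ← hz]
        ring
      rw [e2]
      exact hu8 hb0
    · have e2 : pl1 c (s 0) (afr F c w P G ω).a0
          (fun o => (fun o => (v o).eval u) o - cpk F c w G k ω o) =
          2 ^ (8 * a) * u * pl1 c (s 0) al (fun o => b o - z o) := by
        show 2 ^ s 0 * (((v (some (c 0))).eval u - cpk F c w G k ω (some (c 0))) -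
          (afr F c w P G ω).a0 * ((v none).eval u - cpk F c w G k ω none)) =
          2 ^ (8 * a) * u * (2 ^ s 0 * ((b (some (c 0)) - z (some (c 0))) -
            al * (b none - z none)))
        rw [hve, hve, ← hz, ← hal]
        ring
      rw [e2]
      exact hu8 hb1
  have hl := (hlip (MvPolynomial.aeval v Q1) _ ((Pool.KBX.natDegree_aeval_le Q1 v hvd hQd).trans
    (le_of_eq (by ring))) hvM (1 / 2 ^ (8 * a)) 0 (by
      rw [abs_of_pos (by positivity), div_le_iff₀ (by positivity)]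
      have : (1 : ℝ) ≤ 2 ^ (8 * a) := one_le_pow₀ (by norm_num)
      linarith) (by norm_num)).2.2
  rw [Pool.KBX.eval_aeval_poly, Pool.KBX.eval_aeval_poly] at hl
  have f1 : (fun o => (v o).eval (1 / 2 ^ (8 * a))) = b := by
    funext o
    rw [hve]
    field_simp
    ring
  have f2 : (fun o => (v o).eval 0) = z := by
    funext o
    rw [hve]
    ring
  rw [f1, f2, hQ1e, sub_zero, abs_of_pos (by positivity : (0 : ℝ) < 1 / 2 ^ (8 * a))] at hl
  have hl2 : |(eval b P1 - eval z P1) - (eval b G1 - eval z G1)| ≤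
      1 / 2 ^ g k 1 * (1 / 2 ^ (6 * a)) := by
    refine hl.trans ?_
    have e8 : (2 : ℝ) ^ (8 * a) = 2 ^ a * 2 ^ a * 2 ^ (6 * a) := by
      rw [← pow_add, ← pow_add]
      congr 1
      ring
    have h1 : C * (2 ^ x / 2 ^ g k 1) ≤ 2 ^ a * (2 ^ a / 2 ^ g k 1) :=
      mul_le_mul hC (div_le_div_of_nonneg_right (hpow hxa) (by positivity)) (by positivity)
        (by positivity)
    refine (mul_le_mul_of_nonneg_right h1 (by positivity)).trans (le_of_eq ?_)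
    rw [e8]
    field_simp
  -- the sum
  have hz1 : z (some (c 1)) = eval z G1 := by
    rw [hz, hG1]
    exact (W.c00 hk).2.2
  obtain ⟨p1, hp1⟩ : ∃ p1, p1 = eval b P1 := ⟨_, rfl⟩
  obtain ⟨p2, hp2⟩ : ∃ p2, p2 = eval z P1 := ⟨_, rfl⟩
  obtain ⟨g1, hg1⟩ : ∃ g1, g1 = eval b G1 := ⟨_, rfl⟩
  obtain ⟨g2, hg2⟩ : ∃ g2, g2 = eval z G1 := ⟨_, rfl⟩
  rw [← hG1, ← hg1]
  rw [← hp1, ← hp2] at t1
  rw [← hp1, ← hp2, ← hg1, ← hg2] at hl2
  rw [← hg2] at hz1
  rw [hz1] at hb2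
  have e9 : b (some (c 1)) - g1 = ((b (some (c 1)) - g2) - dP) - (p1 - p2 - dP) +
      ((p1 - p2) - (g1 - g2)) := by ring
  have b1 : 2 ^ s 1 * |(b (some (c 1)) - g2) - dP| ≤ ru w k / 2 ^ (12 * a) := by
    rw [abs_mul, abs_of_pos ps1] at hb2
    exact hb2
  have b2 : 2 ^ s 1 * |p1 - p2 - dP| ≤ 2 * (ru w k / 2 ^ (12 * a)) := by
    refine t1.trans ?_
    have h1 : (1 : ℝ) / 2 ^ y' ≤ 1 := by
      rw [div_le_one (by positivity)]
      exact one_le_pow₀ (by norm_num)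
    calc _ ≤ 1 * (ru w k / 2 ^ (12 * a) + ru w k / 2 ^ (12 * a)) :=
          mul_le_mul h1 (add_le_add hb0 hb1) (by positivity) (by norm_num)
      _ = _ := by ring
  have b3 : |((b (some (c 1)) - g2) - dP) - (p1 - p2 - dP)| ≤
      1 / 2 ^ g k 1 * (3 / 2 ^ (11 * a)) := by
    have h1 : 2 ^ s 1 * |((b (some (c 1)) - g2) - dP) - (p1 - p2 - dP)| ≤
        3 * (ru w k / 2 ^ (12 * a)) := by
      have h2 := mul_le_mul_of_nonneg_left (abs_sub ((b (some (c 1)) - g2) - dP) (p1 - p2 - dP))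
        ps1.le
      rw [mul_add] at h2
      linarith
    have hg := (W.sg hk (l := 1) (by norm_num)).2
    have h3 : |((b (some (c 1)) - g2) - dP) - (p1 - p2 - dP)| ≤
        1 / 2 ^ s 1 * (3 * (ru w k / 2 ^ (12 * a))) := by
      rw [one_div, ← div_eq_inv_mul, le_div_iff₀ ps1]
      linarith
    refine h3.trans ?_
    have e2 : 1 / 2 ^ s 1 * (3 * (ru w k / 2 ^ (12 * a))) =
        1 / 2 ^ g k 1 * ((2 ^ g k 1 / 2 ^ s 1) * (ru w k * (3 / 2 ^ (12 * a)))) := by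
      field_simp
    rw [e2]
    refine mul_le_mul_of_nonneg_left ?_ (by positivity)
    refine (mul_le_mul_of_nonneg_right hg (by positivity)).trans ?_
    have e3 : (2 : ℝ) ^ x / ru w k * (ru w k * (3 / 2 ^ (12 * a))) = 2 ^ x * (3 / 2 ^ (12 * a)) := by
      field_simp
    rw [e3]
    have e4 : (2 : ℝ) ^ (12 * a) = 2 ^ a * 2 ^ (11 * a) := by
      rw [← pow_add]
      congr 1
      ring
    refine (mul_le_mul_of_nonneg_right (hpow hxa) (by positivity)).trans (le_of_eq ?_)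
    rw [e4]
    field_simp
  rw [e9]
  refine (abs_add_le _ _).trans ((add_le_add b3 hl2).trans ?_)
  rw [← mul_add]
  refine mul_le_of_le_one_right (by positivity) ?_
  have h1 : (3 : ℝ) / 2 ^ (11 * a) ≤ 1 / 2 := by
    rw [div_le_div_iff₀ (by positivity) (by norm_num)]
    have := hpow (show 4 ≤ 11 * a by omega)
    norm_num at this
    linarith
  have h2 : (1 : ℝ) / 2 ^ (6 * a) ≤ 1 / 2 := by
    refine one_div_le_one_div_of_le (by norm_num) ?_
    have := hpow (show 1 ≤ 6 * a by omega)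
    rwa [pow_one] at this
  linarith

end box

/-- **Boxes and cubes.** -/
theorem afd_box (D : ℕ) : ∃ c₀ : ℕ, 4 ≤ c₀ ∧ ∀ {m J : ℕ} {F : Fam m J} {c : ℕ → Fin m}
    {n f x y : ℕ} {w s gf : ℕ → ℕ} {g : ℕ → ℕ → ℕ} {gx : ℕ} {θ : ℝ} {B : F.Ω → Prop}
    {P : PtT F → ℕ → MvPolynomial (Option (Fin m)) ℝ}
    {PH : LnT F → ℕ → MvPolynomial (Option (Fin m)) ℝ}
    {G : ℕ → PtT F → ℕ → MvPolynomial (Option (Fin m)) ℝ}
    {H : ℕ → LnT F → ℕ → MvPolynomial (Option (Fin m)) ℝ} {a y' : ℕ},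
    AfD F c D n f x y w s gf g gx θ B P PH G H → c₀ + x ≤ a → (4 * D + 8) * a + y' ≤ y →
    ∀ ω, B ω → AfE F c n a y' w s g P G ω ∧ ∀ k ≤ n, AfB F c a w s g P G k ω := by
  obtain ⟨c₁, hc₁, hest⟩ := afd_est D
  obtain ⟨C, hC, hlip⟩ := uni_big D
  obtain ⟨c₂, hc₂⟩ := pow_unbounded_of_one_lt C (one_lt_two (α := ℝ))
  refine ⟨c₁ + c₂, by omega, ?_⟩
  intro m J F c n f x y w s gf g gx θ B P PH G H a y' W ha hy ω hω
  have hpow : ∀ {i j : ℕ}, i ≤ j → (2 : ℝ) ^ i ≤ 2 ^ j := fun h => pow_le_pow_right₀ (by norm_num) h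
  have E := hest (a := a) (y' := y') W (by omega) hy ω hω
  refine ⟨E, fun k hk => ?_⟩
  have ha4 := E.a4
  have hxa : x ≤ a := by omega
  have hCa : C ≤ 2 ^ a := hc₂.le.trans (hpow (by omega))
  have hru := ru_pos w k
  have e56 : 2 ^ (3 * a) * ru w k ≤ 2 ^ (5 * a) * ru w k :=
    mul_le_mul_of_nonneg_right (hpow (by omega)) hru.le
  have hown : ∀ i, |aY F c w s P G ω i - aC F c w s P G k ω i| ≤ 2 ^ (3 * a) * ru w k := by
    intro i
    rw [abs_sub_comm]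
    exact W.out E hxa hk hω (W.cpn hk).1 i
  have hA2 : (2 : ℝ) * 2 ^ (3 * a) ≤ 2 ^ (6 * a) := by
    have e1 : (2 : ℝ) * 2 ^ (3 * a) = 2 ^ (3 * a + 1) := by rw [pow_succ]; ring
    rw [e1]
    exact hpow (by omega)
  have hA3 := mul_le_mul_of_nonneg_right hA2 hru.le
  refine ⟨fun b hb i => ?_, fun b hb => W.inn E hxa hk hω hCa (hlip) hb,
    fun i => (hown i).trans e56, fun t ht i => ?_⟩
  · have h1 := W.out E hxa hk hω hb i
    have h2 := abs_sub_le (afc c (afr F c w P G ω) (w 0) (s 0) (s 1) b i) (aY F c w s P G ω i)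
      (aC F c w s P G k ω i)
    have h3 := hown i
    linarith
  · have e1 : afc c (afr F c w P G ω) (w 0) (s 0) (s 1) (oln F ω t) i =
        aY F c w s P G ω i + 2 ^ w 0 * (t - F.t ω) * aX F c w s P G ω i := by
      have e2 : oln F ω t = fun o => bt F ω o + (t - F.t ω) * bd F ω o := by
        funext o
        rw [← oln_t, ← oln_add]
        congr 1
        ring
      rw [e2]
      exact afc_add _ _ _ i
    refine ⟨e1, ?_⟩
    rw [e1]
    have h1 : |2 ^ w 0 * (t - F.t ω)| ≤ ru w k := by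
      have e2 : 2 ^ w 0 * (t - F.t ω) = ru w k * (2 ^ w k * (t - F.t ω)) := by
        unfold ru
        field_simp
      rw [e2, abs_mul, abs_of_pos hru]
      exact mul_le_of_le_one_right hru.le ht
    have hX : |aX F c w s P G ω i| ≤ 2 ^ (3 * a) := by
      fin_cases i
      · show |(1 : ℝ)| ≤ _
        rw [abs_one]
        exact one_le_pow₀ (by norm_num)
      · exact E.X1.trans (hpow (by omega))
      · exact E.X2
    have h2 : |2 ^ w 0 * (t - F.t ω) * aX F c w s P G ω i| ≤ 2 ^ (3 * a) * ru w k := by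
      rw [abs_mul, mul_comm ((2 : ℝ) ^ (3 * a))]
      exact mul_le_mul h1 hX (abs_nonneg _) hru.le
    have h3 := hown i
    have e3 : aY F c w s P G ω i + 2 ^ w 0 * (t - F.t ω) * aX F c w s P G ω i -
        aC F c w s P G k ω i = (aY F c w s P G ω i - aC F c w s P G k ω i) +
          2 ^ w 0 * (t - F.t ω) * aX F c w s P G ω i := by ring
    rw [e3]
    have h4 := abs_add_le (aY F c w s P G ω i - aC F c w s P G k ω i)
      (2 ^ w 0 * (t - F.t ω) * aX F c w s P G ω i)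
    linarith

end Pool.AFF82
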