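import Pool.Agent.H82.CNC.Oln
import Pool.Agent.H82.CNC.Afc

/-!
# The geometry of the affine frame

`AfD`: the data: frame charts (window `f`), windows `w k`, `k ≤ n` (`w 0`: the base), flatness.
`afr`: the numbers of the frame; `aY`, `aX`: own point and direction. `AfD.reg`: the second
derivatives near the own line. `AfD.grd`: the gradient of the frame chart near the own line.
-/

set_option autoImplicit false

namespace Pool.AFF82

open Finset Real MvPolynomial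
open Pool.Agent.H49.Ent Pool.Agent.H32.Dense Pool.STK
open Pool.KA Pool.KSAT Pool.K2S Pool.PB Pool.S6C Pool.GEN Pool.D2R Pool.ISO Pool.CHT Pool.CHX
open Pool.PB.Trl (rt rt_mem t_rt)

variable {m J : ℕ}

/-- The point on two charts at the time `t`. -/
noncomputable def cp3 (c : ℕ → Fin m) (t : ℝ) (G0 G1 : MvPolynomial (Option (Fin m)) ℝ) :
    Option (Fin m) → ℝ := fun k =>
  if k = some (c 1) then eval (kpt c t (eval (kpt c t 0) G0)) G1 else
    kpt c t (eval (kpt c t 0) G0) k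

/-- **The numbers of the frame.** -/
noncomputable def afn (c : ℕ → Fin m) (t : ℝ) (G0 G1 P0 P1 : MvPolynomial (Option (Fin m)) ℝ) :
    AfN where
  t := t
  x0 := eval (kpt c t 0) G0
  a0 := eval (kpt c t 0) (pderiv none P0)
  x1 := eval (kpt c t (eval (kpt c t 0) G0)) G1
  a1 := eval (kpt c t (eval (kpt c t 0) G0)) (pderiv none P1) +
    eval (kpt c t (eval (kpt c t 0) G0)) (pderiv (some (c 0)) P1) *
      eval (kpt c t 0) (pderiv none P0)
  a2 := eval (kpt c t (eval (kpt c t 0) G0)) (pderiv (some (c 0)) P1)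

section frame

variable (F : Fam m J) (c : ℕ → Fin m) (w s : ℕ → ℕ)
  (P : PtT F → ℕ → MvPolynomial (Option (Fin m)) ℝ)
  (G : ℕ → PtT F → ℕ → MvPolynomial (Option (Fin m)) ℝ) (k : ℕ) (ω : F.Ω)

/-- The numbers of the frame of the sample. -/
noncomputable def afr : AfN :=
  afn c (tmc (w 0) (slam F (w 0) ω).2.2) (G 0 (ptr F J ω) 0) (G 0 (ptr F J ω) 1)
    (P (ptr F J ω) 0) (P (ptr F J ω) 1)

/-- The own point in the frame. -/
noncomputable def aY : Fin 3 → ℝ := afc c (afr F c w P G ω) (w 0) (s 0) (s 1) (bt F ω)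

/-- The direction. -/
noncomputable def aX : Fin 3 → ℝ := vlc c (afr F c w P G ω) (w 0) (s 0) (s 1) (bd F ω)

/-- The middle time of the window `k`. -/
noncomputable def tmk : ℝ := (((slam F (w k) ω).2.2 : ℝ) + 1 / 2) / 2 ^ w k

/-- The centre of the window `k`, as a point. -/
noncomputable def cpk : Option (Fin m) → ℝ :=
  cp3 c (tmk F w k ω) (G k (ptr F J ω) 0) (G k (ptr F J ω) 1)

/-- **The centre of the window `k`.** -/
noncomputable def aC : Fin 3 → ℝ := afc c (afr F c w P G ω) (w 0) (s 0) (s 1) (cpk F c w G k ω)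

/-- The base point of the plane. -/
noncomputable def pst : Option (Fin m) → ℝ :=
  kpt c (tmc (w 0) (slam F (w 0) ω).2.2)
    (eval (kpt c (tmc (w 0) (slam F (w 0) ω).2.2) 0) (G 0 (ptr F J ω) 0))

end frame

/-- **The data of the affine frame.** -/
structure AfD {m J : ℕ} (F : Fam m J) (c : ℕ → Fin m) (D n f x y : ℕ) (w s gf : ℕ → ℕ)
    (g : ℕ → ℕ → ℕ) (gx : ℕ) (θ : ℝ) (B : F.Ω → Prop)
    (P : PtT F → ℕ → MvPolynomial (Option (Fin m)) ℝ)
    (PH : LnT F → ℕ → MvPolynomial (Option (Fin m)) ℝ)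
    (G : ℕ → PtT F → ℕ → MvPolynomial (Option (Fin m)) ℝ)
    (H : ℕ → LnT F → ℕ → MvPolynomial (Option (Fin m)) ℝ) : Prop where
  hc : Set.InjOn c (Set.Iio 2)
  fo : f ≤ w 0
  ow : ∀ k ≤ n, w 0 ≤ w k
  wJ : ∀ k ≤ n, w k ≤ J
  dP : ∀ y l, (P y l).totalDegree ≤ D
  dG : ∀ k ≤ n, ∀ y l, (G k y l).totalDegree ≤ D
  pP : ∀ y l, DepC c l (P y l)
  pG : ∀ k ≤ n, ∀ y l, DepC c l (G k y l)
  clP : ∀ ω, B ω → ∀ l < 2, P (ptr F J ω) l = PH (slam F f ω) l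
  clG : ∀ k ≤ n, ∀ ω, B ω → ∀ l < 2, G k (ptr F J ω) l = H k (slam F (w k) ω) l
  ownP : ∀ ω, B ω → ∀ l < 2, ∀ τ ∈ Set.Icc (0 : ℝ) 1,
    |ptw F f ω τ (some (c l)) - eval (ptw F f ω τ) (P (ptr F J ω) l)| ≤ 2 ^ x / 2 ^ gf l
  ownG : ∀ k ≤ n, ∀ ω, B ω → ∀ l < 2, ∀ τ ∈ Set.Icc (0 : ℝ) 1,
    |ptw F (w k) ω τ (some (c l)) - eval (ptw F (w k) ω τ) (G k (ptr F J ω) l)| ≤
      2 ^ x / 2 ^ g k l
  pos : ∀ k ≤ n, ∀ ω, B ω → ∀ l < 2,
    |F.x ω (c l) - eval (bt F ω) (G k (ptr F J ω) l)| ≤ 1 / 2 ^ g k l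
  bal : ∀ k ≤ n, ∀ ω, B ω → ∀ b, NBx c (G k (ptr F J ω)) (g k) (w k) (F.t ω) 1 b →
    |eval b (Gno (c 1) J J (fun y => P y 1) (ptr F J ω)) - eval b (G k (ptr F J ω) 1)| ≤
      2 ^ x / 2 ^ g k 1
  lv1 : ∀ k ≤ n, ∀ l < 2, s l + (w k - w 0) ≤ g k l + x
  lv2 : ∀ k ≤ n, ∀ l < 2, g k l ≤ s l + (w k - w 0) + x
  lf : ∀ l < 2, s l + f ≤ gf l + w 0 + x
  gx1 : gx + x + 2 ≤ g 0 0
  th0 : 0 ≤ θ
  th : 2 ^ s 1 * θ ≤ 1 / 2 ^ y
  flat : ∀ ω, B ω → flW F c (w 0) (s 0) gx P (G 0) ω ≤ θ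

/-- Growth along a segment. -/
theorem seg_gro (D : ℕ) : ∃ C : ℝ, 1 ≤ C ∧ ∀ {m : ℕ} {Q : MvPolynomial (Option (Fin m)) ℝ}
    {p q : Option (Fin m) → ℝ} {n : ℕ} {S : ℝ}, Q.totalDegree ≤ D →
    (∀ u : ℝ, 0 ≤ u → u ≤ 1 / 2 ^ n → |eval (fun o => p o + u * (q o - p o)) Q| ≤ S) →
    |eval q Q| ≤ C * 2 ^ (n * D) * S := by
  obtain ⟨C, hC, h⟩ := grow_one D
  refine ⟨C, hC, ?_⟩
  intro m Q p q n S hQ hS
  obtain ⟨v, hv⟩ : ∃ v : Option (Fin m) → Polynomial ℝ, v = fun o =>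
    Polynomial.C (p o) + Polynomial.C (q o - p o) * Polynomial.X := ⟨_, rfl⟩
  have hvd : ∀ o, (v o).natDegree ≤ 1 := fun o => by
    rw [hv]
    refine (Polynomial.natDegree_add_le _ _).trans (max_le ?_ ?_)
    · rw [Polynomial.natDegree_C]
      exact Nat.zero_le _
    · exact (Polynomial.natDegree_C_mul_le _ _).trans Polynomial.natDegree_X_le
  have hve : ∀ u o, (v o).eval u = p o + u * (q o - p o) := fun u o => by
    rw [hv]
    simp only [Polynomial.eval_add, Polynomial.eval_mul, Polynomial.eval_C, Polynomial.eval_X]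
    ring
  have h1 := h (MvPolynomial.aeval v Q) S n D
    ((Pool.KBX.natDegree_aeval_le Q v hvd hQ).trans (le_of_eq (by ring))) le_rfl (fun τ hτ => by
      rw [Pool.KBX.eval_aeval_poly]
      simp only [hve]
      exact hS _ (div_nonneg hτ.1 (by positivity)) (div_le_div_of_nonneg_right hτ.2 (by positivity)))
  rw [Pool.KBX.eval_aeval_poly] at h1
  have e1 : (fun o => (v o).eval 1) = q := by
    funext o
    rw [hve]
    ring
  rwa [e1] at h1

section geo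

variable {F : Fam m J} {c : ℕ → Fin m} {D n f x y : ℕ} {w s gf : ℕ → ℕ} {g : ℕ → ℕ → ℕ} {gx : ℕ}
  {θ : ℝ} {B : F.Ω → Prop} {P : PtT F → ℕ → MvPolynomial (Option (Fin m)) ℝ}
  {PH : LnT F → ℕ → MvPolynomial (Option (Fin m)) ℝ}
  {G : ℕ → PtT F → ℕ → MvPolynomial (Option (Fin m)) ℝ}
  {H : ℕ → LnT F → ℕ → MvPolynomial (Option (Fin m)) ℝ}

/-- The time of the sample in its window. -/
theorem tmk_near {a : ℕ} (ha : a ≤ J) (ω : F.Ω) :
    |2 ^ a * (F.t ω - tmc a (slam F a ω).2.2) - 1 / 2| ≤ 1 / 2 := by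
  have h1 := t_rt F ha ω
  have h2 := rt_mem F a ω
  have pa : (0 : ℝ) < 2 ^ a := by positivity
  have e1 : 2 ^ a * (F.t ω - tmc a (slam F a ω).2.2) = rt F a ω := by
    unfold tmc
    rw [h1]
    field_simp
    ring
  rw [e1, abs_le]
  constructor <;> linarith [h2.1, h2.2]

/-- The own line and the charts of the windows. -/
theorem afd_ext (D : ℕ) : ∃ c₀ : ℕ, 4 ≤ c₀ ∧ ∀ {m J : ℕ} {F : Fam m J} {c : ℕ → Fin m}
    {n f x y : ℕ} {w s gf : ℕ → ℕ} {g : ℕ → ℕ → ℕ} {gx : ℕ} {θ : ℝ} {B : F.Ω → Prop}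
    {P : PtT F → ℕ → MvPolynomial (Option (Fin m)) ℝ}
    {PH : LnT F → ℕ → MvPolynomial (Option (Fin m)) ℝ}
    {G : ℕ → PtT F → ℕ → MvPolynomial (Option (Fin m)) ℝ}
    {H : ℕ → LnT F → ℕ → MvPolynomial (Option (Fin m)) ℝ},
    AfD F c D n f x y w s gf g gx θ B P PH G H → ∀ ω, B ω → ∀ l < 2,
    (∀ k ≤ n, ∀ t t' : ℝ, |2 ^ w k * (t - F.t ω)| ≤ 4 → |2 ^ w k * (t' - F.t ω)| ≤ 4 →
      |oln F ω t (some (c l)) - eval (oln F ω t) (G k (ptr F J ω) l)| ≤ 2 ^ (c₀ + x) / 2 ^ g k l ∧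
      |(oln F ω t (some (c l)) - eval (oln F ω t) (G k (ptr F J ω) l)) -
        (oln F ω t' (some (c l)) - eval (oln F ω t') (G k (ptr F J ω) l))| ≤
          2 ^ (c₀ + x) / 2 ^ g k l * |2 ^ w k * (t - t')|) ∧
    (∀ t : ℝ, |2 ^ f * (t - F.t ω)| ≤ 4 → |bd F ω (some (c l)) -
      dd (P (ptr F J ω) l) (oln F ω t) (bd F ω)| ≤ 2 ^ (c₀ + x) / 2 ^ gf l * 2 ^ f) := by
  obtain ⟨C, hC, h⟩ := own_ext D
  obtain ⟨c₀, hc₀⟩ := pow_unbounded_of_one_lt C (one_lt_two (α := ℝ))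
  refine ⟨c₀ + 4, by omega, ?_⟩
  intro m J F c n f x y w s gf g gx θ B P PH G H W ω hω l hl
  have hA : C * 2 ^ x ≤ (2 : ℝ) ^ (c₀ + 4 + x) := by
    rw [pow_add]
    refine mul_le_mul_of_nonneg_right (hc₀.le.trans ?_) (by positivity)
    exact pow_le_pow_right₀ (by norm_num) (by omega)
  have hle : ∀ gg : ℕ, C * (2 ^ x / 2 ^ gg) ≤ (2 : ℝ) ^ (c₀ + 4 + x) / 2 ^ gg := fun gg => by
    rw [← mul_div_assoc]
    exact div_le_div_of_nonneg_right hA (by positivity)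
  refine ⟨fun k hk t t' ht ht' => ?_, fun t ht => ?_⟩
  · obtain ⟨h1, -, h3⟩ := h (W.wJ k hk) (W.dG k hk _ l) (W.ownG k hk ω hω l hl) t t' ht ht'
    exact ⟨h1.trans (hle _), h3.trans (mul_le_mul_of_nonneg_right (hle _) (abs_nonneg _))⟩
  · have hfJ : f ≤ J := W.fo.trans (W.wJ 0 (Nat.zero_le _))
    obtain ⟨-, h2, -⟩ := h hfJ (W.dP _ l) (W.ownP ω hω l hl) t t ht ht
    exact h2.trans (mul_le_mul_of_nonneg_right (hle _) (by positivity))

end geo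

/-- **The second derivatives near the own line.** -/
theorem afd_reg (D : ℕ) : ∃ C : ℝ, 1 ≤ C ∧ ∀ {m J : ℕ} {F : Fam m J} {c : ℕ → Fin m}
    {n f x y : ℕ} {w s gf : ℕ → ℕ} {g : ℕ → ℕ → ℕ} {gx : ℕ} {θ : ℝ} {B : F.Ω → Prop}
    {P : PtT F → ℕ → MvPolynomial (Option (Fin m)) ℝ}
    {PH : LnT F → ℕ → MvPolynomial (Option (Fin m)) ℝ}
    {G : ℕ → PtT F → ℕ → MvPolynomial (Option (Fin m)) ℝ}
    {H : ℕ → LnT F → ℕ → MvPolynomial (Option (Fin m)) ℝ},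
    AfD F c D n f x y w s gf g gx θ B P PH G H → ∀ ω, B ω → ∀ (K : ℕ) (q : Option (Fin m) → ℝ),
    |2 ^ w 0 * (q none - F.t ω)| ≤ 3 →
    |2 ^ s 0 * (q (some (c 0)) - oln F ω (q none) (some (c 0)))| ≤ 2 ^ K → ∀ i j,
    |eval q (npl c (w 0) (s 0) (afr F c w P G ω).a0 (P (ptr F J ω) 1) i j)| ≤
      C * 2 ^ ((K + 4) * D) * θ := by
  obtain ⟨C, hC, hs⟩ := seg_gro D
  refine ⟨C, hC, ?_⟩
  intro m J F c n f x y w s gf g gx θ B P PH G H W ω hω K q hq0 hq1 i j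
  obtain ⟨o, ho⟩ : ∃ o, o = w 0 := ⟨_, rfl⟩
  obtain ⟨t₀, ht₀⟩ : ∃ t₀, t₀ = tmc o (slam F o ω).2.2 := ⟨_, rfl⟩
  have hoJ : o ≤ J := by rw [ho]; exact W.wJ 0 (Nat.zero_le _)
  have po : (0 : ℝ) < 2 ^ o := by positivity
  have ps : (0 : ℝ) < 2 ^ s 0 := by positivity
  have pg : (0 : ℝ) < 2 ^ gx := by positivity
  have hal : (afr F c w P G ω).a0 = alp c o (P (ptr F J ω) 0) (slam F o ω).2.2 := by
    rw [ho]
    rfl
  rw [hal, ← ho]
  rw [← ho] at hq0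
  -- the starting point
  obtain ⟨tm, htm⟩ : ∃ tm, tm = t₀ + 1 / 2 / 2 ^ o := ⟨_, rfl⟩
  have hn := tmk_near hoJ ω
  rw [← ht₀] at hn
  have htt : |2 ^ o * (tm - F.t ω)| ≤ 1 / 2 := by
    have e1 : 2 ^ o * (tm - F.t ω) = -(2 ^ o * (F.t ω - t₀) - 1 / 2) := by
      rw [htm]
      field_simp
      ring
    rw [e1, abs_neg]
    exact hn
  refine (hs (p := oln F ω tm) (q := q) (n := K + 4) (S := θ) (npl_deg (W.dP _ _) i j) ?_)
  intro u hu0 hu1
  obtain ⟨b, hb⟩ : ∃ b : Option (Fin m) → ℝ, b = fun o => oln F ω tm o + u * (q o - oln F ω tm o) :=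
    ⟨_, rfl⟩
  rw [← hb]
  have hbn : b none = tm + u * (q none - tm) := by rw [hb]; rfl
  have hu16 : u ≤ 1 / 16 := by
    refine hu1.trans (one_div_le_one_div_of_le (by norm_num) ?_)
    rw [pow_add]
    have : (1 : ℝ) ≤ 2 ^ K := one_le_pow₀ (by norm_num)
    linarith
  -- the time
  have h1 : |2 ^ o * (u * (q none - tm))| ≤ 1 / 4 := by
    have e1 : 2 ^ o * (u * (q none - tm)) = u * (2 ^ o * (q none - F.t ω) -
      2 ^ o * (tm - F.t ω)) := by ring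
    rw [e1, abs_mul, abs_of_nonneg hu0]
    have h2 := (abs_sub (2 ^ o * (q none - F.t ω)) (2 ^ o * (tm - F.t ω))).trans
      (add_le_add hq0 htt)
    calc u * |2 ^ o * (q none - F.t ω) - 2 ^ o * (tm - F.t ω)| ≤ 1 / 16 * (3 + 1 / 2) :=
          mul_le_mul hu16 h2 (abs_nonneg _) (by norm_num)
      _ ≤ _ := by norm_num
  rw [abs_le] at h1
  have hb0 : t₀ ≤ b none ∧ b none ≤ t₀ + 1 / 2 ^ o := by
    have e1 : 2 ^ o * (b none - t₀) = 1 / 2 + 2 ^ o * (u * (q none - tm)) := by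
      rw [hbn, htm]
      field_simp
      ring
    constructor
    · by_contra hcon
      push Not at hcon
      have : 2 ^ o * (b none - t₀) < 0 := mul_neg_of_pos_of_neg po (by linarith)
      linarith
    · have h3 : 2 ^ o * (b none - t₀) ≤ 1 := by linarith
      have h4 : b none - t₀ ≤ 1 / 2 ^ o := by
        rw [le_div_iff₀ po]
        linarith
      linarith
  -- the height
  have hbc : b (some (c 0)) - oln F ω (b none) (some (c 0)) =
      u * (q (some (c 0)) - oln F ω (q none) (some (c 0))) := by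
    have e1 : oln F ω (b none) (some (c 0)) = oln F ω tm (some (c 0)) +
        u * (q none - tm) * bd F ω (some (c 0)) := by
      rw [hbn, oln_add]
    have e2 : oln F ω (q none) (some (c 0)) = oln F ω tm (some (c 0)) +
        (q none - tm) * bd F ω (some (c 0)) := by
      rw [← oln_add]
      congr 1
      ring
    rw [e1, e2, hb]
    ring
  have h4 : |b (some (c 0)) - oln F ω (b none) (some (c 0))| ≤ 1 / 16 / 2 ^ s 0 := by
    rw [hbc, abs_mul, abs_of_nonneg hu0]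
    rw [abs_mul, abs_of_pos ps] at hq1
    have h5 : |q (some (c 0)) - oln F ω (q none) (some (c 0))| ≤ 2 ^ K / 2 ^ s 0 := by
      rw [le_div_iff₀ ps]
      linarith
    refine (mul_le_mul hu1 h5 (abs_nonneg _) (by positivity)).trans (le_of_eq ?_)
    rw [pow_add]
    field_simp
    norm_num
  have h6 : |oln F ω (b none) (some (c 0)) - eval b (G 0 (ptr F J ω) 0)| ≤ 2 ^ x / 2 ^ g 0 0 := by
    have e1 : eval b (G 0 (ptr F J ω) 0) = eval (oln F ω (b none)) (G 0 (ptr F J ω) 0) :=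
      W.pG 0 (Nat.zero_le _) _ 0 _ _ rfl fun l hl => absurd hl (Nat.not_lt_zero l)
    obtain ⟨τ, hτ⟩ : ∃ τ : ℝ, τ = 2 ^ o * (b none - t₀) := ⟨_, rfl⟩
    have e2 : ptw F o ω τ = oln F ω (b none) := by
      rw [ptw_oln, hτ, ht₀]
      congr 1
      unfold tmc
      field_simp
      ring
    have hτ1 : τ ∈ Set.Icc (0 : ℝ) 1 := by
      rw [hτ]
      refine ⟨mul_nonneg po.le (by linarith [hb0.1]), ?_⟩
      have h7 : b none - t₀ ≤ 1 / 2 ^ o := by linarith [hb0.2]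
      rw [le_div_iff₀ po] at h7
      linarith
    have h8 := W.ownG 0 (Nat.zero_le _) ω hω 0 (by norm_num) τ hτ1
    rw [← ho, e2] at h8
    rw [e1]
    exact h8
  have hk1 : (2 : ℝ) ^ x / 2 ^ g 0 0 ≤ 1 / 4 / 2 ^ gx := by
    rw [div_div, div_le_div_iff₀ (by positivity) (by positivity), one_mul]
    have e1 : (2 : ℝ) ^ x * (4 * 2 ^ gx) = 2 ^ (gx + x + 2) := by
      rw [pow_add, pow_add]
      ring
    rw [e1]
    exact pow_le_pow_right₀ (by norm_num) W.gx1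
  have hk2 : (1 : ℝ) / 16 / 2 ^ s 0 ≤ 1 / 16 / 2 ^ gx := by
    refine div_le_div_of_nonneg_left (by norm_num) pg (pow_le_pow_right₀ (by norm_num) ?_)
    have h7 := W.gx1
    have h8 := W.lv2 0 (Nat.zero_le _) 0 (by norm_num)
    omega
  have hbox : KBx c (G 0 (ptr F J ω) 0) gx o t₀ b := by
    refine ⟨hb0.1, hb0.2, ?_⟩
    have h7 := abs_sub_le (b (some (c 0))) (oln F ω (b none) (some (c 0)))
      (eval b (G 0 (ptr F J ω) 0))
    refine h7.trans ((add_le_add (h4.trans hk2) (h6.trans hk1)).trans ?_)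
    rw [← add_div]
    exact div_le_div_of_nonneg_right (by norm_num) pg.le
  rw [ht₀] at hbox
  have h9 := nfl_le (c := c) (o := o) (s := s 0) (g := gx) (P0 := P (ptr F J ω) 0)
    (P1 := P (ptr F J ω) 1) (G0 := G 0 (ptr F J ω) 0) (n := (slam F o ω).2.2)
    (W.pG 0 (Nat.zero_le _) _ 0) (W.pP _ 1) i j hbox
  refine h9.trans ?_
  have h10 := W.flat ω hω
  rw [← ho] at h10
  exact h10

end Pool.AFF82
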