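import Pool.Agent.H82.CNC.Aft
import Pool.Agent.H82.CNC.Deg
import Pool.Agent.H40.FR.Grid

/-!
# The supremum of a polynomial over the plane box of a ball; the second derivatives in the plane

`KBx`: times after `t` in the window `o`, heights over `G0`. `ksp`: the supremum. `npl`: the second
derivatives of a polynomial in the two directions of the plane, in the units of the base window.
`uni_lip`: a univariate polynomial bounded on the unit interval.
-/

set_option autoImplicit false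

namespace Pool.AFF82

open Finset Real MvPolynomial
open Pool.KA Pool.KSAT Pool.PB Pool.GEN Pool.D2R Pool.ISO Pool.CHT Pool.CHX
open Pool.CUB46 (q2 l1)

variable {m : ℕ}

/-- A point of the plane. -/
noncomputable def kpt (c : ℕ → Fin m) (t x : ℝ) : Option (Fin m) → ℝ :=
  fun o => if o = none then t else if o = some (c 0) then x else 0

theorem kpt_none (c : ℕ → Fin m) (t x : ℝ) : kpt c t x none = t := if_pos rfl

theorem kpt_zero (c : ℕ → Fin m) (t x : ℝ) : kpt c t x (some (c 0)) = x := by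
  unfold kpt
  rw [if_neg (by simp), if_pos rfl]

/-- **The plane box** of the times after `t`. -/
def KBx (c : ℕ → Fin m) (G0 : MvPolynomial (Option (Fin m)) ℝ) (g o : ℕ) (t : ℝ)
    (b : Option (Fin m) → ℝ) : Prop :=
  t ≤ b none ∧ b none ≤ t + 1 / 2 ^ o ∧ |b (some (c 0)) - eval b G0| ≤ 1 / 2 ^ g

/-- The parametrization. -/
noncomputable def kph (c : ℕ → Fin m) (G0 : MvPolynomial (Option (Fin m)) ℝ) (g o : ℕ) (t : ℝ)
    (z : ℝ × ℝ) : Option (Fin m) → ℝ :=
  kpt c (t + z.1 / 2 ^ o) (eval (kpt c (t + z.1 / 2 ^ o) 0) G0 + z.2 / 2 ^ g)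

/-- **The supremum.** -/
noncomputable def ksp (c : ℕ → Fin m) (G0 : MvPolynomial (Option (Fin m)) ℝ) (g o : ℕ) (t : ℝ)
    (Q : MvPolynomial (Option (Fin m)) ℝ) : ℝ :=
  sSup ((fun z => |eval (kph c G0 g o t z) Q|) '' (Set.Icc (0 : ℝ) 1 ×ˢ Set.Icc (-1 : ℝ) 1))

section ksp

variable {c : ℕ → Fin m} {G0 Q : MvPolynomial (Option (Fin m)) ℝ} {g o : ℕ} {t : ℝ}

theorem kph_cont : Continuous (kph c G0 g o t) := by
  have h1 : ∀ f h : ℝ × ℝ → ℝ, Continuous f → Continuous h →
      Continuous fun z => kpt c (f z) (h z) := by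
    intro f h hf hh
    refine continuous_pi fun k => ?_
    unfold kpt
    by_cases h1 : k = none
    · simp only [if_pos h1]
      exact hf
    · simp only [if_neg h1]
      by_cases h2 : k = some (c 0)
      · simp only [if_pos h2]
        exact hh
      · simp only [if_neg h2]
        exact continuous_const
  have hf : Continuous fun z : ℝ × ℝ => t + z.1 / 2 ^ o :=
    continuous_const.add (continuous_fst.div_const _)
  refine h1 _ _ hf ?_
  refine Continuous.add ?_ (continuous_snd.div_const _)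
  exact (MvPolynomial.continuous_eval G0).comp (h1 _ _ hf continuous_const)

theorem ksp_bdd : BddAbove ((fun z => |eval (kph c G0 g o t z) Q|) ''
    (Set.Icc (0 : ℝ) 1 ×ˢ Set.Icc (-1 : ℝ) 1)) :=
  (isCompact_Icc.prod isCompact_Icc).bddAbove_image
    (((MvPolynomial.continuous_eval Q).comp kph_cont).abs.continuousOn)

theorem ksp_nonneg : 0 ≤ ksp c G0 g o t Q := by
  refine le_trans (abs_nonneg _) (le_csSup ksp_bdd (Set.mem_image_of_mem _
    (show ((0 : ℝ), (0 : ℝ)) ∈ Set.Icc (0 : ℝ) 1 ×ˢ Set.Icc (-1 : ℝ) 1 from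
      ⟨⟨le_rfl, zero_le_one⟩, by norm_num⟩)))

/-- A point of the box. -/
theorem kph_box (hG : DepC c 0 G0) {z : ℝ × ℝ}
    (hz : z ∈ Set.Icc (0 : ℝ) 1 ×ˢ Set.Icc (-1 : ℝ) 1) : KBx c G0 g o t (kph c G0 g o t z) := by
  obtain ⟨⟨h1, h2⟩, h3, h4⟩ := hz
  have po : (0 : ℝ) < 2 ^ o := by positivity
  have pg : (0 : ℝ) < 2 ^ g := by positivity
  refine ⟨?_, ?_, ?_⟩
  · unfold kph
    rw [kpt_none]
    have : 0 ≤ z.1 / 2 ^ o := by positivity
    linarith
  · unfold kph
    rw [kpt_none]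
    have : z.1 / 2 ^ o ≤ 1 / 2 ^ o := div_le_div_of_nonneg_right h2 po.le
    linarith
  · have e1 : eval (kph c G0 g o t z) G0 = eval (kpt c (t + z.1 / 2 ^ o) 0) G0 :=
      hG _ _ (by unfold kph; rw [kpt_none, kpt_none]) fun l hl => absurd hl (Nat.not_lt_zero l)
    rw [e1]
    unfold kph
    rw [kpt_zero, add_sub_cancel_left, abs_div, abs_of_pos pg]
    exact div_le_div_of_nonneg_right (abs_le.2 ⟨h3, h4⟩) pg.le

theorem ksp_le (hG : DepC c 0 G0) (hQ : DepC c 1 Q) {b : Option (Fin m) → ℝ}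
    (hb : KBx c G0 g o t b) : |eval b Q| ≤ ksp c G0 g o t Q := by
  obtain ⟨h1, h2, h3⟩ := hb
  have po : (0 : ℝ) < 2 ^ o := by positivity
  have pg : (0 : ℝ) < 2 ^ g := by positivity
  obtain ⟨z, hz⟩ : ∃ z : ℝ × ℝ, z = (2 ^ o * (b none - t), 2 ^ g * (b (some (c 0)) - eval b G0)) :=
    ⟨_, rfl⟩
  have e1 : t + z.1 / 2 ^ o = b none := by
    rw [hz]
    field_simp
    ring
  have hzm : z ∈ Set.Icc (0 : ℝ) 1 ×ˢ Set.Icc (-1 : ℝ) 1 := by
    rw [hz]
    refine ⟨⟨?_, ?_⟩, ?_, ?_⟩
    · show 0 ≤ 2 ^ o * (b none - t)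
      exact mul_nonneg po.le (by linarith)
    · show 2 ^ o * (b none - t) ≤ 1
      have h4 : b none - t ≤ 1 / 2 ^ o := by linarith
      rw [le_div_iff₀ po] at h4
      linarith
    · show -1 ≤ 2 ^ g * (b (some (c 0)) - eval b G0)
      have h4 := (abs_le.1 h3).1
      rw [← neg_div, div_le_iff₀ pg] at h4
      linarith
    · show 2 ^ g * (b (some (c 0)) - eval b G0) ≤ 1
      have h4 := (abs_le.1 h3).2
      rw [le_div_iff₀ pg] at h4
      linarith
  have e2 : eval (kph c G0 g o t z) Q = eval b Q := by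
    refine hQ _ _ ?_ fun l hl => ?_
    · unfold kph
      rw [kpt_none, e1]
    · have : l = 0 := by omega
      subst this
      have e3 : eval (kpt c (b none) 0) G0 = eval b G0 :=
        hG _ _ (kpt_none _ _ _) fun l hl => absurd hl (Nat.not_lt_zero l)
      unfold kph
      rw [kpt_zero, e1, e3, hz]
      show eval b G0 + 2 ^ g * (b (some (c 0)) - eval b G0) / 2 ^ g = _
      field_simp
      ring
  rw [← e2]
  exact le_csSup ksp_bdd (Set.mem_image_of_mem _ hzm)

theorem ksp_of (hG : DepC c 0 G0) {M : ℝ} (h : ∀ b, KBx c G0 g o t b → |eval b Q| ≤ M) :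
    ksp c G0 g o t Q ≤ M := by
  refine csSup_le (Set.Nonempty.image _ ⟨((0 : ℝ), (0 : ℝ)), ⟨le_rfl, zero_le_one⟩, by norm_num⟩) ?_
  rintro _ ⟨z, hz, rfl⟩
  exact h _ (kph_box hG hz)

end ksp

/-! ### The second derivatives in the plane -/

/-- The two directions of the plane, in the units of the base window. -/
noncomputable def evp (c : ℕ → Fin m) (o s : ℕ) (al : ℝ) : Fin 3 → Option (Fin m) → ℝ :=
  ![fun k => if k = none then 1 / 2 ^ o else if k = some (c 0) then al / 2 ^ o else 0,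
    fun k => if k = some (c 0) then 1 / 2 ^ s else 0, fun _ => 0]

/-- **The second derivatives.** -/
noncomputable def npl (c : ℕ → Fin m) (o s : ℕ) (al : ℝ) (Q : MvPolynomial (Option (Fin m)) ℝ)
    (i j : Fin 3) : MvPolynomial (Option (Fin m)) ℝ :=
  dpl (evp c o s al j) (dpl (evp c o s al i) Q)

section npl

variable {c : ℕ → Fin m} {o s : ℕ} {al : ℝ} {Q : MvPolynomial (Option (Fin m)) ℝ}

theorem eval_npl (i j : Fin 3) (b : Option (Fin m) → ℝ) :
    eval b (npl c o s al Q i j) = hs Q b (evp c o s al i) (evp c o s al j) := by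
  unfold npl
  rw [eval_dpl, dd_dpl]

theorem npl_deg {D : ℕ} (h : Q.totalDegree ≤ D) (i j : Fin 3) :
    (npl c o s al Q i j).totalDegree ≤ D := dpl_deg _ (dpl_deg _ h)

theorem npl_dep {i' : ℕ} (h : DepC c i' Q) (i j : Fin 3) : DepC c i' (npl c o s al Q i j) :=
  dpl_dep (dpl_dep h _) _

theorem npl_symm (i j : Fin 3) (b : Option (Fin m) → ℝ) :
    eval b (npl c o s al Q i j) = eval b (npl c o s al Q j i) := by
  rw [eval_npl, eval_npl, hs_comm]

theorem hs_zero_right (R : MvPolynomial (Option (Fin m)) ℝ) (x W : Option (Fin m) → ℝ) :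
    hs R x W (fun _ => 0) = 0 := by
  unfold hs
  exact Finset.sum_eq_zero fun o _ => mul_zero _

theorem npl_two (i : Fin 3) (b : Option (Fin m) → ℝ) :
    eval b (npl c o s al Q i 2) = 0 ∧ eval b (npl c o s al Q 2 i) = 0 := by
  have h1 : eval b (npl c o s al Q i 2) = 0 := by
    rw [eval_npl]
    exact hs_zero_right _ _ _
  exact ⟨h1, by rw [npl_symm]; exact h1⟩

/-- The form at a vector of the plane. -/
theorem q2_npl (b : Option (Fin m) → ℝ) {X : Fin 3 → ℝ} (hX : X 0 = 1) :
    q2 (fun i j => eval b (npl c o s al Q i j)) X X = eval b (npl c o s al Q 0 0) +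
      2 * eval b (npl c o s al Q 0 1) * X 1 + eval b (npl c o s al Q 1 1) * X 1 ^ 2 := by
  unfold q2
  simp only [Fin.sum_univ_three]
  rw [(npl_two 0 b).1, (npl_two 1 b).1, (npl_two 0 b).2, (npl_two 1 b).2, (npl_two 2 b).1,
    npl_symm 1 0, hX]
  ring

theorem det_npl (b : Option (Fin m) → ℝ) :
    (Matrix.of fun i j => eval b (npl c o s al Q i j)).det = 0 := by
  rw [Matrix.det_fin_three]
  simp only [Matrix.of_apply]
  rw [(npl_two 0 b).1, (npl_two 1 b).1, (npl_two 0 b).2, (npl_two 1 b).2, (npl_two 2 b).1]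
  ring

/-- Two vectors with the same plane components. -/
theorem hs_congr1 {i : ℕ} (hQ : DepC c i Q) (x : Option (Fin m) → ℝ) {W V W' V' : Option (Fin m) → ℝ}
    (h0 : W none = W' none) (h : ∀ l < i, W (some (c l)) = W' (some (c l)))
    (h0' : V none = V' none) (h' : ∀ l < i, V (some (c l)) = V' (some (c l))) :
    hs Q x W V = hs Q x W' V' := by
  have e1 : ∀ W W' V : Option (Fin m) → ℝ, W none = W' none →
      (∀ l < i, W (some (c l)) = W' (some (c l))) → hs Q x W V = hs Q x W' V := by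
    intro W W' V h0 h
    unfold hs
    exact Finset.sum_congr rfl fun o _ => by rw [dd_congr (depC_pderiv hQ o) x h0 h]
  rw [e1 W W' V h0 h, hs_comm, e1 V V' W' h0' h', hs_comm]

/-- **The form at the velocity.** -/
theorem npl_vel (hQ : DepC c 1 Q) (b : Option (Fin m) → ℝ) {V : Option (Fin m) → ℝ}
    (hV : V none = 1) : eval b (npl c o s al Q 0 0) +
      2 * eval b (npl c o s al Q 0 1) * (2 ^ s / 2 ^ o * (V (some (c 0)) - al)) +
      eval b (npl c o s al Q 1 1) * (2 ^ s / 2 ^ o * (V (some (c 0)) - al)) ^ 2 =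
      (1 / 2 ^ o) ^ 2 * hs Q b V V := by
  obtain ⟨Y, hY⟩ : ∃ Y, Y = 2 ^ s / 2 ^ o * (V (some (c 0)) - al) := ⟨_, rfl⟩
  rw [← hY]
  have e0 : hs Q b V V = hs Q b ((2 : ℝ) ^ o • (evp c o s al 0 + Y • evp c o s al 1))
      ((2 : ℝ) ^ o • (evp c o s al 0 + Y • evp c o s al 1)) := by
    have k0 : V none = ((2 : ℝ) ^ o • (evp c o s al 0 + Y • evp c o s al 1)) none := by
      show V none = 2 ^ o * ((if (none : Option (Fin m)) = none then 1 / 2 ^ o else
        if (none : Option (Fin m)) = some (c 0) then al / 2 ^ o else 0) +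
        Y * (if (none : Option (Fin m)) = some (c 0) then 1 / 2 ^ s else 0))
      rw [hV, if_pos rfl, if_neg (by simp), mul_zero, add_zero]
      field_simp
    have k1 : ∀ l < 1, V (some (c l)) =
        ((2 : ℝ) ^ o • (evp c o s al 0 + Y • evp c o s al 1)) (some (c l)) := by
      intro l hl
      have : l = 0 := by omega
      subst this
      show V (some (c 0)) = 2 ^ o * ((if some (c 0) = none then 1 / 2 ^ o else
        if some (c 0) = some (c 0) then al / 2 ^ o else 0) +
        Y * (if some (c 0) = some (c 0) then 1 / 2 ^ s else 0))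
      rw [if_neg (by simp), if_pos rfl, if_pos rfl, hY]
      field_simp
      ring
    exact hs_congr1 hQ b k0 k1 k0 k1
  rw [e0, hs_smul_left, hs_smul_right, hs_add_left, hs_add_right, hs_add_right, hs_smul_left,
    hs_smul_left, hs_smul_right, hs_smul_right, hs_comm Q b (evp c o s al 1) (evp c o s al 0)]
  simp only [eval_npl]
  field_simp
  ring

end npl

/-- A univariate polynomial which is bounded on the unit interval. -/
theorem uni_lip (D : ℕ) : ∃ C : ℝ, 1 ≤ C ∧ ∀ (p : Polynomial ℝ) (S : ℝ), p.natDegree ≤ D →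
    (∀ t ∈ Set.Icc (0 : ℝ) 1, |p.eval t| ≤ S) → ∀ x y : ℝ, |x| ≤ 2 → |y| ≤ 2 →
      |p.eval x - p.eval y| ≤ C * S * |x - y| := by
  obtain ⟨C, hC, h⟩ := Pool.Agent.H40.FR.unit_coef D
  obtain ⟨A, hA⟩ : ∃ A : ℝ, A = ∑ j ∈ range (D + 1), ((j : ℝ) + 1) * 2 ^ j := ⟨_, rfl⟩
  have hA0 : 0 ≤ A := by
    rw [hA]
    exact Finset.sum_nonneg fun j _ => by positivity
  refine ⟨C * A + 1, by nlinarith, ?_⟩
  intro p S hp hS x y hx hy
  have hS0 : 0 ≤ S := (abs_nonneg _).trans (hS 0 ⟨le_rfl, by norm_num⟩)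
  have h1 := h p S hp hS
  have hd : p.derivative.natDegree < D + 1 :=
    lt_of_le_of_lt ((Polynomial.natDegree_derivative_le p).trans (Nat.sub_le _ _)) (by omega)
  have hder : ∀ z ∈ Set.Icc (-2 : ℝ) 2, |p.derivative.eval z| ≤ C * S * A := by
    intro z hz
    rw [Polynomial.eval_eq_sum_range' hd]
    refine (Finset.abs_sum_le_sum_abs _ _).trans ?_
    rw [hA, Finset.mul_sum]
    refine Finset.sum_le_sum fun j _ => ?_
    rw [Polynomial.coeff_derivative, abs_mul, abs_mul, abs_pow]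
    have h3 : |z| ^ j ≤ 2 ^ j := pow_le_pow_left₀ (abs_nonneg _) (abs_le.2 hz) j
    have h4 : |(j : ℝ) + 1| = (j : ℝ) + 1 := abs_of_nonneg (by positivity)
    rw [h4]
    calc |p.coeff (j + 1)| * ((j : ℝ) + 1) * |z| ^ j ≤ C * S * ((j : ℝ) + 1) * 2 ^ j := by
          refine mul_le_mul (mul_le_mul_of_nonneg_right (h1 _) (by positivity)) h3
            (by positivity) (by positivity)
      _ = _ := by ring
  have h2 := Convex.norm_image_sub_le_of_norm_hasDerivWithin_le (f := fun x => p.eval x)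
    (f' := fun x => p.derivative.eval x) (s := Set.Icc (-2 : ℝ) 2) (C := C * S * A) (x := y)
    (y := x) (fun x _ => (p.hasDerivAt x).hasDerivWithinAt) (fun x hx => by
      rw [Real.norm_eq_abs]
      exact hder x hx) (convex_Icc (-2) 2) (abs_le.1 hy) (abs_le.1 hx)
  rw [Real.norm_eq_abs, Real.norm_eq_abs] at h2
  refine h2.trans (mul_le_mul_of_nonneg_right ?_ (abs_nonneg _))
  nlinarith

end Pool.AFF82
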