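import Pool.Agent.H82.CNC.Fla

/-!
# The own line; paths and boxes near it

`oln`: the own line at a time. `own_ext`: a closed path near the own line, on four windows.
`fl_gro`: a polynomial of the plane which is bounded on the box of the base window is bounded near
the own line. `hs_pl`, `dd_one`: derivatives in the plane.
-/

set_option autoImplicit false

namespace Pool.AFF82

open Finset Real MvPolynomial
open Pool.Agent.H49.Ent Pool.Agent.H32.Dense Pool.STK
open Pool.KA Pool.KSAT Pool.K2S Pool.PB Pool.S6C Pool.GEN Pool.D2R Pool.ISO Pool.CHT Pool.CHX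
open Pool.PB.Trl (rt rt_mem t_rt)

variable {m J : ℕ}

/-- **The own line** at the time `t`. -/
noncomputable def oln (F : Fam m J) (ω : F.Ω) (t : ℝ) : Option (Fin m) → ℝ
  | none => t
  | some j => F.u ω j + t * F.d ω j

theorem oln_t (F : Fam m J) (ω : F.Ω) : oln F ω (F.t ω) = bt F ω := by
  funext o
  cases o with
  | none => rfl
  | some j => rfl

theorem ptw_oln (F : Fam m J) (a : ℕ) (ω : F.Ω) (τ : ℝ) :
    ptw F a ω τ = oln F ω ((((slam F a ω).2.2 : ℝ) + τ) / 2 ^ a) := by
  funext o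
  unfold ptw
  rw [eval_lc']
  cases o with
  | none => rfl
  | some j =>
    show F.u ω j + F.d ω j * ((((slam F a ω).2.2 : ℝ) + τ) / 2 ^ a) =
      F.u ω j + (((slam F a ω).2.2 : ℝ) + τ) / 2 ^ a * F.d ω j
    ring

theorem oln_add (F : Fam m J) (ω : F.Ω) (t δ : ℝ) (o : Option (Fin m)) :
    oln F ω (t + δ) o = oln F ω t o + δ * bd F ω o := by
  cases o with
  | none =>
    show t + δ = t + δ * 1
    ring
  | some j =>
    show F.u ω j + (t + δ) * F.d ω j = F.u ω j + t * F.d ω j + δ * F.d ω j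
    ring

/-- A univariate polynomial which is bounded on the unit interval. -/
theorem uni_big (D : ℕ) : ∃ C : ℝ, 1 ≤ C ∧ ∀ (p : Polynomial ℝ) (S : ℝ), p.natDegree ≤ D →
    (∀ t ∈ Set.Icc (0 : ℝ) 1, |p.eval t| ≤ S) → ∀ x y : ℝ, |x| ≤ 5 → |y| ≤ 5 →
      |p.eval x| ≤ C * S ∧ |p.derivative.eval x| ≤ C * S ∧
      |p.eval x - p.eval y| ≤ C * S * |x - y| := by
  obtain ⟨C, hC, h⟩ := Pool.Agent.H40.FR.unit_coef D
  obtain ⟨A, hA⟩ : ∃ A : ℝ, A = ∑ j ∈ range (D + 1), ((j : ℝ) + 1) * 5 ^ j := ⟨_, rfl⟩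
  have hA0 : 0 ≤ A := by
    rw [hA]
    exact Finset.sum_nonneg fun j _ => by positivity
  refine ⟨C * A + 1, by nlinarith, ?_⟩
  intro p S hp hS x y hx hy
  have hS0 : 0 ≤ S := (abs_nonneg _).trans (hS 0 ⟨le_rfl, by norm_num⟩)
  have h1 := h p S hp hS
  have hd : p.derivative.natDegree < D + 1 :=
    lt_of_le_of_lt ((Polynomial.natDegree_derivative_le p).trans (Nat.sub_le _ _)) (by omega)
  have hle : C * S * A ≤ (C * A + 1) * S := by nlinarith
  have hder : ∀ z ∈ Set.Icc (-5 : ℝ) 5, |p.derivative.eval z| ≤ C * S * A := by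
    intro z hz
    rw [Polynomial.eval_eq_sum_range' hd]
    refine (Finset.abs_sum_le_sum_abs _ _).trans ?_
    rw [hA, Finset.mul_sum]
    refine Finset.sum_le_sum fun j _ => ?_
    rw [Polynomial.coeff_derivative, abs_mul, abs_mul, abs_pow]
    have h3 : |z| ^ j ≤ 5 ^ j := pow_le_pow_left₀ (abs_nonneg _) (abs_le.2 hz) j
    have h4 : |(j : ℝ) + 1| = (j : ℝ) + 1 := abs_of_nonneg (by positivity)
    rw [h4]
    calc |p.coeff (j + 1)| * ((j : ℝ) + 1) * |z| ^ j ≤ C * S * ((j : ℝ) + 1) * 5 ^ j := by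
          refine mul_le_mul (mul_le_mul_of_nonneg_right (h1 _) (by positivity)) h3
            (by positivity) (by positivity)
      _ = _ := by ring
  refine ⟨?_, (hder x (abs_le.1 hx)).trans hle, ?_⟩
  · rw [Polynomial.eval_eq_sum_range' (lt_of_le_of_lt hp (Nat.lt_succ_self D))]
    refine (Finset.abs_sum_le_sum_abs _ _).trans (le_trans ?_ hle)
    rw [hA, Finset.mul_sum]
    refine Finset.sum_le_sum fun j _ => ?_
    rw [abs_mul, abs_pow]
    have h3 : |x| ^ j ≤ 5 ^ j := pow_le_pow_left₀ (abs_nonneg _) hx j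
    have h4 : (1 : ℝ) * 5 ^ j ≤ ((j : ℝ) + 1) * 5 ^ j :=
      mul_le_mul_of_nonneg_right (by linarith [Nat.cast_nonneg (α := ℝ) j]) (by positivity)
    calc |p.coeff j| * |x| ^ j ≤ C * S * 5 ^ j :=
          mul_le_mul (h1 _) h3 (by positivity) (by positivity)
      _ ≤ C * S * (((j : ℝ) + 1) * 5 ^ j) :=
          mul_le_mul_of_nonneg_left (by linarith) (by positivity)
      _ = _ := by ring
  · have h2 := Convex.norm_image_sub_le_of_norm_hasDerivWithin_le (f := fun x => p.eval x)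
      (f' := fun x => p.derivative.eval x) (s := Set.Icc (-5 : ℝ) 5) (C := C * S * A) (x := y)
      (y := x) (fun x _ => (p.hasDerivAt x).hasDerivWithinAt) (fun x hx => by
        rw [Real.norm_eq_abs]
        exact hder x hx) (convex_Icc (-5) 5) (abs_le.1 hy) (abs_le.1 hx)
    rw [Real.norm_eq_abs, Real.norm_eq_abs] at h2
    exact h2.trans (mul_le_mul_of_nonneg_right hle (abs_nonneg _))

/-- **The own path** on four windows: value, variation, velocity. -/
theorem own_ext (D : ℕ) : ∃ C : ℝ, 1 ≤ C ∧ ∀ {m J : ℕ} {F : Fam m J} {f : ℕ} {ω : F.Ω}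
    {P : MvPolynomial (Option (Fin m)) ℝ} {k : Fin m} {M : ℝ}, f ≤ J → P.totalDegree ≤ D →
    (∀ τ ∈ Set.Icc (0 : ℝ) 1, |ptw F f ω τ (some k) - eval (ptw F f ω τ) P| ≤ M) →
    ∀ t t' : ℝ, |2 ^ f * (t - F.t ω)| ≤ 4 → |2 ^ f * (t' - F.t ω)| ≤ 4 →
      |oln F ω t (some k) - eval (oln F ω t) P| ≤ C * M ∧
      |bd F ω (some k) - dd P (oln F ω t) (bd F ω)| ≤ C * M * 2 ^ f ∧
      |(oln F ω t (some k) - eval (oln F ω t) P) - (oln F ω t' (some k) - eval (oln F ω t') P)| ≤
        C * M * |2 ^ f * (t - t')| := by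
  obtain ⟨C, hC, hb⟩ := uni_big (D + 1)
  refine ⟨C, hC, ?_⟩
  intro m J F f ω P k M hfJ hP hM t t' ht ht'
  obtain ⟨q, hq⟩ : ∃ q : Polynomial ℝ, q = lc f (slam F f ω) (some k) -
      MvPolynomial.aeval (lc f (slam F f ω)) P := ⟨_, rfl⟩
  have hlc : ∀ o, (lc f (slam F f ω) o).natDegree ≤ 1 := fun o => natDegree_lc f _ o
  have hqd : q.natDegree ≤ D + 1 := by
    rw [hq]
    exact (Polynomial.natDegree_sub_le _ _).trans (max_le ((hlc _).trans (by omega))
      ((Pool.KBX.natDegree_aeval_le P _ hlc hP).trans (by omega)))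
  have hqM : ∀ t ∈ Set.Icc (0 : ℝ) 1, |q.eval t| ≤ M := by
    intro t ht
    rw [hq, Polynomial.eval_sub, aeval_lc]
    exact hM t ht
  have hf : (0 : ℝ) < 2 ^ f := by positivity
  obtain ⟨n, hn⟩ : ∃ n : ℝ, n = ((slam F f ω).2.2 : ℝ) := ⟨_, rfl⟩
  have hr := t_rt F hfJ ω
  have hr1 := rt_mem F f ω
  rw [← hn] at hr
  have hpt : ∀ s : ℝ, ptw F f ω (2 ^ f * s - n) = oln F ω s := by
    intro s
    rw [ptw_oln, ← hn]
    congr 1
    field_simp
    ring
  have hval : ∀ s : ℝ, q.eval (2 ^ f * s - n) = oln F ω s (some k) - eval (oln F ω s) P := by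
    intro s
    rw [hq, Polynomial.eval_sub, aeval_lc, hpt s, ← hpt s]
    rfl
  have h5 : ∀ s : ℝ, |2 ^ f * (s - F.t ω)| ≤ 4 → |2 ^ f * s - n| ≤ 5 := by
    intro s hs
    have e1 : 2 ^ f * s - n = 2 ^ f * (s - F.t ω) + rt F f ω := by
      rw [hr]
      field_simp
      ring
    rw [e1]
    refine (abs_add_le _ _).trans ?_
    rw [abs_of_nonneg hr1.1]
    linarith [hr1.2]
  obtain ⟨k1, k2, k3⟩ := hb q M hqd hqM _ _ (h5 t ht) (h5 t' ht')
  rw [hval] at k1
  rw [hval, hval] at k3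
  refine ⟨k1, ?_, ?_⟩
  · have hc := der_curve (lc f (slam F f ω)) (x := ptw F f ω (2 ^ f * t - n))
      (V := (1 / 2 ^ f : ℝ) • bd F ω)
      (Z := 0) (s := 2 ^ f * t - n) (fun o => rfl)
      (fun o => by rw [der_lc, Polynomial.eval_C]; rfl)
      (fun o => by rw [der_lc, Polynomial.derivative_C, Polynomial.eval_zero]; rfl) P
    have e1 : q.derivative.eval (2 ^ f * t - n) = 1 / 2 ^ f * (bd F ω (some k) -
        dd P (oln F ω t) (bd F ω)) := by
      rw [hq, Polynomial.derivative_sub, Polynomial.eval_sub, hc.1, dd_smul, der_lc,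
        Polynomial.eval_C, hpt]
      show 1 / 2 ^ f * bd F ω (some k) - _ = _
      ring
    rw [e1, abs_mul, abs_of_pos (by positivity : (0 : ℝ) < 1 / 2 ^ f), one_div,
      inv_mul_le_iff₀ hf] at k2
    linarith
  · have e1 : 2 ^ f * t - n - (2 ^ f * t' - n) = 2 ^ f * (t - t') := by ring
    rw [e1] at k3
    exact k3

/-- The derivative of a polynomial of the plane. -/
theorem dd_one {c : ℕ → Fin m} {Q : MvPolynomial (Option (Fin m)) ℝ} (hQ : DepC c 1 Q)
    (x V : Option (Fin m) → ℝ) : dd Q x V = eval x (pderiv none Q) * V none +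
      eval x (pderiv (some (c 0)) Q) * V (some (c 0)) := by
  classical
  have e1 : dd Q x V = dd Q x (kpt c (V none) (V (some (c 0)))) := by
    refine dd_congr hQ x (kpt_none _ _ _).symm fun l hl => ?_
    have : l = 0 := by omega
    subst this
    exact (kpt_zero _ _ _).symm
  rw [e1]
  unfold dd kpt
  have e2 : ∀ o : Option (Fin m), eval x (pderiv o Q) * (if o = none then V none else
      if o = some (c 0) then V (some (c 0)) else 0) =
      (if o = none then eval x (pderiv o Q) * V none else 0) +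
      (if o = some (c 0) then eval x (pderiv o Q) * V (some (c 0)) else 0) := by
    intro o
    by_cases h1 : o = none
    · subst h1
      simp
    · by_cases h2 : o = some (c 0)
      · subst h2
        simp
      · simp [h1, h2]
  simp only [e2]
  rw [Finset.sum_add_distrib, Finset.sum_ite_eq' Finset.univ, Finset.sum_ite_eq' Finset.univ,
    if_pos (Finset.mem_univ _), if_pos (Finset.mem_univ _)]

/-- The first plane coordinate of a vector. -/
noncomputable def pl0 (o : ℕ) (V : Option (Fin m) → ℝ) : ℝ := 2 ^ o * V none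

/-- The second plane coordinate of a vector. -/
noncomputable def pl1 (c : ℕ → Fin m) (s : ℕ) (al : ℝ) (V : Option (Fin m) → ℝ) : ℝ :=
  2 ^ s * (V (some (c 0)) - al * V none)

/-- **The second derivatives in the plane.** -/
theorem hs_pl {c : ℕ → Fin m} {Q : MvPolynomial (Option (Fin m)) ℝ} (hQ : DepC c 1 Q) (o s : ℕ)
    (al : ℝ) (x V W : Option (Fin m) → ℝ) : hs Q x V W =
      pl0 o V * pl0 o W * eval x (npl c o s al Q 0 0) +
      (pl0 o V * pl1 c s al W + pl1 c s al V * pl0 o W) * eval x (npl c o s al Q 0 1) +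
      pl1 c s al V * pl1 c s al W * eval x (npl c o s al Q 1 1) := by
  have e0 : ∀ V : Option (Fin m) → ℝ,
      V none = (pl0 o V • evp c o s al 0 + pl1 c s al V • evp c o s al 1) none := by
    intro V
    show V none = 2 ^ o * V none * (if (none : Option (Fin m)) = none then 1 / 2 ^ o else
      if (none : Option (Fin m)) = some (c 0) then al / 2 ^ o else 0) +
      pl1 c s al V * (if (none : Option (Fin m)) = some (c 0) then 1 / 2 ^ s else 0)
    rw [if_pos rfl, if_neg (by simp), mul_zero, add_zero]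
    field_simp
  have e1 : ∀ V : Option (Fin m) → ℝ, ∀ l < 1, V (some (c l)) =
      (pl0 o V • evp c o s al 0 + pl1 c s al V • evp c o s al 1) (some (c l)) := by
    intro V l hl
    have : l = 0 := by omega
    subst this
    show V (some (c 0)) = 2 ^ o * V none * (if some (c 0) = none then 1 / 2 ^ o else
      if some (c 0) = some (c 0) then al / 2 ^ o else 0) +
      2 ^ s * (V (some (c 0)) - al * V none) * (if some (c 0) = some (c 0) then 1 / 2 ^ s else 0)
    rw [if_neg (by simp), if_pos rfl, if_pos rfl]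
    field_simp
    ring
  rw [hs_congr1 hQ x (e0 V) (e1 V) (e0 W) (e1 W), hs_add_left, hs_add_right, hs_add_right,
    hs_smul_left, hs_smul_left, hs_smul_left, hs_smul_left, hs_smul_right, hs_smul_right,
    hs_smul_right, hs_smul_right, hs_comm Q x (evp c o s al 1) (evp c o s al 0)]
  simp only [eval_npl]
  ring

theorem hs_pl_le {c : ℕ → Fin m} {Q : MvPolynomial (Option (Fin m)) ℝ} (hQ : DepC c 1 Q) (o s : ℕ)
    (al : ℝ) (x V W : Option (Fin m) → ℝ) {S : ℝ}
    (hS : ∀ i j, |eval x (npl c o s al Q i j)| ≤ S) :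
    |hs Q x V W| ≤ S * ((|pl0 o V| + |pl1 c s al V|) * (|pl0 o W| + |pl1 c s al W|)) := by
  rw [hs_pl hQ o s al]
  obtain ⟨a, ha⟩ : ∃ a, a = pl0 o V := ⟨_, rfl⟩
  obtain ⟨a', ha'⟩ : ∃ a', a' = pl0 o W := ⟨_, rfl⟩
  obtain ⟨b, hb⟩ : ∃ b, b = pl1 c s al V := ⟨_, rfl⟩
  obtain ⟨b', hb'⟩ : ∃ b', b' = pl1 c s al W := ⟨_, rfl⟩
  rw [← ha, ← ha', ← hb, ← hb']
  have h1 := hS 0 0
  have h2 := hS 0 1
  have h3 := hS 1 1
  have t1 := abs_add_le (a * a' * eval x (npl c o s al Q 0 0) +
    (a * b' + b * a') * eval x (npl c o s al Q 0 1)) (b * b' * eval x (npl c o s al Q 1 1))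
  have t2 := abs_add_le (a * a' * eval x (npl c o s al Q 0 0))
    ((a * b' + b * a') * eval x (npl c o s al Q 0 1))
  have u1 : |a * a' * eval x (npl c o s al Q 0 0)| ≤ |a| * |a'| * S := by
    rw [abs_mul, abs_mul]
    exact mul_le_mul_of_nonneg_left h1 (by positivity)
  have u2 : |(a * b' + b * a') * eval x (npl c o s al Q 0 1)| ≤ (|a| * |b'| + |b| * |a'|) * S := by
    rw [abs_mul]
    refine mul_le_mul ((abs_add_le _ _).trans (le_of_eq (by rw [abs_mul, abs_mul]))) h2
      (abs_nonneg _) (by positivity)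
  have u3 : |b * b' * eval x (npl c o s al Q 1 1)| ≤ |b| * |b'| * S := by
    rw [abs_mul, abs_mul]
    exact mul_le_mul_of_nonneg_left h3 (by positivity)
  have e1 : S * ((|a| + |b|) * (|a'| + |b'|)) = |a| * |a'| * S + (|a| * |b'| + |b| * |a'|) * S +
    |b| * |b'| * S := by ring
  rw [e1]
  linarith

/-- **The variation of the derivative.** -/
theorem dd_seg (Q : MvPolynomial (Option (Fin m)) ℝ) (x y V : Option (Fin m) → ℝ) {M : ℝ}
    (hM : ∀ u ∈ Set.Icc (0 : ℝ) 1, |hs Q (fun o => x o + u * (y o - x o)) V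
      (fun o => y o - x o)| ≤ M) : |dd Q y V - dd Q x V| ≤ M := by
  have h1 := mv_seg (dpl V Q) x (fun o => y o - x o) (M := M) (fun u hu => by
    rw [dd_dpl]
    exact hM u hu) 1 ⟨zero_le_one, le_rfl⟩
  have e1 : (fun o => x o + 1 * (y o - x o)) = y := by
    funext o
    ring
  rw [e1, eval_dpl, eval_dpl] at h1
  exact h1

/-- **Taylor at a point, between two points.** -/
theorem tay_seg (Q : MvPolynomial (Option (Fin m)) ℝ) (p b b' : Option (Fin m) → ℝ) {M : ℝ}
    (hM : ∀ u ∈ Set.Icc (0 : ℝ) 1, |dd Q (fun o => b' o + u * (b o - b' o)) (fun o => b o - b' o) -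
      dd Q p (fun o => b o - b' o)| ≤ M) :
    |eval b Q - eval b' Q - dd Q p (fun o => b o - b' o)| ≤ M := by
  have h1 := mv_seg (Q - aft Q p) b' (fun o => b o - b' o) (M := M) (fun u hu => by
    rw [dd_sub, dd_aft]
    exact hM u hu) 1 ⟨zero_le_one, le_rfl⟩
  have e1 : (fun o => b' o + 1 * (b o - b' o)) = b := by
    funext o
    ring
  rw [e1, map_sub, map_sub, eval_aft, eval_aft] at h1
  have e2 : dd Q p (fun o => b o - p o) - dd Q p (fun o => b' o - p o) =
      dd Q p (fun o => b o - b' o) := by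
    unfold dd
    rw [← Finset.sum_sub_distrib]
    exact Finset.sum_congr rfl fun o _ => by ring
  have e3 : eval b Q - (eval p Q + dd Q p (fun o => b o - p o)) - (eval b' Q -
      (eval p Q + dd Q p (fun o => b' o - p o))) = eval b Q - eval b' Q -
      dd Q p (fun o => b o - b' o) := by
    rw [← e2]
    ring
  rwa [e3] at h1

end Pool.AFF82
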