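import Pool.Agent.H82.CNC.Blk
import Pool.Agent.H42.D2.Nhp
import Pool.Agent.H99.D2.Hes

/-!
# The direction of the affine frame and the code of the velocity

`relvF_dil`: no relation on a larger box. `xe_near`: the code `Xe` of the velocity and the derivatives
along the own line. `nohyp_near`: near vectors. `flt_frn`: the frame chart of `c 1` is flat, from the
data `FrN` of the frame.
-/

set_option autoImplicit false

namespace Pool.AFF82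

open Finset Real MvPolynomial
open Pool.Agent.H49.Ent Pool.Agent.H32.Dense Pool.STK
open Pool.KA Pool.KSAT Pool.K2S Pool.PB Pool.S6C Pool.GEN Pool.D2R Pool.ISO Pool.CHT Pool.CHX
open Pool.V1E Pool.NHN Pool.D2G30
open Pool.CR99 (dv_ptw)
open Pool.PB.Trl (rt rt_mem t_rt)
open Pool.D2Con (NoHyp law_mono')

variable {m J : ℕ}

/-- **No relation, on a larger box.** -/
theorem relvF_dil (i D : ℕ) : ∃ c₀ D₁ : ℕ, ∀ {m J : ℕ} {F : Fam m J} {c : ℕ → Fin m}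
    {a w : ℕ} {g g' : ℕ → ℕ} {h n : ℕ} {κ : ℝ} {B : F.Ω → Prop}
    {G : PtT F → ℕ → MvPolynomial (Option (Fin m)) ℝ},
    RelvF F c i a w g D h κ B G → Set.InjOn c (Set.Iio i) → (∀ y l, (G y l).totalDegree ≤ D) →
    (∀ y l, DepC c l (G y l)) → (∀ l < i, g' l ≤ g l ∧ g l ≤ g' l + n) →
    RelvF F c i a w g' D (h + (c₀ + n * D₁)) κ B G := by
  obtain ⟨c₀, D₁, -, hd⟩ := nbx_dil (i + 1) (fun _ => D)
  refine ⟨c₀, D₁, ?_⟩
  intro m J F c a w g g' h n κ B G hR hc hdG hpG hg B' hB hP Dx Dl M h1 h2 h3 h4 hM h5 h6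
  have hsm : ∀ {ω : F.Ω} {b : Option (Fin m) → ℝ}, NBx c (G (ptr F J ω)) g a (F.t ω) i b →
      NBx c (G (ptr F J ω)) g' a (F.t ω) i b := fun {ω b} hb => ⟨hb.1, fun l hl =>
    (hb.2 l hl).trans (one_div_le_one_div_of_le (by positivity)
      (pow_le_pow_right₀ (by norm_num) (hg l hl).1))⟩
  obtain ⟨B'', k1, k2, k3⟩ := hR B' hB hP Dx Dl M h1 h2 h3 h4 hM h5 fun ω hω b hb =>
    h6 ω hω b (hsm hb)
  refine ⟨B'', k1, k2, fun ω hω b hb => ?_⟩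
  have h7 := hd n (Nat.lt_succ_self i) hc (hdG (ptr F J ω)) (hpG (ptr F J ω)) (h3 (ptr F J ω))
    (h1 (ptr F J ω)) (by positivity : 0 ≤ 2 ^ h * M) (k3 ω hω) b hb.1 fun l hl => by
      refine (hb.2 l hl).trans ?_
      rw [div_le_div_iff₀ (by positivity) (by positivity), one_mul, ← pow_add]
      exact pow_le_pow_right₀ (by norm_num) (by have := (hg l hl).2; omega)
  refine h7.trans (le_of_eq ?_)
  rw [pow_add 2 h]
  ring

/-- Near vectors. -/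
theorem nohyp_near {Ω ζ : Type} [Fintype Ω] {q : Ω → ℝ} {X X' : Ω → Fin 3 → ℝ} {Z : Ω → ζ}
    {η η' δ c : ℝ} (hq : ∀ ω, 0 ≤ q ω) (h : NoHyp q X Z η c)
    (hX : ∀ ω, 0 < q ω → ∀ i, |X' ω i - X ω i| ≤ δ) (hη : η' + 3 * δ ≤ η) :
    NoHyp q X' Z η' c := by
  intro n hn
  refine (law_mono' hq fun ω hω hle => ?_).trans (h n hn)
  obtain ⟨h1, -⟩ := hn ω hω
  have e1 : ∑ j, n (Z ω) j * X ω j = ∑ j, n (Z ω) j * X' ω j -
      ∑ j, n (Z ω) j * (X' ω j - X ω j) := by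
    rw [← Finset.sum_sub_distrib]
    exact Finset.sum_congr rfl fun j _ => by ring
  have h2 : |∑ j, n (Z ω) j * (X' ω j - X ω j)| ≤ 3 * δ := by
    refine (Finset.abs_sum_le_sum_abs _ _).trans ?_
    have h3 : ∀ j, |n (Z ω) j * (X' ω j - X ω j)| ≤ δ := fun j => by
      rw [abs_mul]
      calc |n (Z ω) j| * |X' ω j - X ω j| ≤ 1 * δ :=
            mul_le_mul (h1 j) (hX ω hω j) (abs_nonneg _) (by norm_num)
        _ = δ := one_mul _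
    refine (Finset.sum_le_sum fun j _ => h3 j).trans (le_of_eq ?_)
    rw [Finset.sum_const, Finset.card_univ, Fintype.card_fin, nsmul_eq_mul]
    norm_num
  show |∑ j, n (Z ω) j * X ω j| ≤ η
  rw [e1]
  have h4 := abs_sub (∑ j, n (Z ω) j * X' ω j) (∑ j, n (Z ω) j * (X' ω j - X ω j))
  have h5 : |∑ j, n (Z ω) j * X' ω j| ≤ η' := hle
  linarith

section xe

variable {F : Fam m J} {c : ℕ → Fin m} {D MB q₀ Q x u e : ℕ} {s : ℕ → ℕ} {qe : Fin 2 → ℕ}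
  {o : ℕ → ℕ} {g g₀ : ℕ → ℕ → ℕ} {B : F.Ω → Prop}
  {G : ℕ → PtT F → ℕ → MvPolynomial (Option (Fin m)) ℝ}
  {H : ℕ → LnT F → ℕ → MvPolynomial (Option (Fin m)) ℝ}

/-- The code of the velocity. -/
noncomputable def XE (F : Fam m J) (c : ℕ → Fin m) (s : ℕ → ℕ) (qe : Fin 2 → ℕ) (q₀ o1 : ℕ)
    (H0 : LnT F → ℕ → MvPolynomial (Option (Fin m)) ℝ) (ω : F.Ω) : Fin 3 → ℝ :=
  Xe 2 qe (eL c s 2 o1 qe (frH F 2 q₀ H0 (slam F o1 ω)) (slam F o1 ω))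

/-- **The code of the velocity.** -/
theorem xe_near (W : FrN F c 2 D MB q₀ Q x u e s qe o g g₀ B G H) {ω : F.Ω} (hω : B ω) :
    XE F c s qe q₀ (o 1) (H 0) ω 0 = 1 ∧
    |XE F c s qe q₀ (o 1) (H 0) ω 1 - 2 ^ s 0 / 2 ^ o 1 * (bd F ω (some (c 0)) -
      dd (G 0 (ptr F J ω) 0) (oln F ω (tmc (o 1) (slam F (o 1) ω).2.2)) (bd F ω))| ≤
        1 / 2 ^ qe 0 ∧
    |XE F c s qe q₀ (o 1) (H 0) ω 2 - 2 ^ s 1 / 2 ^ o 1 * (bd F ω (some (c 1)) -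
      dd (G 0 (ptr F J ω) 1) (oln F ω (tmc (o 1) (slam F (o 1) ω).2.2)) (bd F ω))| ≤
        1 / 2 ^ qe 1 := by
  obtain ⟨L, hL'⟩ : ∃ L, L = slam F (o 1) ω := ⟨_, rfl⟩
  have hfr := W.fr hω
  have hpt : ptw F (o 1) ω 0 = oln F ω (tmc (o 1) (slam F (o 1) ω).2.2) := by
    rw [ptw_oln, add_zero]
    rfl
  have key : ∀ i : Fin 2, |XE F c s qe q₀ (o 1) (H 0) ω i.succ -
      2 ^ s i / 2 ^ o 1 * (bd F ω (some (c i)) - dd (G 0 (ptr F J ω) i)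
        (oln F ω (tmc (o 1) (slam F (o 1) ω).2.2)) (bd F ω))| ≤ 1 / 2 ^ qe i := by
    intro i
    have e1 : XE F c s qe q₀ (o 1) (H 0) ω i.succ = ((⌊2 ^ qe i * (Polynomial.derivative
        (hL c s 2 (o 1) (trn 2 (G 0 (ptr F J ω))) (slam F (o 1) ω) (some i))).eval 0⌋ : ℤ) : ℝ) /
          2 ^ qe i := by
      unfold XE
      rw [hfr]
      rfl
    have hc := der_curve (lc (o 1) (slam F (o 1) ω)) (x := ptw F (o 1) ω 0)
      (V := (1 / 2 ^ o 1 : ℝ) • bd F ω) (Z := 0) (s := 0) (fun o => rfl)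
      (fun o => by rw [der_lc, Polynomial.eval_C]; rfl)
      (fun o => by rw [der_lc, Polynomial.derivative_C, Polynomial.eval_zero]; rfl)
      (trn 2 (G 0 (ptr F J ω)) i)
    have e2 : (Polynomial.derivative (hL c s 2 (o 1) (trn 2 (G 0 (ptr F J ω))) (slam F (o 1) ω)
        (some i))).eval 0 = 2 ^ s i / 2 ^ o 1 * (bd F ω (some (c i)) - dd (G 0 (ptr F J ω) i)
          (oln F ω (tmc (o 1) (slam F (o 1) ω).2.2)) (bd F ω)) := by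
      have e3 : hL c s 2 (o 1) (trn 2 (G 0 (ptr F J ω))) (slam F (o 1) ω) (some i) =
          Polynomial.C (2 ^ s i) * (lc (o 1) (slam F (o 1) ω) (some (c i)) -
            aeval (lc (o 1) (slam F (o 1) ω)) (trn 2 (G 0 (ptr F J ω)) i)) := rfl
      rw [e3, Polynomial.derivative_C_mul, Polynomial.derivative_sub, Polynomial.eval_mul,
        Polynomial.eval_C, Polynomial.eval_sub, hc.1, dd_smul, der_lc, Polynomial.eval_C, hpt,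
        trn_eq i.isLt]
      show 2 ^ s i * (1 / 2 ^ o 1 * bd F ω (some (c i)) - _) = _
      ring
    rw [e1, e2]
    obtain ⟨v, hv⟩ : ∃ v, v = 2 ^ s i / 2 ^ o 1 * (bd F ω (some (c i)) - dd (G 0 (ptr F J ω) i)
      (oln F ω (tmc (o 1) (slam F (o 1) ω).2.2)) (bd F ω)) := ⟨_, rfl⟩
    rw [← hv]
    have h5 := Int.floor_le ((2 : ℝ) ^ qe i * v)
    have h6 := (Int.lt_floor_add_one ((2 : ℝ) ^ qe i * v)).le
    have h7 : (0 : ℝ) < 2 ^ qe i := by positivity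
    have e4 : ((⌊2 ^ qe i * v⌋ : ℤ) : ℝ) / 2 ^ qe i - v =
        -(2 ^ qe i * v - ((⌊2 ^ qe i * v⌋ : ℤ) : ℝ)) / 2 ^ qe i := by
      field_simp
      ring
    rw [e4, abs_div, abs_of_pos h7, abs_neg]
    refine div_le_div_of_nonneg_right ?_ h7.le
    rw [abs_le]
    constructor <;> linarith
  exact ⟨rfl, key 0, key 1⟩

end xe

/-- The slope of a polynomial of the time. -/
theorem dd_alp {F : Fam m J} {c : ℕ → Fin m} {P0 : MvPolynomial (Option (Fin m)) ℝ}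
    (hP : DepC c 0 P0) (ω : F.Ω) (t : ℝ) :
    dd P0 (oln F ω t) (bd F ω) = eval (kpt c t 0) (pderiv none P0) := by
  have e2 : dd P0 (oln F ω t) (bd F ω) = dd P0 (oln F ω t) (kpt c 1 0) :=
    dd_congr hP _ (kpt_none _ _ _).symm fun l hl => absurd hl (Nat.not_lt_zero l)
  rw [e2, dd_one (hP.mono (Nat.zero_le 1)), kpt_none, kpt_zero, mul_one, mul_zero, add_zero]
  exact depC_pderiv hP none _ _ (kpt_none _ _ _).symm fun l hl => absurd hl (Nat.not_lt_zero l)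

/-- The numbers of `flt_frn`. -/
theorem flt_num {C ε : ℝ} (hC : 1 ≤ C) {c₂ E u h Λ Z Q gx s Y M : ℕ} (hc₂ : C < 2 ^ c₂)
    (hE1 : c₂ + u + 2 * Y + 16 ≤ E) (hZ : Z = E + h + 2 * Λ) (hZQ : Z ≤ Q) (hgx : gx ≤ s)
    (hM : Q ≤ M) (hε : ε ≤ 1 / 2 ^ M) :
    (2 : ℝ) ^ h * (3 * (C * 2 ^ u / 2 ^ Z + (C * (2 ^ gx / 2 ^ (Q + s)) * 2 ^ (2 * Y + 2) +
      ε * 2 ^ (Y + 3))) * 2 ^ (2 * Λ) + C * (2 ^ gx / 2 ^ (Q + s))) ≤ 1 / 4 := by
  have hpow : ∀ {i j : ℕ}, i ≤ j → (2 : ℝ) ^ i ≤ 2 ^ j := fun h => pow_le_pow_right₀ (by norm_num) h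
  have hL : C * (2 ^ gx / 2 ^ (Q + s)) ≤ 2 ^ c₂ / 2 ^ Q := by
    have h1 : (2 : ℝ) ^ gx / 2 ^ (Q + s) ≤ 1 / 2 ^ Q := by
      rw [div_le_div_iff₀ (by positivity) (by positivity), one_mul, ← pow_add]
      exact hpow (by omega)
    calc C * (2 ^ gx / 2 ^ (Q + s)) ≤ 2 ^ c₂ * (1 / 2 ^ Q) :=
          mul_le_mul hc₂.le h1 (by positivity) (by positivity)
      _ = _ := by ring
  have b1 : (2 : ℝ) ^ h * (3 * (C * 2 ^ u / 2 ^ Z)) * 2 ^ (2 * Λ) ≤ 1 / 16 := by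
    have h1 : C * 2 ^ u / 2 ^ Z ≤ 2 ^ (c₂ + u) / 2 ^ Z := by
      rw [pow_add]
      exact div_le_div_of_nonneg_right (mul_le_mul_of_nonneg_right hc₂.le (by positivity))
        (by positivity)
    have h2 : (2 : ℝ) ^ h * (3 * (C * 2 ^ u / 2 ^ Z)) * 2 ^ (2 * Λ) ≤
        2 ^ h * (4 * (2 ^ (c₂ + u) / 2 ^ Z)) * 2 ^ (2 * Λ) := by
      refine mul_le_mul_of_nonneg_right (mul_le_mul_of_nonneg_left ?_ (by positivity))
        (by positivity)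
      exact mul_le_mul (by norm_num) h1 (by positivity) (by norm_num)
    refine h2.trans ?_
    have e1 : (2 : ℝ) ^ h * (4 * (2 ^ (c₂ + u) / 2 ^ Z)) * 2 ^ (2 * Λ) =
        2 ^ (h + 2 + (c₂ + u) + 2 * Λ) / 2 ^ Z := by
      rw [pow_add 2 (h + 2 + (c₂ + u)), pow_add 2 (h + 2), pow_add 2 h 2]
      ring
    rw [e1, div_le_div_iff₀ (by positivity) (by norm_num), one_mul]
    have e2 : (16 : ℝ) = 2 ^ 4 := by norm_num
    rw [e2, ← pow_add]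
    exact hpow (by omega)
  have b2 : (2 : ℝ) ^ h * (3 * (C * (2 ^ gx / 2 ^ (Q + s)) * 2 ^ (2 * Y + 2))) * 2 ^ (2 * Λ) ≤
      1 / 16 := by
    have h2 : (2 : ℝ) ^ h * (3 * (C * (2 ^ gx / 2 ^ (Q + s)) * 2 ^ (2 * Y + 2))) * 2 ^ (2 * Λ) ≤
        2 ^ h * (4 * (2 ^ c₂ / 2 ^ Q * 2 ^ (2 * Y + 2))) * 2 ^ (2 * Λ) := by
      refine mul_le_mul_of_nonneg_right (mul_le_mul_of_nonneg_left ?_ (by positivity))
        (by positivity)
      exact mul_le_mul (by norm_num) (mul_le_mul_of_nonneg_right hL (by positivity))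
        (by positivity) (by norm_num)
    refine h2.trans ?_
    have e1 : (2 : ℝ) ^ h * (4 * (2 ^ c₂ / 2 ^ Q * 2 ^ (2 * Y + 2))) * 2 ^ (2 * Λ) =
        2 ^ (h + 2 + c₂ + (2 * Y + 2) + 2 * Λ) / 2 ^ Q := by
      rw [pow_add 2 (h + 2 + c₂ + (2 * Y + 2)), pow_add 2 (h + 2 + c₂),
        pow_add 2 (h + 2), pow_add 2 h 2]
      ring
    rw [e1, div_le_div_iff₀ (by positivity) (by norm_num), one_mul]
    have e2 : (16 : ℝ) = 2 ^ 4 := by norm_num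
    rw [e2, ← pow_add]
    exact hpow (by omega)
  have b3 : (2 : ℝ) ^ h * (3 * (ε * 2 ^ (Y + 3))) * 2 ^ (2 * Λ) ≤ 1 / 16 := by
    have h2 : (2 : ℝ) ^ h * (3 * (ε * 2 ^ (Y + 3))) * 2 ^ (2 * Λ) ≤
        2 ^ h * (4 * (1 / 2 ^ M * 2 ^ (Y + 3))) * 2 ^ (2 * Λ) := by
      refine mul_le_mul_of_nonneg_right (mul_le_mul_of_nonneg_left ?_ (by positivity))
        (by positivity)
      refine (mul_le_mul_of_nonneg_left (mul_le_mul_of_nonneg_right hε (by positivity))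
        (by norm_num : (0 : ℝ) ≤ 3)).trans ?_
      have : (0 : ℝ) ≤ 1 / 2 ^ M * 2 ^ (Y + 3) := by positivity
      linarith
    refine h2.trans ?_
    have e1 : (2 : ℝ) ^ h * (4 * (1 / 2 ^ M * 2 ^ (Y + 3))) * 2 ^ (2 * Λ) =
        2 ^ (h + 2 + (Y + 3) + 2 * Λ) / 2 ^ M := by
      rw [pow_add 2 (h + 2 + (Y + 3)), pow_add 2 (h + 2), pow_add 2 h 2]
      ring
    rw [e1, div_le_div_iff₀ (by positivity) (by norm_num), one_mul]
    have e2 : (16 : ℝ) = 2 ^ 4 := by norm_num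
    rw [e2, ← pow_add]
    exact hpow (by omega)
  have b4 : (2 : ℝ) ^ h * (C * (2 ^ gx / 2 ^ (Q + s))) ≤ 1 / 16 := by
    refine (mul_le_mul_of_nonneg_left hL (by positivity)).trans ?_
    have e1 : (2 : ℝ) ^ h * (2 ^ c₂ / 2 ^ Q) = 2 ^ (h + c₂) / 2 ^ Q := by
      rw [pow_add]
      ring
    rw [e1, div_le_div_iff₀ (by positivity) (by norm_num), one_mul]
    have e2 : (16 : ℝ) = 2 ^ 4 := by norm_num
    rw [e2, ← pow_add]
    exact hpow (by omega)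
  have e9 : (2 : ℝ) ^ h * (3 * (C * 2 ^ u / 2 ^ Z + (C * (2 ^ gx / 2 ^ (Q + s)) *
      2 ^ (2 * Y + 2) + ε * 2 ^ (Y + 3))) * 2 ^ (2 * Λ) +
      C * (2 ^ gx / 2 ^ (Q + s))) = 2 ^ h * (3 * (C * 2 ^ u / 2 ^ Z)) * 2 ^ (2 * Λ) +
      2 ^ h * (3 * (C * (2 ^ gx / 2 ^ (Q + s)) * 2 ^ (2 * Y + 2))) * 2 ^ (2 * Λ) +
      2 ^ h * (3 * (ε * 2 ^ (Y + 3))) * 2 ^ (2 * Λ) +
      2 ^ h * (C * (2 ^ gx / 2 ^ (Q + s))) := by ring
  rw [e9]
  linarith only [b1, b2, b3, b4]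

/-- **The frame chart of `c 1` is flat**, from the data of the frame. -/
theorem flt_frn (D : ℕ) : ∃ C₀ : ℕ, ∀ {m J : ℕ} {F : Fam m J} {c : ℕ → Fin m}
    {MB q₀ Q x u e : ℕ} {s : ℕ → ℕ} {qe : Fin 2 → ℕ} {o : ℕ → ℕ} {g g₀ : ℕ → ℕ → ℕ}
    {B : F.Ω → Prop} {G : ℕ → PtT F → ℕ → MvPolynomial (Option (Fin m)) ℝ}
    {H : ℕ → LnT F → ℕ → MvPolynomial (Option (Fin m)) ℝ}
    {Gb : PtT F → ℕ → MvPolynomial (Option (Fin m)) ℝ}
    {GbH : LnT F → ℕ → MvPolynomial (Option (Fin m)) ℝ} {gx h Λ Z : ℕ} {κ c₀ : ℝ},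
    FrN F c 2 D MB q₀ Q x u e s qe o g g₀ B G H → 0 < Pe F.p B → (∀ y, DepC c 0 (Gb y 0)) →
    (∀ ω, B ω → Gb (ptr F J ω) 0 = GbH (slam F (o 1) ω) 0) →
    (∀ ω, B ω → |F.x ω (c 0) - eval (bt F ω) (Gb (ptr F J ω) 0)| ≤ 1 / 2 ^ gx) →
    RelvF F c 1 (o 1) (o 1) (fun _ => gx) D h κ B Gb → κ ≤ 1 / 16 → c₀ ≤ 1 / 8 →
    NoHyp (Pool.Agent.H49.Ent.cond F.p B True) (XE F c s qe q₀ (o 1) (H 0))
      (flz F c (s 0) Q (G 0) Gb) (1 / 2 ^ Λ) c₀ → gx ≤ s 0 →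
    Z = C₀ * (u + x + 1) + h + 2 * Λ → Z ≤ Q →
    ∃ B' : F.Ω → Prop, Sub B' B ∧ Pe F.p B / 2 ≤ Pe F.p B' ∧
      ∀ ω, B' ω → flW F c (o 1) (s 0) gx (G 0) Gb ω ≤ 2 ^ Z / 2 ^ (g₀ 0 1 + 2 * (o 1 - o 0)) := by
  obtain ⟨C, hC, hfl⟩ := flat_ev D
  obtain ⟨C', hC', hext⟩ := own_ext D
  obtain ⟨c₂, hc₂⟩ := pow_unbounded_of_one_lt C (one_lt_two (α := ℝ))
  obtain ⟨c₃, hc₃⟩ := pow_unbounded_of_one_lt C' (one_lt_two (α := ℝ))
  refine ⟨c₂ + 2 * c₃ + 32, ?_⟩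
  intro m J F c MB q₀ Q x u e s qe o g g₀ B G H Gb GbH gx h Λ Z κ c₀ W hPB hpG hcl hpos hrel hκ hc₀
    hnh hgx hZ hZQ
  have hpow : ∀ {i j : ℕ}, i ≤ j → (2 : ℝ) ^ i ≤ 2 ^ j := fun h => pow_le_pow_right₀ (by norm_num) h
  obtain ⟨E, hE⟩ : ∃ E, E = (c₂ + 2 * c₃ + 32) * (u + x + 1) := ⟨_, rfl⟩
  rw [← hE] at hZ
  have hE1 : c₂ + 2 * c₃ + 3 * u + 2 * x + 32 ≤ E := by
    rw [hE]
    nlinarith [Nat.zero_le (c₂ * u), Nat.zero_le (c₂ * x), Nat.zero_le (c₃ * u),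
      Nat.zero_le (c₃ * x)]
  have ho1 := W.o1
  have ho2 := W.o2
  have ho3 := W.o3
  have hoJ := W.oJ
  have h1J : o 1 ≤ J := by omega
  have hown : ∀ ω, B ω → ∀ l < 2, ∀ τ ∈ Set.Icc (0 : ℝ) 1,
      |ptw F (o 0) ω τ (some (c l)) - eval (ptw F (o 0) ω τ) (G 0 (ptr F J ω) l)| ≤
        2 ^ u / 2 ^ g₀ 0 l := by
    intro ω hω l hl τ hτ
    have h1 := W.own0 ω hω l hl τ hτ
    rw [dv_ptw ω (fun s => H 0 s l), ← W.cl0 ω hω l hl] at h1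
    exact h1
  have hX : ∀ ω, B ω → |XE F c s qe q₀ (o 1) (H 0) ω 1 -
      2 ^ s 0 / 2 ^ o 1 * (F.d ω (c 0) - alp c (o 1) (G 0 (ptr F J ω) 0)
        (slam F (o 1) ω).2.2)| ≤ 1 / 2 ^ qe 0 := by
    intro ω hω
    have h1 := (xe_near W hω).2.1
    rw [dd_alp (W.pG 0 _ 0)] at h1
    exact h1
  have hqe : (1 : ℝ) / 2 ^ qe 0 ≤ 1 / 2 ^ (MB + Q) :=
    one_div_le_one_div_of_le (by positivity) (hpow (W.qeM 0))
  have hY : ∀ ω, B ω → |XE F c s qe q₀ (o 1) (H 0) ω 1| ≤ 2 ^ (c₃ + u + x + 1) := by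
    intro ω hω
    have ht := tmk_near h1J ω
    obtain ⟨t₀, ht₀⟩ : ∃ t₀, t₀ = tmc (o 1) (slam F (o 1) ω).2.2 := ⟨_, rfl⟩
    rw [← ht₀] at ht
    have ht1 : |2 ^ o 0 * (t₀ - F.t ω)| ≤ 4 := by
      have e1 : 2 ^ o 1 * (t₀ - F.t ω) = -((2 ^ o 1 * (F.t ω - t₀) - 1 / 2) + 1 / 2) := by ring
      have h2 : |2 ^ o 1 * (t₀ - F.t ω)| ≤ 1 := by
        rw [e1, abs_neg]
        refine (abs_add_le _ _).trans ?_
        rw [abs_of_pos (by norm_num : (0 : ℝ) < 1 / 2)]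
        linarith
      have h3 : (2 : ℝ) ^ o 0 ≤ 2 ^ o 1 := hpow (by omega)
      rw [abs_mul, abs_of_pos (by positivity)] at h2 ⊢
      have := mul_le_mul_of_nonneg_right h3 (abs_nonneg (t₀ - F.t ω))
      linarith
    have h2 := (hext (by omega) (W.dG 0 _ 0) (hown ω hω 0 (by norm_num)) t₀ t₀ ht1 ht1).2.1
    rw [dd_alp (W.pG 0 _ 0), ht₀] at h2
    have h3 := (hX ω hω)
    have h4 : |2 ^ s 0 / 2 ^ o 1 * (F.d ω (c 0) - alp c (o 1) (G 0 (ptr F J ω) 0)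
        (slam F (o 1) ω).2.2)| ≤ 2 ^ (c₃ + u + x) := by
      rw [abs_mul, abs_of_pos (by positivity)]
      refine (mul_le_mul_of_nonneg_left h2 (by positivity)).trans ?_
      have e1 : (2 : ℝ) ^ s 0 / 2 ^ o 1 * (C' * (2 ^ u / 2 ^ g₀ 0 0) * 2 ^ o 0) =
          C' * (2 ^ (s 0 + u + o 0) / 2 ^ (o 1 + g₀ 0 0)) := by
        rw [pow_add 2 (s 0 + u), pow_add 2 (s 0), pow_add 2 (o 1)]
        field_simp
      rw [e1]
      have h5 : (2 : ℝ) ^ (s 0 + u + o 0) / 2 ^ (o 1 + g₀ 0 0) ≤ 2 ^ (u + x) := by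
        rw [div_le_iff₀ (by positivity), ← pow_add]
        have := W.n0 0 (by norm_num)
        exact hpow (by omega)
      calc C' * (2 ^ (s 0 + u + o 0) / 2 ^ (o 1 + g₀ 0 0)) ≤ 2 ^ c₃ * 2 ^ (u + x) :=
            mul_le_mul hc₃.le h5 (by positivity) (by positivity)
        _ = _ := by
          rw [← pow_add]
          congr 1
          ring
    have h5 : (1 : ℝ) / 2 ^ qe 0 ≤ 1 := by
      rw [div_le_one (by positivity)]
      exact one_le_pow₀ (by norm_num)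
    have h6 := abs_sub_le (XE F c s qe q₀ (o 1) (H 0) ω 1) (2 ^ s 0 / 2 ^ o 1 * (F.d ω (c 0) -
      alp c (o 1) (G 0 (ptr F J ω) 0) (slam F (o 1) ω).2.2)) 0
    rw [sub_zero, sub_zero] at h6
    have h7 : (1 : ℝ) ≤ 2 ^ (c₃ + u + x) := one_le_pow₀ (by norm_num)
    rw [pow_succ]
    linarith
  have FD : FlD F c D (o 0) (o 1) Q (s 0) (g₀ 0 1) (fun _ => gx) (2 ^ u) h (c₃ + u + x + 1) Λ
      (1 / 2 ^ qe 0) κ c₀ B (G 0) Gb (H 0) GbH (XE F c s qe q₀ (o 1) (H 0)) :=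
    { pe := hPB
      fo := by omega
      oJ := h1J
      dP := W.dG 0
      pP := W.pG 0
      pG := hpG
      clP := W.cl0
      clG := hcl
      own := fun ω hω => hown ω hω 1 (by norm_num)
      pos := hpos
      rel := hrel
      hyp := hnh
      x0 := fun ω hω => (xe_near W hω).1
      xY := hY
      x1 := hX
      ε0 := by positivity
      ε1 := by
        rw [div_le_one (by positivity)]
        exact one_le_pow₀ (by norm_num) }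
  have hgs : gx ≤ Q + s 0 := by omega
  have h1 := @hfl m J F c (o 0) (o 1) Q (s 0) (g₀ 0 1) (fun _ => gx) (2 ^ u) h (c₃ + u + x + 1)
    Λ (1 / 2 ^ qe 0) κ c₀ B (G 0) Gb (H 0) GbH (XE F c s qe q₀ (o 1) (H 0)) Z FD hgs hκ hc₀
  have hY2 : c₂ + u + 2 * (c₃ + u + x + 1) + 16 ≤ E := by omega
  exact h1 (flt_num hC hc₂ hY2 hZ hZQ hgx (Nat.le_add_left Q MB) hqe)

end Pool.AFF82
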